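import Mathlib

open Finset Module

namespace Pool.Agent.OSD

variable {F : Type} [Field F] [Fintype F] {V : Type} [AddCommGroup V] [Module F V] [Fintype V]

/-- ANN -/
theorem ann_exists (W : Submodule F (Module.Dual F V)) : ∃ K : Submodule F V,
    (∀ x : Module.Dual F V, x ∈ W ↔ ∀ c ∈ K, x c = 0) ∧
    Nat.card K * Nat.card W = Nat.card V := by
  have hfin : Module.Finite F V := Module.Finite.of_finite
  refine ⟨W.dualCoannihilator, fun x => ?_, ?_⟩
  · have h1 : W.dualCoannihilator.dualAnnihilator = W :=
      Subspace.dualCoannihilator_dualAnnihilator_eq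
    rw [← Submodule.mem_dualAnnihilator, h1]
  · have h2 := Subspace.finrank_add_finrank_dualCoannihilator_eq W
    rw [Module.natCard_eq_pow_finrank (K := F) (V := W.dualCoannihilator),
      Module.natCard_eq_pow_finrank (K := F) (V := W),
      Module.natCard_eq_pow_finrank (K := F) (V := V), ← pow_add, add_comm, h2]

end Pool.Agent.OSD
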