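import Pool.Agent.OSD.Defs

open Finset Module

namespace Pool.Agent.OSD

open Pool.Agent.GapCodes Pool.Agent.LLog

attribute [local instance] fintypeDual

variable {F : Type} [Field F] [Fintype F] {V : Type} [AddCommGroup V] [Module F V] [Fintype V]
variable {ψ : AddChar F ℂ} {j : ℕ} {P : V → ℝ} {f : Module.Dual F V → ℝ}

private theorem anr_zero (hψ : ψ ≠ 0) (K : Submodule F V) [Fintype K] (x : Module.Dual F V)
    (hx : ¬ ∀ c ∈ K, x c = 0) : ∑ c : K, ch ψ (c : V) x = 0 := by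
  obtain ⟨a, ha⟩ : ∃ a, ψ a ≠ 1 := by
    by_contra hcon
    push Not at hcon
    exact hψ (by ext a; simpa using hcon a)
  push Not at hx
  obtain ⟨c1, hc1, hx1⟩ := hx
  have hmem : (a / x c1) • c1 ∈ K := K.smul_mem _ hc1
  have h1 : ch ψ ((a / x c1) • c1) x = ψ a := by
    unfold ch
    rw [map_smul, smul_eq_mul, div_mul_cancel₀ _ hx1]
  have h2 : ψ a * ∑ c : K, ch ψ (c : V) x = ∑ c : K, ch ψ (c : V) x := by
    rw [Finset.mul_sum]
    rw [← Equiv.sum_comp (Equiv.addLeft (⟨(a / x c1) • c1, hmem⟩ : K))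
      (fun c : K => ch ψ (c : V) x)]
    apply Finset.sum_congr rfl
    intro c _
    rw [Equiv.coe_addLeft]
    show ψ a * ch ψ (c : V) x = ch ψ ((a / x c1) • c1 + (c : V)) x
    rw [ch_add, h1]
  have h3 : (ψ a - 1) * ∑ c : K, ch ψ (c : V) x = 0 := by
    rw [sub_mul, h2, one_mul, sub_self]
  rcases mul_eq_zero.mp h3 with h4 | h4
  · exact absurd (sub_eq_zero.mp h4) ha
  · exact h4

open Classical in
/-- ANR -/
theorem ann_rep (hψ : ψ ≠ 0) (K : Submodule F V) [Fintype K] :
    Pool.Agent.LLog.Rep ψ (fun c : V => if c ∈ K then 1 / (Fintype.card K : ℝ) else 0)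
      (fun x => if ∀ c ∈ K, x c = 0 then 1 else 0) := by
  intro x
  have hK : (Fintype.card K : ℂ) ≠ 0 := by
    have := (Fintype.card_pos : 0 < Fintype.card K)
    exact_mod_cast this.ne'
  have h1 : ∑ c : V, ((if c ∈ K then 1 / (Fintype.card K : ℝ) else 0 : ℝ) : ℂ) * ch ψ c x =
      (1 / (Fintype.card K : ℂ)) * ∑ c : K, ch ψ (c : V) x := by
    have h2 : ∀ c : V, ((if c ∈ K then 1 / (Fintype.card K : ℝ) else 0 : ℝ) : ℂ) * ch ψ c x =
        if c ∈ K then (1 / (Fintype.card K : ℂ)) * ch ψ c x else 0 := by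
      intro c
      by_cases hc : c ∈ K
      · rw [if_pos hc, if_pos hc]
        push_cast
        rfl
      · rw [if_neg hc, if_neg hc]
        simp
    rw [Finset.sum_congr rfl (fun c _ => h2 c), ← Finset.sum_filter, Finset.mul_sum]
    rw [← Finset.sum_subtype (univ.filter (fun c : V => c ∈ K)) (fun c => by simp)
      (fun c => (1 / (Fintype.card K : ℂ)) * ch ψ c x)]
  show ((if ∀ c ∈ K, x c = 0 then (1 : ℝ) else 0 : ℝ) : ℂ) = _
  refine Eq.trans ?_ h1.symm
  by_cases hx : ∀ c ∈ K, x c = 0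
  · rw [if_pos hx]
    have h3 : ∑ c : K, ch ψ (c : V) x = Fintype.card K := by
      have h4 : ∀ c : K, ch ψ (c : V) x = 1 := by
        intro c
        unfold ch
        rw [hx c c.2, AddChar.map_zero_eq_one]
      rw [Finset.sum_congr rfl (fun c _ => h4 c), Finset.sum_const, Finset.card_univ, nsmul_eq_mul,
        mul_one]
    rw [h3, one_div, inv_mul_cancel₀ hK]
    simp
  · rw [if_neg hx, anr_zero hψ K x hx, mul_zero]
    simp

end Pool.Agent.OSD
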