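import Pool.Agent.OSD.Defs

open Finset Module

namespace Pool.Agent.OSD

open Pool.Agent.GapCodes Pool.Agent.LLog

attribute [local instance] fintypeDual

variable {F : Type} [Field F] [Fintype F] {V : Type} [AddCommGroup V] [Module F V] [Fintype V]
variable {ψ : AddChar F ℂ} {j : ℕ} {P : V → ℝ} {f : Module.Dual F V → ℝ}

private theorem mod_pow (B : Finset (Module.Dual F V))
    (β : V → ℝ) (hβ : ∀ c, ((β c : ℝ) : ℂ) = ∑ x ∈ B, ch ψ c x) (r : ℕ) :
    ∃ g : Module.Dual F V → ℝ, (∀ w, 0 ≤ g w) ∧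
      ∀ c, ((β c ^ r : ℝ) : ℂ) = ∑ w, (g w : ℂ) * ch ψ c w := by
  classical
  induction r with
  | zero =>
    refine ⟨fun w => if w = 0 then 1 else 0, fun w => by dsimp only; split_ifs <;> norm_num, fun c => ?_⟩
    have h1 : ∀ w : Module.Dual F V, (((if w = 0 then 1 else 0 : ℝ)) : ℂ) * ch ψ c w =
        if w = 0 then ch ψ c 0 else 0 := by
      intro w
      split_ifs with hw
      · rw [hw]; simp
      · simp
    simp_rw [h1]
    rw [Finset.sum_ite_eq', if_pos (Finset.mem_univ _)]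
    simp [ch]
  | succ r ih =>
    obtain ⟨g, hg0, hg⟩ := ih
    refine ⟨fun w => ∑ x ∈ B, g (w - x), fun w => Finset.sum_nonneg fun x _ => hg0 _, fun c => ?_⟩
    have h1 : ((β c ^ (r + 1) : ℝ) : ℂ) = ((β c ^ r : ℝ) : ℂ) * ((β c : ℝ) : ℂ) := by
      rw [pow_succ]; push_cast; ring
    rw [h1, hg c, hβ c, Finset.sum_mul_sum, Finset.sum_comm]
    push_cast
    simp_rw [Finset.sum_mul]
    rw [Finset.sum_comm (s := univ) (t := B)]
    refine Finset.sum_congr rfl fun x _ => ?_
    rw [← Equiv.sum_comp (Equiv.addRight x) (fun w => (g (w - x) : ℂ) * ch ψ c w)]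
    refine Finset.sum_congr rfl fun w _ => ?_
    simp only [Equiv.coe_addRight, add_sub_cancel_right]
    rw [ch_add_right]
    ring

/-- MOD: moments are nonnegative. -/
theorem moment_nonneg (hψ : ψ ≠ 0) (B : Finset (Module.Dual F V))
    (β : V → ℝ) (hβ : ∀ c, ((β c : ℝ) : ℂ) = ∑ x ∈ B, ch ψ c x) (r : ℕ) :
    0 ≤ ∑ c, β c ^ r := by
  classical
  obtain ⟨g, hg0, hg⟩ := mod_pow B β hβ r
  have h2 : ((∑ c, β c ^ r : ℝ) : ℂ) = (((Fintype.card V : ℝ) * g 0 : ℝ) : ℂ) := by
    rw [Complex.ofReal_sum]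
    simp_rw [hg]
    rw [Finset.sum_comm]
    have h3 : ∀ w : Module.Dual F V, ∑ c : V, (g w : ℂ) * ch ψ c w =
        if w = 0 then (Fintype.card V : ℂ) * g 0 else 0 := by
      intro w
      rw [← Finset.mul_sum]
      have h4 := Rep.delta (F := F) (V := V) hψ w
      have h5 : (Fintype.card V : ℂ) ≠ 0 := by
        have := (Fintype.card_pos : 0 < Fintype.card V)
        exact_mod_cast this.ne'
      rw [← Finset.mul_sum] at h4
      have h6 : ∑ c : V, ch ψ c w = (Fintype.card V : ℂ) * (((if w = 0 then 1 else 0 : ℝ)) : ℂ) := by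
        rw [h4]
        push_cast
        rw [← mul_assoc, mul_one_div_cancel h5, one_mul]
      rw [h6]
      split_ifs with hw
      · rw [hw]; push_cast; ring
      · simp
    simp_rw [h3]
    rw [Finset.sum_ite_eq', if_pos (Finset.mem_univ _)]
    push_cast
    ring
  have h7 := Complex.ofReal_injective h2
  rw [h7]
  exact mul_nonneg (Nat.cast_nonneg _) (hg0 0)

end Pool.Agent.OSD
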