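import Mathlib

open Finset Module

namespace Pool.Agent.OSD

private theorem mup_point (j x : ℝ) (hj : 0 ≤ j) (hx : x ≤ j) (r : ℕ) :
    (2 * j + 4) * x ^ (2 * r) ≤ (4 * (j + 1)) ^ (2 * r + 1) - x ^ (2 * r + 1) := by
  have hl : 0 < 4 * (j + 1) := by linarith
  have hev : x ^ (2 * r) = |x| ^ (2 * r) := by
    rw [pow_mul, pow_mul, sq_abs]
  have hx0 : 0 ≤ x ^ (2 * r) := by rw [hev]; positivity
  -- step 1
  have h1 : 4 * (j + 1) * x ^ (2 * r) ≤ (4 * (j + 1)) ^ (2 * r + 1) + |x| ^ (2 * r + 1) := by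
    rcases le_total |x| (4 * (j + 1)) with h | h
    · have h2 : |x| ^ (2 * r) ≤ (4 * (j + 1)) ^ (2 * r) := pow_le_pow_left₀ (abs_nonneg x) h _
      have h3 : 0 ≤ |x| ^ (2 * r + 1) := by positivity
      rw [hev, pow_succ' (4 * (j + 1))]
      have := mul_le_mul_of_nonneg_left h2 hl.le
      linarith
    · have h3 : 0 ≤ (4 * (j + 1)) ^ (2 * r + 1) := by positivity
      rw [hev, pow_succ' |x|]
      have h4 : 0 ≤ |x| ^ (2 * r) := by positivity
      have := mul_le_mul_of_nonneg_right h h4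
      linarith
  -- step 2
  have h2 : |x| ^ (2 * r + 1) ≤ 2 * j * x ^ (2 * r) - x ^ (2 * r + 1) := by
    rcases le_total 0 x with h | h
    · rw [abs_of_nonneg h, pow_succ']
      have := mul_le_mul_of_nonneg_right hx hx0
      linarith
    · rw [pow_succ' |x|, ← hev, abs_of_nonpos h, pow_succ']
      have : 0 ≤ j * x ^ (2 * r) := mul_nonneg hj hx0
      linarith
  linarith

open Classical in
/-- MUP: upper bound for even moments from a one-sided bound. -/
theorem moment_upper {ι : Type} [Fintype ι] (o : ι) (β : ι → ℝ) (b j : ℝ) (hj : 0 ≤ j)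
    (hb0 : 0 ≤ b) (hb : β o = b) (hle : ∀ c, c ≠ o → β c ≤ j) (r : ℕ)
    (hodd : 0 ≤ ∑ c, β c ^ (2 * r + 1)) (hbig : b ^ (2 * r + 1) ≤ Fintype.card ι) :
    ∑ c, (if c = o then 0 else β c ^ (2 * r)) ≤
      3 * Fintype.card ι * (4 * (j + 1)) ^ (2 * r) := by
  have hl : 1 ≤ 4 * (j + 1) := by linarith
  have hL : 1 ≤ (4 * (j + 1)) ^ (2 * r) := one_le_pow₀ hl
  set L : ℝ := (4 * (j + 1)) ^ (2 * r) with hLdef
  have hLs : (4 * (j + 1)) ^ (2 * r + 1) = 4 * (j + 1) * L := by rw [pow_succ']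
  set S : ℝ := ∑ c, (if c = o then 0 else β c ^ (2 * r)) with hS
  have hcard : (0 : ℝ) ≤ Fintype.card ι := Nat.cast_nonneg _
  have h1 : (2 * j + 4) * S ≤ ∑ c, ((4 * (j + 1) * L) - (if c = o then 0 else β c ^ (2 * r + 1))) := by
    rw [hS, Finset.mul_sum]
    refine Finset.sum_le_sum fun c _ => ?_
    by_cases hc : c = o
    · rw [if_pos hc, if_pos hc, mul_zero, sub_zero]
      have : 0 ≤ j + 1 := by linarith
      positivity
    · rw [if_neg hc, if_neg hc, ← hLs]
      exact mup_point j (β c) hj (hle c hc) r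
  have h2 : ∑ c, (if c = o then 0 else β c ^ (2 * r + 1)) = ∑ c, β c ^ (2 * r + 1) - b ^ (2 * r + 1) := by
    have h3 : ∀ c, (if c = o then 0 else β c ^ (2 * r + 1)) =
        β c ^ (2 * r + 1) - (if c = o then b ^ (2 * r + 1) else 0) := by
      intro c
      by_cases hc : c = o
      · rw [if_pos hc, if_pos hc, hc, hb, sub_self]
      · rw [if_neg hc, if_neg hc, sub_zero]
    rw [Finset.sum_congr rfl fun c _ => h3 c, Finset.sum_sub_distrib, Finset.sum_ite_eq']
    simp
  rw [Finset.sum_sub_distrib, Finset.sum_const, Finset.card_univ, nsmul_eq_mul, h2] at h1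
  have h3 : (2 * j + 4) * S ≤ Fintype.card ι * (4 * (j + 1) * L) + Fintype.card ι := by linarith
  have h4 : (Fintype.card ι : ℝ) * (4 * (j + 1) * L) + Fintype.card ι ≤
      (2 * j + 4) * (3 * Fintype.card ι * L) := by
    have h5 : (Fintype.card ι : ℝ) * 1 ≤ Fintype.card ι * L := mul_le_mul_of_nonneg_left hL hcard
    have h6 : 0 ≤ j * (Fintype.card ι * L) := by positivity
    nlinarith
  have h5 : 0 < 2 * j + 4 := by linarith
  exact le_of_mul_le_mul_left (h3.trans h4) h5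

end Pool.Agent.OSD
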