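import Mathlib

open Finset Module

namespace Pool.Agent.OSD

/-- NUF: factorials. -/
theorem fac_lower (r b : ℕ) (h : 2 * r ≤ b) :
    ((r : ℝ) * b / 6) ^ r ≤ (r.factorial * b.descFactorial r : ℕ) := by
  have hr0 : (0 : ℝ) ≤ r := Nat.cast_nonneg r
  have hb0 : (0 : ℝ) ≤ b := Nat.cast_nonneg b
  have hf : (0 : ℝ) < (r.factorial : ℝ) := by exact_mod_cast Nat.factorial_pos r
  have h1 : ((r : ℝ) / 3) ^ r ≤ (r.factorial : ℝ) := by
    have h2 := Real.pow_div_factorial_le_exp (r : ℝ) hr0 r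
    have h3 : Real.exp (r : ℝ) ≤ 3 ^ r := by
      have h4 : Real.exp (r : ℝ) = Real.exp 1 ^ r := by
        rw [← Real.exp_nat_mul, mul_one]
      rw [h4]
      exact pow_le_pow_left₀ (Real.exp_pos 1).le (by linarith [Real.exp_one_lt_d9]) r
    have h5 := h2.trans h3
    rw [div_le_iff₀ hf] at h5
    rw [div_pow, div_le_iff₀ (by positivity)]
    linarith
  have h6 : ((b : ℝ) / 2) ^ r ≤ (b.descFactorial r : ℝ) := by
    have h7 : ((b + 1 - r) ^ r : ℕ) ≤ b.descFactorial r := Nat.pow_sub_le_descFactorial b r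
    have h8 : ((b : ℝ) / 2) ≤ ((b + 1 - r : ℕ) : ℝ) := by
      have h9 : b ≤ 2 * (b + 1 - r) := by omega
      have h10 : (b : ℝ) ≤ 2 * ((b + 1 - r : ℕ) : ℝ) := by exact_mod_cast h9
      linarith
    calc ((b : ℝ) / 2) ^ r ≤ ((b + 1 - r : ℕ) : ℝ) ^ r := pow_le_pow_left₀ (by positivity) h8 r
      _ ≤ (b.descFactorial r : ℝ) := by exact_mod_cast h7
  calc ((r : ℝ) * b / 6) ^ r = ((r : ℝ) / 3) ^ r * ((b : ℝ) / 2) ^ r := by
        rw [← mul_pow]
        congr 1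
        ring
    _ ≤ (r.factorial : ℝ) * (b.descFactorial r : ℝ) :=
        mul_le_mul h1 h6 (by positivity) hf.le
    _ = _ := by push_cast; ring

end Pool.Agent.OSD
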