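import Pool.Agent.OSD.Mlo
import Pool.Agent.OSD.Mod
import Pool.Agent.OSD.Mup
import Pool.Agent.OSD.Nuf

open Finset Module

namespace Pool.Agent.OSD

open Pool.Agent.GapCodes Pool.Agent.LLog

attribute [local instance] fintypeDual

variable {F : Type} [Field F] [Fintype F] {V : Type} [AddCommGroup V] [Module F V] [Fintype V]
variable {ψ : AddChar F ℂ} {j : ℕ} {P : V → ℝ} {f : Module.Dual F V → ℝ}

private theorem bpr_coef (hψ : ψ ≠ 0) {f : Module.Dual F V → ℝ} {P : V → ℝ}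
    (h : Pool.Agent.LLog.Rep ψ P f) (c : V) :
    ∑ x, ((f x : ℝ) : ℂ) * ch ψ (-c) x = (Fintype.card V : ℂ) * P c := by
  classical
  simp_rw [h _, Finset.sum_mul]
  rw [Finset.sum_comm]
  have h1 : ∀ c' : V, ∑ x : Module.Dual F V, (P c' : ℂ) * ch ψ c' x * ch ψ (-c) x =
      if c' = c then (Fintype.card V : ℂ) * P c else 0 := by
    intro c'
    simp_rw [mul_assoc, ← ch_add]
    rw [← Finset.mul_sum, sum_ch ψ hψ]
    by_cases hc : c' = c
    · subst hc; simp [mul_comm]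
    · rw [if_neg, if_neg hc, mul_zero]
      intro h0
      apply hc
      rwa [← sub_eq_add_neg, sub_eq_zero] at h0
  simp_rw [h1]
  simp

private theorem bpr_num (M b J : ℝ) (r : ℕ) (hr : 1 ≤ r) (hb : 1 ≤ b) (hM : 0 < M) (hJ : 0 ≤ J)
    (hbig : 2 * (4 * b) ^ (2 * r + 1) ≤ M)
    (hkey : M * ((r : ℝ) * b / 6) ^ r ≤ b ^ (2 * r) + 3 * M * (4 * J) ^ (2 * r)) :
    (r : ℝ) * b ≤ 576 * J ^ 2 := by
  have hr0 : (1 : ℝ) ≤ r := by exact_mod_cast hr
  have h1 : b ^ (2 * r) = (6 * b / r) ^ r * ((r : ℝ) * b / 6) ^ r := by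
    rw [← mul_pow, pow_mul]
    congr 1
    field_simp
  have h2 : 2 * (6 * b / r) ^ r ≤ M := by
    refine le_trans ?_ hbig
    have h3 : 6 * b / r ≤ (4 * b) ^ 2 := by
      rw [div_le_iff₀ (by linarith)]
      nlinarith
    have h4 : (6 * b / r) ^ r ≤ (4 * b) ^ (2 * r) := by
      rw [pow_mul]
      exact pow_le_pow_left₀ (by positivity) h3 r
    have h5 : (4 * b) ^ (2 * r) ≤ (4 * b) ^ (2 * r + 1) :=
      pow_le_pow_right₀ (by linarith) (by omega)
    linarith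
  have h6 : 0 ≤ ((r : ℝ) * b / 6) ^ r := by positivity
  have h7 : 2 * b ^ (2 * r) ≤ M * ((r : ℝ) * b / 6) ^ r := by
    rw [h1, ← mul_assoc]
    exact mul_le_mul_of_nonneg_right h2 h6
  have h8 : M * ((r : ℝ) * b / 6) ^ r ≤ M * (6 * (4 * J) ^ (2 * r)) := by
    nlinarith
  have h9 := le_of_mul_le_mul_left h8 hM
  have h10 : 6 * (4 * J) ^ (2 * r) ≤ (96 * J ^ 2) ^ r := by
    have h11 : (96 * J ^ 2) ^ r = 6 ^ r * (4 * J) ^ (2 * r) := by
      rw [pow_mul, ← mul_pow]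
      congr 1
      ring
    rw [h11]
    apply mul_le_mul_of_nonneg_right _ (by positivity)
    calc (6 : ℝ) = 6 ^ 1 := (pow_one _).symm
      _ ≤ 6 ^ r := pow_le_pow_right₀ (by norm_num) hr
  have h12 := h9.trans h10
  have h13 : (r : ℝ) * b / 6 ≤ 96 * J ^ 2 :=
    le_of_pow_le_pow_left₀ (by omega) (by positivity) h12
  linarith

open Classical in
/-- BPR: the part inside the subspace (uses MLO, MOD, MUP, NUF). -/
theorem cone_inside (hψ : ψ ≠ 0) (h : Cone ψ j P f) (b r : ℕ)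
    (hb : b = #(univ.filter (fun x : Module.Dual F V => f x = 0))) (hr : 1 ≤ r)
    (hbig : ((b : ℝ)) ^ (2 * r + 1) ≤ Fintype.card V) :
    ∑ c, (if c = 0 then 0 else ((Fintype.card V : ℝ) * P c) ^ (2 * r)) ≤
      3 * Fintype.card V * (4 * ((j : ℝ) + 1)) ^ (2 * r) ∧
    (2 * r ≤ b → 2 * (4 * (b : ℝ)) ^ (2 * r + 1) ≤ Fintype.card V →
      (r : ℝ) * b ≤ 576 * ((j : ℝ) + 1) ^ 2) := by
  have hg := (Rep.const (F := F) (V := V) ψ 1).sub h.rep
  have hM0 : (0 : ℝ) < Fintype.card V := card_pos' V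
  obtain ⟨B, hB⟩ : ∃ B : Finset (Module.Dual F V), B = univ.filter (fun x => f x = 0) := ⟨_, rfl⟩
  have hbB : b = #B := by rw [hb, hB]
  obtain ⟨β, hβ⟩ : ∃ β : V → ℝ, β = fun c => (Fintype.card V : ℝ) *
    ((if c = 0 then 1 else 0) - P c) := ⟨_, rfl⟩
  have hβB : ∀ c, ((β c : ℝ) : ℂ) = ∑ x ∈ B, ch ψ c x := by
    intro c
    have h1 := bpr_coef hψ hg (-c)
    rw [neg_neg, hg.even hψ c] at h1
    rw [hβ]
    push_cast at h1 ⊢
    rw [← h1, hB, Finset.sum_filter]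
    refine Finset.sum_congr rfl (fun x _ => ?_)
    rcases h.ind x with h2 | h2
    · rw [h2, if_pos rfl]
      simp
    · rw [h2, if_neg one_ne_zero]
      simp
  have hBneg : ∀ x ∈ B, -x ∈ B := by
    intro x hx
    rw [hB, Finset.mem_filter] at hx ⊢
    refine ⟨Finset.mem_univ _, ?_⟩
    have h1 := h.inv (-1) (neg_ne_zero.mpr one_ne_zero) x
    have h3 : ((-1 : F) • x) = -x := LinearMap.ext fun v => by simp
    rw [h3] at h1
    rw [h1]
    exact hx.2
  have hβ0 : β 0 = b := by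
    have h1 := hβB 0
    have h2 : ∑ x ∈ B, ch ψ (0 : V) x = ((#B : ℕ) : ℂ) := by
      simp [ch_zero]
    rw [h2] at h1
    have h3 : β 0 = (#B : ℝ) := by exact_mod_cast h1
    rw [h3, hbB]
  have hβc : ∀ c, c ≠ 0 → β c = -((Fintype.card V : ℝ) * P c) := by
    intro c hc
    rw [hβ]
    simp only [hc, if_false]
    ring
  have hle : ∀ c, c ≠ 0 → β c ≤ j := by
    intro c hc
    have h1 := h.low c
    rw [hβc c hc]
    linarith
  have hup := moment_upper (0 : V) β b j (Nat.cast_nonneg j) (Nat.cast_nonneg b) hβ0 hle r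
    (moment_nonneg hψ B β hβB (2 * r + 1)) hbig
  have heq : ∑ c, (if c = 0 then 0 else ((Fintype.card V : ℝ) * P c) ^ (2 * r)) =
      ∑ c, (if c = 0 then 0 else β c ^ (2 * r)) := by
    refine Finset.sum_congr rfl (fun c _ => ?_)
    by_cases hc : c = 0
    · rw [if_pos hc, if_pos hc]
    · rw [if_neg hc, if_neg hc, hβc c hc, Even.neg_pow (even_two_mul r)]
  refine ⟨by rw [heq]; exact hup, ?_⟩
  intro hrb hbig2
  have h1 := moment_lower hψ B hBneg β hβB r
  rw [← hbB] at h1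
  have h2 := fac_lower r b hrb
  have h3 : ∑ c, β c ^ (2 * r) = (b : ℝ) ^ (2 * r) +
      ∑ c, (if c = 0 then 0 else β c ^ (2 * r)) := by
    have h4 : ∀ c, β c ^ (2 * r) = (if c = 0 then (b : ℝ) ^ (2 * r) else 0) +
        (if c = 0 then 0 else β c ^ (2 * r)) := by
      intro c
      by_cases hc : c = 0
      · rw [if_pos hc, if_pos hc, hc, hβ0, add_zero]
      · rw [if_neg hc, if_neg hc, zero_add]
    rw [Finset.sum_congr rfl (fun c _ => h4 c), Finset.sum_add_distrib]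
    congr 1
    rw [Finset.sum_ite_eq' univ (0 : V) (fun _ => (b : ℝ) ^ (2 * r)), if_pos (Finset.mem_univ _)]
  have hb1 : (1 : ℝ) ≤ b := by
    have : 1 ≤ b := by omega
    exact_mod_cast this
  refine bpr_num (Fintype.card V) b ((j : ℝ) + 1) r hr hb1 hM0 (by positivity) hbig2 ?_
  have h5 : (Fintype.card V : ℝ) * ((r : ℝ) * b / 6) ^ r ≤
      (Fintype.card V : ℝ) * (r.factorial * b.descFactorial r : ℕ) :=
    mul_le_mul_of_nonneg_left h2 hM0.le
  linarith

end Pool.Agent.OSD
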