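import Pool.Agent.OSD.Defs

open Finset Module

namespace Pool.Agent.OSD

open Pool.Agent.GapCodes Pool.Agent.LLog

attribute [local instance] fintypeDual

variable {F : Type} [Field F] [Fintype F] {V : Type} [AddCommGroup V] [Module F V] [Fintype V]
variable {ψ : AddChar F ℂ} {j : ℕ} {P : V → ℝ} {f : Module.Dual F V → ℝ}

private theorem mlo_sum_left (hψ : ψ ≠ 0) [DecidableEq (Module.Dual F V)] (x : Module.Dual F V) :
    ∑ c : V, ch ψ c x = if x = 0 then (Fintype.card V : ℂ) else 0 := by
  have h1 := Rep.delta (V := V) hψ x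
  beta_reduce at h1
  have h2 : (Fintype.card V : ℂ) ≠ 0 := by
    have := (Fintype.card_pos : 0 < Fintype.card V)
    exact_mod_cast this.ne'
  rw [← Finset.mul_sum] at h1
  by_cases hx : x = 0
  · rw [if_pos hx]
    rw [if_pos hx] at h1
    have h3 : (1 : ℂ) = (1 / (Fintype.card V : ℂ)) * ∑ c : V, ch ψ c x := by
      simpa using h1
    rw [one_div, eq_inv_mul_iff_mul_eq₀ h2, mul_one] at h3
    exact h3.symm
  · rw [if_neg hx]
    rw [if_neg hx, Complex.ofReal_zero] at h1
    refine (mul_eq_zero.1 h1.symm).resolve_left ?_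
    push_cast
    rw [one_div]
    exact inv_ne_zero h2

private theorem mlo_add (c : V) (x y : Module.Dual F V) :
    ch ψ c (x + y) = ch ψ c x * ch ψ c y := by
  unfold ch
  rw [LinearMap.add_apply, AddChar.map_add_eq_mul]

private theorem mlo_sum {r : ℕ} (c : V) (t : Fin r → Module.Dual F V) :
    ∏ i, ch ψ c (t i) = ch ψ c (∑ i, t i) := by
  have h : ∀ s : Finset (Fin r), ∏ i ∈ s, ch ψ c (t i) = ch ψ c (∑ i ∈ s, t i) := by
    classical
    intro s
    induction s using Finset.induction_on with
    | empty =>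
      rw [Finset.prod_empty, Finset.sum_empty]
      unfold ch
      rw [LinearMap.zero_apply, AddChar.map_zero_eq_one]
    | insert a s ha ih =>
      rw [Finset.prod_insert ha, Finset.sum_insert ha, ih, mlo_add]
  exact h Finset.univ

/-- lower bound for even moments -/
theorem moment_lower (hψ : ψ ≠ 0) (B : Finset (Module.Dual F V)) (hB : ∀ x ∈ B, -x ∈ B)
    (β : V → ℝ) (hβ : ∀ c, ((β c : ℝ) : ℂ) = ∑ x ∈ B, ch ψ c x) (r : ℕ) :
    (Fintype.card V : ℝ) * (r.factorial * (#B).descFactorial r : ℕ) ≤ ∑ c, β c ^ (2 * r) := by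
  classical
  have hM := card_pos' V
  have e1 : ∀ c, ((β c : ℝ) : ℂ) ^ r =
      ∑ t : Fin r → B, ch ψ c (∑ i, (t i : Module.Dual F V)) := by
    intro c
    rw [hβ c, ← Finset.sum_coe_sort, Fintype.sum_pow]
    exact Finset.sum_congr rfl fun t _ => mlo_sum c fun i => (t i : Module.Dual F V)
  have e2 : ∀ c, ((β c : ℝ) : ℂ) ^ r =
      ∑ t : Fin r → B, ch ψ c (-∑ i, (t i : Module.Dual F V)) := by
    intro c
    have h1 := congrArg (starRingEnd ℂ) (e1 c)
    rw [map_pow, Complex.conj_ofReal, map_sum] at h1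
    rw [h1]
    refine Finset.sum_congr rfl fun t _ => ?_
    rw [← ch_neg]
    unfold ch
    rw [map_neg, LinearMap.neg_apply]
  have e3 : ((∑ c, β c ^ (2 * r) : ℝ) : ℂ) = ((∑ t : Fin r → B, ∑ s : Fin r → B,
      (if ∑ i, (t i : Module.Dual F V) + -∑ i, (s i : Module.Dual F V) = 0 then
        (Fintype.card V : ℝ) else 0) : ℝ) : ℂ) := by
    push_cast
    calc ∑ c, ((β c : ℝ) : ℂ) ^ (2 * r)
        = ∑ c, ∑ t : Fin r → B, ∑ s : Fin r → B,
            ch ψ c (∑ i, (t i : Module.Dual F V) + -∑ i, (s i : Module.Dual F V)) := by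
          refine Finset.sum_congr rfl fun c _ => ?_
          rw [two_mul, pow_add]
          nth_rewrite 1 [e1 c]
          rw [e2 c, Finset.sum_mul_sum]
          refine Finset.sum_congr rfl fun t _ => Finset.sum_congr rfl fun s _ => ?_
          rw [mlo_add]
      _ = ∑ t : Fin r → B, ∑ s : Fin r → B, ∑ c : V,
            ch ψ c (∑ i, (t i : Module.Dual F V) + -∑ i, (s i : Module.Dual F V)) := by
          rw [Finset.sum_comm]
          exact Finset.sum_congr rfl fun t _ => Finset.sum_comm
      _ = _ := by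
          refine Finset.sum_congr rfl fun t _ => Finset.sum_congr rfl fun s _ => ?_
          rw [mlo_sum_left hψ]
          split_ifs <;> simp
  have e4 := Complex.ofReal_injective e3
  rw [e4, ← Fintype.sum_prod_type']
  let Φ : (Fin r ↪ B) × Equiv.Perm (Fin r) ↪ (Fin r → B) × (Fin r → B) :=
    ⟨fun x => (x.1, x.1 ∘ x.2), by
      rintro ⟨a, π⟩ ⟨b, σ⟩ h
      rw [Prod.mk.injEq] at h
      obtain ⟨h1, h2⟩ := h
      have h3 : a = b := DFunLike.coe_injective h1
      subst h3
      have h4 : π = σ := by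
        ext i
        have h5 := congrFun h2 i
        exact congrArg Fin.val (a.injective h5)
      rw [h4]⟩
  have e5 : ∑ x : (Fin r ↪ B) × Equiv.Perm (Fin r), (Fintype.card V : ℝ) ≤
      ∑ x : (Fin r → B) × (Fin r → B),
        (if ∑ i, (x.1 i : Module.Dual F V) + -∑ i, (x.2 i : Module.Dual F V) = 0 then
        (Fintype.card V : ℝ) else 0) := by
    calc ∑ x : (Fin r ↪ B) × Equiv.Perm (Fin r), (Fintype.card V : ℝ)
        = ∑ x : (Fin r ↪ B) × Equiv.Perm (Fin r),
          (fun x : (Fin r → B) × (Fin r → B) =>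
            (if ∑ i, (x.1 i : Module.Dual F V) + -∑ i, (x.2 i : Module.Dual F V) = 0 then
            (Fintype.card V : ℝ) else 0)) (Φ x) := by
          refine Finset.sum_congr rfl fun x _ => ?_
          have h6 : ∑ i, ((x.1 i : B) : Module.Dual F V) +
              -∑ i, ((x.1 (x.2 i) : B) : Module.Dual F V) = 0 := by
            rw [Equiv.sum_comp x.2 fun i => ((x.1 i : B) : Module.Dual F V), add_neg_cancel]
          exact (if_pos h6).symm
      _ = ∑ x ∈ Finset.univ.map Φ,
            (if ∑ i, (x.1 i : Module.Dual F V) + -∑ i, (x.2 i : Module.Dual F V) = 0 then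
            (Fintype.card V : ℝ) else 0) := by
          rw [Finset.sum_map]
      _ ≤ _ := by
          refine Finset.sum_le_sum_of_subset_of_nonneg (Finset.subset_univ _) fun x _ _ => ?_
          split_ifs
          · exact hM.le
          · exact le_rfl
  refine le_trans (le_of_eq ?_) e5
  rw [Finset.sum_const, Finset.card_univ, Fintype.card_prod, Fintype.card_embedding_eq,
    Fintype.card_perm, Fintype.card_fin, Fintype.card_coe, nsmul_eq_mul]
  push_cast
  ring

end Pool.Agent.OSD
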