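import Pool.Agent.OSD.Defs

open Finset Module

namespace Pool.Agent.OSD

open Pool.Agent.GapCodes Pool.Agent.LLog

attribute [local instance] fintypeDual

variable {F : Type} [Field F] [Fintype F] {V : Type} [AddCommGroup V] [Module F V] [Fintype V]
variable {ψ : AddChar F ℂ} {j : ℕ} {P : V → ℝ} {f : Module.Dual F V → ℝ}

open Classical in
private theorem quo_fib (H : Submodule F V) [Fintype (V ⧸ H)] (cb : V ⧸ H) :
    (Fintype.card (V ⧸ H) : ℝ) * ∑ c : V, (if H.mkQ c = cb then (1 : ℝ) else 0) =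
      Fintype.card V := by
  have h1 : ∀ cb : V ⧸ H, ∑ c : V, (if H.mkQ c = cb then (1 : ℝ) else 0) =
      ∑ c : V, (if H.mkQ c = 0 then (1 : ℝ) else 0) := by
    intro cb
    obtain ⟨c0, rfl⟩ := H.mkQ_surjective cb
    rw [← Equiv.sum_comp (Equiv.addLeft c0)]
    apply Finset.sum_congr rfl
    intro c _
    have h3 : (H.mkQ ((Equiv.addLeft c0) c) = H.mkQ c0) ↔ (H.mkQ c = 0) := by
      rw [Equiv.coe_addLeft, map_add]
      constructor
      · intro h
        exact left_eq_add.mp h.symm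
      · intro h
        rw [h, add_zero]
    by_cases h4 : H.mkQ c = 0
    · rw [if_pos h4, if_pos (h3.2 h4)]
    · rw [if_neg h4, if_neg (fun h5 => h4 (h3.1 h5))]
  have h2 : ∑ cb : V ⧸ H, ∑ c : V, (if H.mkQ c = cb then (1 : ℝ) else 0) = Fintype.card V := by
    rw [Finset.sum_comm]
    have h5 : ∀ c : V, ∑ cb : V ⧸ H, (if H.mkQ c = cb then (1 : ℝ) else 0) = 1 := by
      intro c
      rw [Finset.sum_eq_single (H.mkQ c)]
      · rw [if_pos rfl]
      · intro b _ hb
        rw [if_neg (Ne.symm hb)]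
      · intro h
        exact absurd (Finset.mem_univ _) h
    rw [Finset.sum_congr rfl (fun c _ => h5 c), Finset.sum_const, Finset.card_univ,
      nsmul_eq_mul, mul_one]
  rw [h1 cb, ← h2, Finset.sum_congr rfl (fun cb _ => h1 cb), Finset.sum_const, Finset.card_univ,
    nsmul_eq_mul]

/-- QUO -/
theorem cone_quot (h : Cone ψ j P f) (H : Submodule F V) [Fintype (V ⧸ H)] :
    Cone ψ j (aq P H) (fun x => f (x ∘ₗ H.mkQ)) := by
  classical
  refine ⟨?_, ?_, ?_, ?_, ?_⟩
  · intro x
    have h0 := h.rep (x ∘ₗ H.mkQ)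
    refine Eq.trans h0 ?_
    have h1 : ∀ c : V, ch ψ c (x ∘ₗ H.mkQ) = ch ψ (H.mkQ c) x := fun c => rfl
    simp_rw [h1]
    unfold aq
    push_cast
    simp_rw [Finset.sum_mul]
    conv_rhs => rw [Finset.sum_comm]
    apply Finset.sum_congr rfl
    intro c _
    rw [Finset.sum_eq_single (H.mkQ c)]
    · simp
    · intro b _ hb
      rw [if_neg (Ne.symm hb)]
      simp
    · simp
  · intro cb
    have hM : (0 : ℝ) < Fintype.card V := card_pos' V
    have hM' : (0 : ℝ) < Fintype.card (V ⧸ H) := card_pos' (V ⧸ H)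
    have h1 := quo_fib H cb
    have h2 : -((j : ℝ) / Fintype.card V) * ∑ c : V, (if H.mkQ c = cb then (1 : ℝ) else 0) ≤
        aq P H cb := by
      unfold aq
      rw [Finset.mul_sum]
      apply Finset.sum_le_sum
      intro c _
      by_cases hc : H.mkQ c = cb
      · rw [if_pos hc, if_pos hc, mul_one]
        have h3 := h.low c
        rw [← neg_div, div_le_iff₀ hM]
        linarith
      · rw [if_neg hc, if_neg hc, mul_zero]
    have h4 := mul_le_mul_of_nonneg_left h2 hM'.le
    have h5 : (Fintype.card (V ⧸ H) : ℝ) * (-((j : ℝ) / Fintype.card V) *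
        ∑ c : V, (if H.mkQ c = cb then (1 : ℝ) else 0)) = -j := by
      calc (Fintype.card (V ⧸ H) : ℝ) * (-((j : ℝ) / Fintype.card V) *
            ∑ c : V, (if H.mkQ c = cb then (1 : ℝ) else 0))
          = -((j : ℝ) / Fintype.card V) * ((Fintype.card (V ⧸ H) : ℝ) *
            ∑ c : V, (if H.mkQ c = cb then (1 : ℝ) else 0)) := by ring
        _ = -((j : ℝ) / Fintype.card V) * Fintype.card V := by rw [h1]
        _ = -j := by field_simp
    rw [h5] at h4
    linarith
  · intro x
    exact h.ind _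
  · show f ((0 : Module.Dual F (V ⧸ H)) ∘ₗ H.mkQ) = 1
    rw [LinearMap.zero_comp]
    exact h.one
  · intro a ha x
    show f ((a • x) ∘ₗ H.mkQ) = f (x ∘ₗ H.mkQ)
    rw [LinearMap.smul_comp]
    exact h.inv a ha _

end Pool.Agent.OSD
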