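import Pool.Agent.OSD.Defs
import Pool.Agent.OSD.Quo
import Pool.Agent.OSD.Anr
import Pool.Agent.OSD.Mlo
import Pool.Agent.OSD.Nuf
import Pool.Agent.OSD.Bpr

open Finset Module

namespace Pool.Agent.OSD

open Pool.Agent.GapCodes Pool.Agent.LLog

attribute [local instance] fintypeDual

variable {F : Type} [Field F] [Fintype F] {V : Type} [AddCommGroup V] [Module F V] [Fintype V]
variable {ψ : AddChar F ℂ} {j : ℕ} {P : V → ℝ} {f : Module.Dual F V → ℝ}

private theorem apr_coef (hψ : ψ ≠ 0) (h : Pool.Agent.LLog.Rep ψ P f) (c : V) :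
    ∑ x, ((f x : ℝ) : ℂ) * ch ψ (-c) x = (Fintype.card V : ℂ) * P c := by
  classical
  simp_rw [h _, Finset.sum_mul]
  rw [Finset.sum_comm]
  have h1 : ∀ c' : V, ∑ x : Module.Dual F V, (P c' : ℂ) * ch ψ c' x * ch ψ (-c) x =
      if c' = c then (Fintype.card V : ℂ) * P c else 0 := by
    intro c'
    simp_rw [mul_assoc, ← ch_add]
    rw [← Finset.mul_sum, sum_ch ψ hψ]
    by_cases hc : c' = c
    · subst hc; simp [mul_comm]
    · rw [if_neg, if_neg hc, mul_zero]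
      intro h0
      apply hc
      rwa [← sub_eq_add_neg, sub_eq_zero] at h0
  simp_rw [h1]
  simp

open Classical in
private theorem apr_fib_card (H : Submodule F V) [Fintype H] [Fintype (V ⧸ H)] (cb : V ⧸ H) :
    ∑ c : V, (if H.mkQ c = cb then (1 : ℝ) else 0) = Fintype.card H := by
  have h1 : ∀ cb : V ⧸ H, ∑ c : V, (if H.mkQ c = cb then (1 : ℝ) else 0) =
      ∑ c : V, (if H.mkQ c = 0 then (1 : ℝ) else 0) := by
    intro cb
    obtain ⟨c0, rfl⟩ := H.mkQ_surjective cb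
    rw [← Equiv.sum_comp (Equiv.addLeft c0)]
    apply Finset.sum_congr rfl
    intro c _
    have h3 : (H.mkQ ((Equiv.addLeft c0) c) = H.mkQ c0) ↔ (H.mkQ c = 0) := by
      rw [Equiv.coe_addLeft, map_add]
      constructor
      · intro h
        exact left_eq_add.mp h.symm
      · intro h
        rw [h, add_zero]
    by_cases h4 : H.mkQ c = 0
    · rw [if_pos h4, if_pos (h3.2 h4)]
    · rw [if_neg h4, if_neg (fun h5 => h4 (h3.1 h5))]
  have h2 : ∑ cb : V ⧸ H, ∑ c : V, (if H.mkQ c = cb then (1 : ℝ) else 0) = Fintype.card V := by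
    rw [Finset.sum_comm]
    have h5 : ∀ c : V, ∑ cb : V ⧸ H, (if H.mkQ c = cb then (1 : ℝ) else 0) = 1 := by
      intro c
      rw [Finset.sum_eq_single (H.mkQ c)]
      · rw [if_pos rfl]
      · intro b _ hb
        rw [if_neg (Ne.symm hb)]
      · intro h
        exact absurd (Finset.mem_univ _) h
    rw [Finset.sum_congr rfl (fun c _ => h5 c), Finset.sum_const, Finset.card_univ,
      nsmul_eq_mul, mul_one]
  rw [Finset.sum_congr rfl (fun cb _ => h1 cb), Finset.sum_const, Finset.card_univ,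
    nsmul_eq_mul, card_quot H, mul_comm] at h2
  rw [h1 cb]
  have hM' : (0 : ℝ) < Fintype.card (V ⧸ H) := card_pos' (V ⧸ H)
  exact mul_right_cancel₀ hM'.ne' h2

/-- sums of functions on the quotient -/
private theorem apr_sum (H : Submodule F V) [Fintype H] [Fintype (V ⧸ H)] (G : V ⧸ H → ℝ) :
    ∑ c : V, G (H.mkQ c) = Fintype.card H * ∑ cb, G cb := by
  classical
  have h1 : ∑ c : V, G (H.mkQ c) =
      ∑ cb : V ⧸ H, ∑ c : V, G cb * (if H.mkQ c = cb then (1 : ℝ) else 0) := by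
    rw [Finset.sum_comm]
    refine Finset.sum_congr rfl fun c _ => ?_
    rw [Finset.sum_eq_single (H.mkQ c)]
    · rw [if_pos rfl, mul_one]
    · intro b _ hb
      rw [if_neg (Ne.symm hb), mul_zero]
    · intro h
      exact absurd (Finset.mem_univ _) h
  rw [h1, Finset.mul_sum]
  refine Finset.sum_congr rfl fun cb _ => ?_
  rw [← Finset.mul_sum, mul_comm]
  congr 1
  convert apr_fib_card H cb

open Classical in
/-- restriction of a cone to the complement of a subspace -/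
private theorem apr_rep (hψ : ψ ≠ 0) (h : Pool.Agent.LLog.Rep ψ P f) (K : Submodule F V)
    [Fintype K] [Fintype (V ⧸ K)] :
    Pool.Agent.LLog.Rep ψ (fun c => P c - aq P K (K.mkQ c) / (Fintype.card K : ℝ))
      (fun x => f x - f x * (if ∀ c ∈ K, x c = 0 then 1 else 0)) := by
  intro x
  have hS : (((if ∀ c ∈ K, x c = 0 then (1 : ℝ) else 0 : ℝ)) : ℂ) =
      ∑ c : V, (((if c ∈ K then 1 / (Fintype.card K : ℝ) else 0 : ℝ)) : ℂ) * ch ψ c x :=
    ann_rep hψ K x
  have hf := h x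
  have hK : (Fintype.card K : ℂ) ≠ 0 := by
    have := (Fintype.card_pos : 0 < Fintype.card K)
    exact_mod_cast this.ne'
  have hS' : (Fintype.card K : ℂ) * (((if ∀ c ∈ K, x c = 0 then (1 : ℝ) else 0 : ℝ)) : ℂ) =
      ∑ c : V, (if c ∈ K then ch ψ c x else 0) := by
    rw [hS, Finset.mul_sum]
    refine Finset.sum_congr rfl fun c _ => ?_
    by_cases hc : c ∈ K
    · rw [if_pos hc, if_pos hc]
      push_cast
      field_simp
    · rw [if_neg hc, if_neg hc]
      simp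
  have h1 : ∑ c : V, ((aq P K (K.mkQ c) : ℝ) : ℂ) * ch ψ c x =
      ((f x : ℝ) : ℂ) * ∑ c : V, (if c ∈ K then ch ψ c x else 0) := by
    have h2 : ∀ c : V, ((aq P K (K.mkQ c) : ℝ) : ℂ) * ch ψ c x =
        ∑ c' : V, (P c' : ℂ) * (if K.mkQ c' = K.mkQ c then ch ψ c x else 0) := by
      intro c
      unfold aq
      push_cast
      rw [Finset.sum_mul]
      refine Finset.sum_congr rfl fun c' _ => ?_
      by_cases hc : K.mkQ c' = K.mkQ c
      · rw [if_pos hc, if_pos hc]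
      · rw [if_neg hc, if_neg hc]
        simp
    rw [Finset.sum_congr rfl (fun c _ => h2 c), Finset.sum_comm, hf, Finset.sum_mul]
    refine Finset.sum_congr rfl fun c' _ => ?_
    rw [← Finset.mul_sum, mul_assoc]
    congr 1
    rw [← Equiv.sum_comp (Equiv.addLeft c'), Finset.mul_sum]
    refine Finset.sum_congr rfl fun c _ => ?_
    have h3 : (K.mkQ c' = K.mkQ ((Equiv.addLeft c') c)) ↔ c ∈ K := by
      rw [Equiv.coe_addLeft, map_add, left_eq_add, Submodule.mkQ_apply,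
        Submodule.Quotient.mk_eq_zero]
    by_cases hc : c ∈ K
    · rw [if_pos hc, if_pos (h3.2 hc), Equiv.coe_addLeft, ch_add]
    · rw [if_neg hc, if_neg (fun h4 => hc (h3.1 h4)), mul_zero]
  have h4 : ∑ c : V, ((P c - aq P K (K.mkQ c) / (Fintype.card K : ℝ) : ℝ) : ℂ) * ch ψ c x =
      ((f x : ℝ) : ℂ) - (1 / (Fintype.card K : ℂ)) *
        ∑ c : V, ((aq P K (K.mkQ c) : ℝ) : ℂ) * ch ψ c x := by
    rw [hf, Finset.mul_sum, ← Finset.sum_sub_distrib]
    refine Finset.sum_congr rfl fun c _ => ?_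
    push_cast
    ring
  refine Eq.trans ?_ h4.symm
  rw [h1, ← hS']
  push_cast
  field_simp

open Classical in
private theorem apr_beta (hψ : ψ ≠ 0) (h : Cone ψ j P f) (K : Submodule F V)
    [Fintype K] [Fintype (V ⧸ K)] (c : V) :
    (((Fintype.card V : ℝ) * P c - (Fintype.card (V ⧸ K) : ℝ) * aq P K (K.mkQ c) : ℝ) : ℂ) =
      ∑ x ∈ univ.filter (fun x : Module.Dual F V => f x = 1 ∧ ¬ ∀ c ∈ K, x c = 0),
        ch ψ (-c) x := by
  have h1 := apr_coef hψ (apr_rep hψ h.rep K) c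
  have hK : (Fintype.card K : ℝ) ≠ 0 := by
    have := (Fintype.card_pos : 0 < Fintype.card K)
    exact_mod_cast this.ne'
  have h2 : (Fintype.card V : ℝ) * P c - (Fintype.card (V ⧸ K) : ℝ) * aq P K (K.mkQ c) =
      (Fintype.card V : ℝ) * (P c - aq P K (K.mkQ c) / (Fintype.card K : ℝ)) := by
    rw [card_quot K]
    field_simp
  rw [h2]
  push_cast at h1 ⊢
  rw [← h1, Finset.sum_filter]
  refine Finset.sum_congr rfl fun x _ => ?_
  rcases h.ind x with h0 | h0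
  · rw [h0, if_neg (show ¬ ((0 : ℝ) = 1 ∧ ¬ ∀ c ∈ K, x c = 0) from
      fun h3 => zero_ne_one h3.1)]
    simp
  · by_cases hx : ∀ c ∈ K, x c = 0
    · rw [h0, if_pos hx, if_neg (fun h3 => h3.2 hx)]
      simp
    · rw [h0, if_neg hx, if_pos ⟨rfl, hx⟩]
      simp

open Classical in
private theorem apr_fibre (h : Cone ψ j P f) (K : Submodule F V) [Fintype K]
    [Fintype (V ⧸ K)] (c : V) :
    (Fintype.card V : ℝ) * P c + j ≤
      (Fintype.card K : ℝ) * ((Fintype.card (V ⧸ K) : ℝ) * aq P K (K.mkQ c) + j) := by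
  have h6 : ∑ c' : V, (if K.mkQ c' = K.mkQ c then ((Fintype.card V : ℝ) * P c' + j) else 0) =
      (Fintype.card K : ℝ) * ((Fintype.card (V ⧸ K) : ℝ) * aq P K (K.mkQ c) + j) := by
    have h7 : ∑ c' : V, (if K.mkQ c' = K.mkQ c then ((Fintype.card V : ℝ) * P c' + j) else 0) =
        (Fintype.card V : ℝ) * aq P K (K.mkQ c) +
          j * ∑ c' : V, (if K.mkQ c' = K.mkQ c then (1 : ℝ) else 0) := by
      unfold aq
      rw [Finset.mul_sum, Finset.mul_sum, ← Finset.sum_add_distrib]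
      apply Finset.sum_congr rfl
      intro c' _
      by_cases hc : K.mkQ c' = K.mkQ c
      · rw [if_pos hc, if_pos hc, if_pos hc, mul_one]
      · rw [if_neg hc, if_neg hc, if_neg hc]
        simp
    rw [h7, apr_fib_card K (K.mkQ c), card_quot K]
    ring
  rw [← h6]
  have h8 := Finset.single_le_sum (s := (univ : Finset V))
    (f := fun c' : V => if K.mkQ c' = K.mkQ c then ((Fintype.card V : ℝ) * P c' + j) else 0)
    (fun c' _ => by
      show (0 : ℝ) ≤ if K.mkQ c' = K.mkQ c then ((Fintype.card V : ℝ) * P c' + j) else 0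
      split_ifs
      · exact h.low c'
      · exact le_rfl) (Finset.mem_univ c)
  have h9 : (if K.mkQ c = K.mkQ c then ((Fintype.card V : ℝ) * P c + j) else 0) =
      (Fintype.card V : ℝ) * P c + j := if_pos rfl
  rw [← h9]
  exact h8

/-- pointwise bound off the subspace -/
private theorem apr_pt (r : ℕ) (T m p j : ℝ) (hT : 1 ≤ T) (hj : 0 ≤ j) (h0 : 0 ≤ m + j)
    (h1 : m + j ≤ T * (p + j)) :
    (m - p) ^ (2 * r) ≤ (4 * T) ^ (2 * r) * (p ^ (2 * r) + (j + 1) ^ (2 * r)) := by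
  have hp : 0 ≤ |p| := abs_nonneg p
  have hpp : p ≤ |p| := le_abs_self p
  have hpn : -|p| ≤ p := neg_abs_le p
  have hTp : 0 ≤ (T - 1) * |p| := mul_nonneg (by linarith) hp
  have hTj : 0 ≤ (T - 1) * j := mul_nonneg (by linarith) hj
  have h2 : |m - p| ≤ 2 * T * (|p| + j) := by
    rw [abs_le]
    have h3 : T * (p + j) ≤ T * (|p| + j) := mul_le_mul_of_nonneg_left (by linarith) (by linarith)
    constructor
    · nlinarith
    · nlinarith
  obtain ⟨u, hu⟩ : ∃ u, u = max |p| (j + 1) := ⟨_, rfl⟩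
  have hu0 : 0 ≤ u := by rw [hu]; exact le_max_of_le_left hp
  have h4 : |m - p| ≤ 4 * T * u := by
    have h5 : |p| ≤ u := by rw [hu]; exact le_max_left _ _
    have h6 : j + 1 ≤ u := by rw [hu]; exact le_max_right _ _
    have h7 : 2 * T * (|p| + j) ≤ 2 * T * (u + u) :=
      mul_le_mul_of_nonneg_left (by linarith) (by linarith)
    linarith
  have h8 : (m - p) ^ (2 * r) = |m - p| ^ (2 * r) := by
    rw [pow_mul, pow_mul, sq_abs]
  have h9 : u ^ (2 * r) ≤ p ^ (2 * r) + (j + 1) ^ (2 * r) := by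
    have e1 : |p| ^ (2 * r) = p ^ (2 * r) := by rw [pow_mul, pow_mul, sq_abs]
    rcases le_total |p| (j + 1) with h | h
    · rw [hu, max_eq_right h]
      have : 0 ≤ p ^ (2 * r) := by rw [← e1]; positivity
      linarith
    · rw [hu, max_eq_left h, e1]
      have : 0 ≤ (j + 1) ^ (2 * r) := by positivity
      linarith
  rw [h8]
  calc |m - p| ^ (2 * r) ≤ (4 * T * u) ^ (2 * r) := pow_le_pow_left₀ (abs_nonneg _) h4 _
    _ = (4 * T) ^ (2 * r) * u ^ (2 * r) := mul_pow _ _ _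
    _ ≤ _ := mul_le_mul_of_nonneg_left h9 (by positivity)

/-- the final arithmetic -/
private theorem apr_num (r a : ℕ) (T N J S : ℝ) (hr : 1 ≤ r) (hra : 2 * r ≤ a) (hT : 1 ≤ T)
    (hJ : 1 ≤ J) (hN : 0 < N) (hS : S ≤ 3 * N * (4 * J) ^ (2 * r))
    (hbig : 2 * (4 * (a : ℝ)) ^ (2 * r + 1) ≤ N)
    (h : T * N * ((r : ℝ) * a / 6) ^ r ≤
      (4 * T) ^ (2 * r) * (T * S + T * N * J ^ (2 * r)) + T * (a : ℝ) ^ (2 * r)) :
    (r : ℝ) * a ≤ 12288 * T ^ 2 * J ^ 2 := by
  have hrR : (1 : ℝ) ≤ r := by exact_mod_cast hr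
  have haR : (2 : ℝ) ≤ a := by
    have : 2 ≤ a := by omega
    exact_mod_cast this
  have hT0 : 0 < T := by linarith
  have hx : (1 : ℝ) / 3 ≤ (r : ℝ) * a / 6 := by nlinarith
  have hx0 : 0 ≤ (r : ℝ) * a / 6 := by linarith
  have h1 : 2 * (a : ℝ) ^ (2 * r) ≤ N * ((r : ℝ) * a / 6) ^ r := by
    have h2 : ((1 : ℝ) / 3) ^ r ≤ ((r : ℝ) * a / 6) ^ r := pow_le_pow_left₀ (by norm_num) hx r
    have h3 : 2 * (a : ℝ) ^ (2 * r) * 16 ^ r ≤ N := by
      have e1 : (4 * (a : ℝ)) ^ (2 * r + 1) = (16 ^ r * (a : ℝ) ^ (2 * r)) * (4 * a) := by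
        rw [pow_succ, mul_pow, pow_mul (4 : ℝ)]
        norm_num
      have e2 : (16 : ℝ) ^ r * (a : ℝ) ^ (2 * r) * 1 ≤ (16 ^ r * (a : ℝ) ^ (2 * r)) * (4 * a) :=
        mul_le_mul_of_nonneg_left (by linarith) (by positivity)
      linarith
    have h4 : (1 : ℝ) ≤ 16 ^ r * (1 / 3) ^ r := by
      rw [← mul_pow]
      exact one_le_pow₀ (by norm_num)
    have h5 : 2 * (a : ℝ) ^ (2 * r) ≤ 2 * (a : ℝ) ^ (2 * r) * (16 ^ r * (1 / 3) ^ r) :=
      le_mul_of_one_le_right (by positivity) h4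
    calc 2 * (a : ℝ) ^ (2 * r) ≤ 2 * (a : ℝ) ^ (2 * r) * (16 ^ r * (1 / 3) ^ r) := h5
      _ = (2 * (a : ℝ) ^ (2 * r) * 16 ^ r) * (1 / 3) ^ r := by ring
      _ ≤ N * (1 / 3) ^ r := mul_le_mul_of_nonneg_right h3 (by positivity)
      _ ≤ N * ((r : ℝ) * a / 6) ^ r := mul_le_mul_of_nonneg_left h2 hN.le
  have h6 : (4 * T) ^ (2 * r) * (T * S + T * N * J ^ (2 * r)) ≤
      4 * (T * N) * (16 * T * J) ^ (2 * r) := by
    have e1 : (16 * T * J) ^ (2 * r) = (4 * T) ^ (2 * r) * (4 * J) ^ (2 * r) := by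
      rw [← mul_pow]
      congr 1
      ring
    have e2 : J ^ (2 * r) ≤ (4 * J) ^ (2 * r) := pow_le_pow_left₀ (by linarith) (by linarith) _
    have e3 : T * S + T * N * J ^ (2 * r) ≤ 4 * (T * N) * (4 * J) ^ (2 * r) := by
      have e4 := mul_le_mul_of_nonneg_left hS hT0.le
      have e5 := mul_le_mul_of_nonneg_left e2 (mul_pos hT0 hN).le
      nlinarith
    calc (4 * T) ^ (2 * r) * (T * S + T * N * J ^ (2 * r))
        ≤ (4 * T) ^ (2 * r) * (4 * (T * N) * (4 * J) ^ (2 * r)) :=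
          mul_le_mul_of_nonneg_left e3 (by positivity)
      _ = _ := by rw [e1]; ring
  have h7 : T * N * ((r : ℝ) * a / 6) ^ r ≤ T * N * (8 * (16 * T * J) ^ (2 * r)) := by
    have e1 := mul_le_mul_of_nonneg_left h1 hT0.le
    nlinarith
  have h8 : ((r : ℝ) * a / 6) ^ r ≤ 8 * (16 * T * J) ^ (2 * r) :=
    le_of_mul_le_mul_left h7 (mul_pos hT0 hN)
  have h9 : ((r : ℝ) * a / 6) ^ r ≤ (2048 * T ^ 2 * J ^ 2) ^ r := by
    refine h8.trans ?_
    have e1 : (8 : ℝ) ≤ 8 ^ r := le_self_pow₀ (by norm_num) (by omega)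
    have e2 : (2048 * T ^ 2 * J ^ 2) ^ r = 8 ^ r * (16 * T * J) ^ (2 * r) := by
      rw [pow_mul, ← mul_pow]
      congr 1
      ring
    rw [e2]
    exact mul_le_mul_of_nonneg_right e1 (by positivity)
  have h10 : (r : ℝ) * a / 6 ≤ 2048 * T ^ 2 * J ^ 2 :=
    le_of_pow_le_pow_left₀ (by omega) (by positivity) h9
  linarith

open Classical in
/-- APR: the part outside the subspace `W = K^perp` (uses MLO, NUF, BPR, QUO, CBD). -/
theorem cone_outside (hψ : ψ ≠ 0) (h : Cone ψ j P f) (K : Submodule F V) [Fintype K]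
    [Fintype (V ⧸ K)] (a b r : ℕ)
    (ha : a = #(univ.filter (fun x : Module.Dual F V => f x = 1 ∧ ¬ ∀ c ∈ K, x c = 0)))
    (hb : b = #(univ.filter (fun x : Module.Dual F V => f x = 0 ∧ ∀ c ∈ K, x c = 0)))
    (hr : 1 ≤ r) (hra : 2 * r ≤ a)
    (hbigb : ((b : ℝ)) ^ (2 * r + 1) ≤ Fintype.card (V ⧸ K))
    (hbiga : 2 * (4 * (a : ℝ)) ^ (2 * r + 1) ≤ Fintype.card (V ⧸ K)) :
    (r : ℝ) * a ≤ 12288 * (Fintype.card K : ℝ) ^ 2 * ((j : ℝ) + 1) ^ 2 := by
  obtain ⟨A, hA⟩ : ∃ A : Finset (Module.Dual F V),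
      A = univ.filter (fun x : Module.Dual F V => f x = 1 ∧ ¬ ∀ c ∈ K, x c = 0) := ⟨_, rfl⟩
  have hj : (0 : ℝ) ≤ j := Nat.cast_nonneg j
  have hT : (1 : ℝ) ≤ Fintype.card K := by
    exact_mod_cast (Fintype.card_pos : 0 < Fintype.card K)
  have hN : (0 : ℝ) < Fintype.card (V ⧸ K) := card_pos' (V ⧸ K)
  obtain ⟨γ, hγ⟩ : ∃ γ : V → ℝ, ∀ c, γ c =
      (Fintype.card V : ℝ) * P c - (Fintype.card (V ⧸ K) : ℝ) * aq P K (K.mkQ c) :=
    ⟨_, fun _ => rfl⟩
  have hγA : ∀ c, ((γ c : ℝ) : ℂ) = ∑ x ∈ A, ch ψ (-c) x := by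
    intro c
    rw [hγ, hA]
    exact apr_beta hψ h K c
  -- lower bound
  have hneg : ∀ x ∈ A, -x ∈ A := by
    intro x hx
    rw [hA, Finset.mem_filter] at hx ⊢
    refine ⟨Finset.mem_univ _, ?_, fun h1 => hx.2.2 fun c hc => ?_⟩
    · have h1 : f (-x) = f x := by
        have e : (-1 : F) • x = -x := LinearMap.ext fun c => by simp
        rw [← e]
        exact h.inv (-1) (neg_ne_zero.2 one_ne_zero) x
      rw [h1]
      exact hx.2.1
    · have h2 := h1 c hc
      rw [LinearMap.neg_apply, neg_eq_zero] at h2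
      exact h2
  have hlow := moment_lower hψ A hneg (fun c => γ (-c)) (fun c => by
    show ((γ (-c) : ℝ) : ℂ) = _
    rw [hγA, neg_neg]) r
  have hsumneg : ∑ c, γ (-c) ^ (2 * r) = ∑ c, γ c ^ (2 * r) :=
    Equiv.sum_comp (Equiv.neg V) (fun c => γ c ^ (2 * r))
  have haA : a = #A := by rw [hA]; exact ha
  have hlow2 : (Fintype.card V : ℝ) * ((r : ℝ) * a / 6) ^ r ≤ ∑ c, γ c ^ (2 * r) := by
    rw [← hsumneg]
    refine le_trans ?_ hlow
    rw [← haA]
    exact mul_le_mul_of_nonneg_left (fac_lower r a hra) (card_pos' V).le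
  -- the quotient
  have hb' : b = #(univ.filter (fun x : Module.Dual F (V ⧸ K) => f (x ∘ₗ K.mkQ) = 0)) := by
    rw [hb]
    symm
    refine Finset.card_bij (fun x _ => x ∘ₗ K.mkQ) ?_ ?_ ?_
    · intro x hx
      rw [Finset.mem_filter] at hx ⊢
      refine ⟨Finset.mem_univ _, hx.2, fun c hc => ?_⟩
      rw [LinearMap.comp_apply, Submodule.mkQ_apply, (Submodule.Quotient.mk_eq_zero K).2 hc,
        map_zero]
    · intro x _ y _ hxy
      refine LinearMap.ext fun cb => ?_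
      obtain ⟨c, rfl⟩ := K.mkQ_surjective cb
      exact LinearMap.congr_fun hxy c
    · intro x hx
      rw [Finset.mem_filter] at hx
      have hker : K ≤ LinearMap.ker x := fun c hc => LinearMap.mem_ker.2 (hx.2.2 c hc)
      have hcomp : K.liftQ x hker ∘ₗ K.mkQ = x := K.liftQ_mkQ x hker
      refine ⟨K.liftQ x hker, ?_, hcomp⟩
      rw [Finset.mem_filter]
      refine ⟨Finset.mem_univ _, ?_⟩
      exact (congrArg f hcomp).trans hx.2.1
  have hin := (cone_inside hψ (cone_quot h K) b r hb' hr hbigb).1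
  -- upper bound
  have hup : ∑ c, γ c ^ (2 * r) ≤ ∑ c, ((4 * (Fintype.card K : ℝ)) ^ (2 * r) *
      ((if K.mkQ c = 0 then 0 else
        ((Fintype.card (V ⧸ K) : ℝ) * aq P K (K.mkQ c)) ^ (2 * r)) + ((j : ℝ) + 1) ^ (2 * r)) +
        (if K.mkQ c = 0 then (a : ℝ) ^ (2 * r) else 0)) := by
    refine Finset.sum_le_sum fun c _ => ?_
    by_cases hc : K.mkQ c = 0
    · rw [if_pos hc, if_pos hc, zero_add]
      have h1 : |γ c| ≤ a := by
        have h2 : ‖((γ c : ℝ) : ℂ)‖ ≤ a := by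
          rw [hγA c]
          refine (norm_sum_le _ _).trans (le_of_eq ?_)
          rw [Finset.sum_congr rfl (fun x _ => norm_ch ψ (-c) x), Finset.sum_const, nsmul_eq_mul,
            mul_one, haA]
        rwa [Complex.norm_real, Real.norm_eq_abs] at h2
      have h3 : γ c ^ (2 * r) ≤ (a : ℝ) ^ (2 * r) := by
        have e1 : γ c ^ (2 * r) = |γ c| ^ (2 * r) := by rw [pow_mul, pow_mul, sq_abs]
        rw [e1]
        exact pow_le_pow_left₀ (abs_nonneg _) h1 _
      have h4 : (0 : ℝ) ≤ (4 * (Fintype.card K : ℝ)) ^ (2 * r) * ((j : ℝ) + 1) ^ (2 * r) := by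
        positivity
      linarith
    · rw [if_neg hc, if_neg hc, add_zero, hγ]
      exact apr_pt r _ _ _ _ hT hj (h.low c) (apr_fibre h K c)
  have hup2 : ∑ c, ((4 * (Fintype.card K : ℝ)) ^ (2 * r) *
      ((if K.mkQ c = 0 then 0 else
        ((Fintype.card (V ⧸ K) : ℝ) * aq P K (K.mkQ c)) ^ (2 * r)) + ((j : ℝ) + 1) ^ (2 * r)) +
        (if K.mkQ c = 0 then (a : ℝ) ^ (2 * r) else 0)) =
      (Fintype.card K : ℝ) * ∑ cb : V ⧸ K, ((4 * (Fintype.card K : ℝ)) ^ (2 * r) *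
      ((if cb = 0 then 0 else
        ((Fintype.card (V ⧸ K) : ℝ) * aq P K cb) ^ (2 * r)) + ((j : ℝ) + 1) ^ (2 * r)) +
        (if cb = 0 then (a : ℝ) ^ (2 * r) else 0)) :=
    apr_sum K (fun cb => (4 * (Fintype.card K : ℝ)) ^ (2 * r) *
      ((if cb = 0 then 0 else
        ((Fintype.card (V ⧸ K) : ℝ) * aq P K cb) ^ (2 * r)) + ((j : ℝ) + 1) ^ (2 * r)) +
        (if cb = 0 then (a : ℝ) ^ (2 * r) else 0))
  rw [hup2, Finset.sum_add_distrib, ← Finset.mul_sum, Finset.sum_add_distrib, Finset.sum_const,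
    Finset.card_univ, nsmul_eq_mul, Finset.sum_ite_eq' univ (0 : V ⧸ K), if_pos (Finset.mem_univ _)] at hup
  have hfin := hlow2.trans hup
  rw [card_quot K] at hfin
  refine apr_num r a (Fintype.card K : ℝ) (Fintype.card (V ⧸ K) : ℝ) ((j : ℝ) + 1) _ hr hra hT
    (by linarith) hN hin hbiga ?_
  refine hfin.trans (le_of_eq ?_)
  ring

end Pool.Agent.OSD
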