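import Pool.Agent.OSD.Defs

open Finset Module

namespace Pool.Agent.OSD

open Pool.Agent.GapCodes Pool.Agent.LLog

attribute [local instance] fintypeDual

variable {F : Type} [Field F] [Fintype F] {V : Type} [AddCommGroup V] [Module F V] [Fintype V]
variable {ψ : AddChar F ℂ} {j : ℕ} {P : V → ℝ} {f : Module.Dual F V → ℝ}

private theorem cbd_coef (hψ : ψ ≠ 0) (h : Pool.Agent.LLog.Rep ψ P f) (c : V) :
    ∑ x, ((f x : ℝ) : ℂ) * ch ψ (-c) x = (Fintype.card V : ℂ) * P c := by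
  classical
  simp_rw [h _, Finset.sum_mul]
  rw [Finset.sum_comm]
  have h1 : ∀ c' : V, ∑ x : Module.Dual F V, (P c' : ℂ) * ch ψ c' x * ch ψ (-c) x =
      if c' = c then (Fintype.card V : ℂ) * P c else 0 := by
    intro c'
    simp_rw [mul_assoc, ← ch_add]
    rw [← Finset.mul_sum, sum_ch ψ hψ]
    by_cases hc : c' = c
    · subst hc; simp [mul_comm]
    · rw [if_neg, if_neg hc, mul_zero]
      intro h0
      apply hc
      rwa [← sub_eq_add_neg, sub_eq_zero] at h0
  simp_rw [h1]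
  simp

/-- CBD -/
theorem rep_abs (hψ : ψ ≠ 0) (h : Pool.Agent.LLog.Rep ψ P f) (c : V) :
    |(Fintype.card V : ℝ) * P c| ≤ ∑ x, |f x| := by
  have h1 := cbd_coef hψ h c
  have h2 : ‖(((Fintype.card V : ℝ) * P c : ℝ) : ℂ)‖ ≤ ∑ x, |f x| := by
    push_cast
    rw [← h1]
    refine (norm_sum_le _ _).trans (le_of_eq (Finset.sum_congr rfl fun x _ => ?_))
    rw [norm_mul, norm_ch, mul_one, Complex.norm_real, Real.norm_eq_abs]
  rwa [Complex.norm_real, Real.norm_eq_abs] at h2

end Pool.Agent.OSD
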