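import Mathlib

/-!
Row CH1: moment generating function of a random subset.
-/

open Finset Module

namespace Pool.Agent.OSD

private theorem ch1_point (p s : ℝ) (hp0 : 0 ≤ p) (hp1 : p ≤ 1) (hs : |s| ≤ 1) :
    p * Real.exp (s * (1 - p)) + (1 - p) * Real.exp (-(s * p)) ≤ Real.exp (s ^ 2 * p) := by
  have hq0 : 0 ≤ 1 - p := by linarith
  have h1 : |s * (1 - p)| ≤ 1 := by
    rw [abs_mul, abs_of_nonneg hq0]
    nlinarith [abs_nonneg s]
  have h2 : |-(s * p)| ≤ 1 := by
    rw [abs_neg, abs_mul, abs_of_nonneg hp0]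
    nlinarith [abs_nonneg s]
  have h3 := (abs_le.1 (Real.abs_exp_sub_one_sub_id_le h1)).2
  have h4 := (abs_le.1 (Real.abs_exp_sub_one_sub_id_le h2)).2
  have h5 := Real.add_one_le_exp (s ^ 2 * p)
  have h6 : p * Real.exp (s * (1 - p)) ≤ p * (1 + s * (1 - p) + (s * (1 - p)) ^ 2) :=
    mul_le_mul_of_nonneg_left (by linarith) hp0
  have h7 : (1 - p) * Real.exp (-(s * p)) ≤ (1 - p) * (1 + -(s * p) + (-(s * p)) ^ 2) :=
    mul_le_mul_of_nonneg_left (by linarith) hq0
  have h8 : p * (1 + s * (1 - p) + (s * (1 - p)) ^ 2) +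
      (1 - p) * (1 + -(s * p) + (-(s * p)) ^ 2) = 1 + s ^ 2 * p - (s * p) ^ 2 := by ring
  nlinarith [sq_nonneg (s * p)]

open Classical in
/-- CH1: moment generating function of a random subset. -/
theorem mgf_le {Ω : Type} (X S : Finset Ω) (p s : ℝ) (hp0 : 0 ≤ p) (hp1 : p ≤ 1)
    (hs : |s| ≤ 1) :
    ∑ E ∈ X.powerset, p ^ #E * (1 - p) ^ #(X \ E) *
      Real.exp (s * ((#(E ∩ S) : ℝ) - p * #(X ∩ S))) ≤ Real.exp (s ^ 2 * (p * #(X ∩ S))) := by
  set a : Ω → ℝ := fun x => p * (if x ∈ S then Real.exp (s * (1 - p)) else 1) with ha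
  set b : Ω → ℝ := fun x => (1 - p) * (if x ∈ S then Real.exp (-(s * p)) else 1) with hb
  have hq0 : 0 ≤ 1 - p := by linarith
  have h1 : ∀ E ∈ X.powerset, p ^ #E * (1 - p) ^ #(X \ E) *
      Real.exp (s * ((#(E ∩ S) : ℝ) - p * #(X ∩ S))) = (∏ x ∈ E, a x) * ∏ x ∈ X \ E, b x := by
    intro E hE
    have hEX : E ⊆ X := Finset.mem_powerset.1 hE
    rw [ha, hb]
    rw [Finset.prod_mul_distrib, Finset.prod_mul_distrib, Finset.prod_const, Finset.prod_const,
      Finset.prod_ite_mem, Finset.prod_ite_mem, Finset.prod_const, Finset.prod_const]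
    have h2 : (#(X ∩ S) : ℝ) = #(E ∩ S) + #((X \ E) ∩ S) := by
      have h3 : X ∩ S = (E ∩ S) ∪ ((X \ E) ∩ S) := by
        rw [← Finset.union_inter_distrib_right, Finset.union_sdiff_of_subset hEX]
      have h4 : Disjoint (E ∩ S) ((X \ E) ∩ S) :=
        Finset.disjoint_of_subset_left Finset.inter_subset_left
          (Finset.disjoint_of_subset_right Finset.inter_subset_left Finset.disjoint_sdiff)
      rw [h3, Finset.card_union_of_disjoint h4]
      push_cast
      ring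
    have h5 : Real.exp (s * ((#(E ∩ S) : ℝ) - p * #(X ∩ S))) =
        Real.exp (s * (1 - p)) ^ #(E ∩ S) * Real.exp (-(s * p)) ^ #((X \ E) ∩ S) := by
      rw [← Real.exp_nat_mul, ← Real.exp_nat_mul, ← Real.exp_add, h2]
      congr 1
      ring
    rw [h5]
    ring
  rw [Finset.sum_congr rfl h1, ← Finset.prod_add]
  have h6 : ∀ x ∈ X, a x + b x ≤ if x ∈ S then Real.exp (s ^ 2 * p) else 1 := by
    intro x _
    simp only [ha, hb]
    split_ifs with hx
    · exact ch1_point p s hp0 hp1 hs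
    · linarith
  have h7 : ∀ x ∈ X, 0 ≤ a x + b x := by
    intro x _
    simp only [ha, hb]
    split_ifs with hx
    · positivity
    · linarith
  refine (Finset.prod_le_prod h7 h6).trans (le_of_eq ?_)
  rw [Finset.prod_ite_mem, Finset.prod_const, ← Real.exp_nat_mul]
  congr 1
  ring

end Pool.Agent.OSD
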