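import Pool.Agent.OSD.Ch1

/-! Sampling with an exact size. -/

open Finset Module

namespace Pool.Agent.OSD

open Classical in
/-- a random subset which is good for all sets at once -/
theorem sample_exists_aux {Ω ι : Type} [Fintype ι] (X : Finset Ω) (S : ι → Finset Ω)
    (e t : ℕ) (he0 : 0 < e) (he : e < #X) (hte : ((t : ℝ) + 2) ≤ e)
    (ht : Fintype.card ι ≤ 2 ^ t) :
    ∃ E : Finset Ω, E ⊆ X ∧ |(#E : ℝ) - e| ≤ 2 * Real.sqrt (e * (t + 2)) ∧ ∀ i,
      |(#(E ∩ S i) : ℝ) - e * (#(X ∩ S i) / #X)| ≤ 2 * Real.sqrt (e * (t + 2)) := by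
  have hX : (0 : ℝ) < #X := by exact_mod_cast (lt_trans he0 he)
  have he0' : (0 : ℝ) < e := by exact_mod_cast he0
  have heX : (e : ℝ) < #X := by exact_mod_cast he
  set L : ℝ := (t : ℝ) + 2 with hL
  have hL0 : 0 < L := by positivity
  set p : ℝ := (e : ℝ) / #X with hp
  have hp0 : 0 < p := div_pos he0' hX
  have hp1 : p < 1 := (div_lt_one hX).2 heX
  have hpX : p * #X = e := by rw [hp]; field_simp
  set s : ℝ := Real.sqrt (L / e) with hs
  have hs2 : s ^ 2 = L / e := Real.sq_sqrt (by positivity)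
  have hs0 : 0 < s := Real.sqrt_pos.2 (by positivity)
  have hs1 : s ≤ 1 := by
    rw [hs]
    exact Real.sqrt_le_one.2 ((div_le_one he0').2 hte)
  set T : Option ι → Finset Ω := fun o => o.elim X S with hT
  set w : Finset Ω → ℝ := fun E => p ^ #E * (1 - p) ^ #(X \ E) with hw
  set dv : Option ι → Finset Ω → ℝ := fun o E => (#(E ∩ T o) : ℝ) - p * #(X ∩ T o) with hdv
  have hexp : ∀ (o : Option ι) (r : ℝ), |r| = s →
      ∑ E ∈ X.powerset, w E * Real.exp (r * dv o E) ≤ Real.exp L := by
    intro o r hr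
    have h1 := mgf_le X (T o) p r hp0.le hp1.le (by rw [hr]; exact hs1)
    refine h1.trans (Real.exp_le_exp.2 ?_)
    have h2 : r ^ 2 = L / e := by rw [← sq_abs, hr, hs2]
    rw [h2]
    have h3 : (#(X ∩ T o) : ℝ) ≤ #X := by exact_mod_cast card_le_card inter_subset_left
    have h4 : p * #(X ∩ T o) ≤ e := by
      rw [← hpX]
      exact mul_le_mul_of_nonneg_left h3 hp0.le
    calc L / e * (p * #(X ∩ T o)) ≤ L / e * e := mul_le_mul_of_nonneg_left h4 (by positivity)
      _ = L := by field_simp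
  have hwsum : ∑ E ∈ X.powerset, w E = 1 := by
    have h1 := Finset.sum_pow_mul_eq_add_pow p (1 - p) X
    rw [add_sub_cancel, one_pow] at h1
    rw [← h1]
    refine sum_congr rfl fun E hE => ?_
    rw [hw]
    simp only
    rw [card_sdiff_of_subset (mem_powerset.1 hE)]
  have hwpos : ∀ E, 0 < w E := fun E => by
    rw [hw]
    have : 0 < 1 - p := by linarith
    positivity
  set Φ : Finset Ω → ℝ := fun E => ∑ o : Option ι,
    (Real.exp (s * dv o E) + Real.exp (-s * dv o E)) with hΦ
  have hsum : ∑ E ∈ X.powerset, w E * Φ E ≤ (2 ^ t + 1) * (2 * Real.exp L) := by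
    have h1 : ∑ E ∈ X.powerset, w E * Φ E = ∑ o : Option ι,
        (∑ E ∈ X.powerset, w E * Real.exp (s * dv o E) +
          ∑ E ∈ X.powerset, w E * Real.exp (-s * dv o E)) := by
      simp only [hΦ, mul_sum, mul_add, sum_add_distrib]
      rw [sum_comm, sum_comm (s := X.powerset)]
    rw [h1]
    have h2 : ∀ o ∈ (univ : Finset (Option ι)), (∑ E ∈ X.powerset, w E * Real.exp (s * dv o E) +
          ∑ E ∈ X.powerset, w E * Real.exp (-s * dv o E)) ≤ 2 * Real.exp L := by
      intro o _
      have h3 := hexp o s (abs_of_pos hs0)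
      have h4 := hexp o (-s) (by rw [abs_neg, abs_of_pos hs0])
      linarith
    refine (sum_le_sum h2).trans ?_
    rw [sum_const, nsmul_eq_mul, card_univ, Fintype.card_option]
    refine mul_le_mul_of_nonneg_right ?_ (by positivity)
    push_cast
    have : (Fintype.card ι : ℝ) ≤ 2 ^ t := by exact_mod_cast ht
    linarith
  obtain ⟨E, hE, hEΦ⟩ : ∃ E ∈ X.powerset, Φ E ≤ (2 ^ t + 1) * (2 * Real.exp L) := by
    by_contra hcon
    push Not at hcon
    have h1 : ∑ E ∈ X.powerset, w E * ((2 ^ t + 1) * (2 * Real.exp L)) <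
        ∑ E ∈ X.powerset, w E * Φ E := by
      refine sum_lt_sum_of_nonempty ⟨∅, empty_mem_powerset X⟩ fun E hE => ?_
      exact mul_lt_mul_of_pos_left (hcon E hE) (hwpos E)
    rw [← sum_mul, hwsum, one_mul] at h1
    linarith
  have hbig : (2 ^ t + 1) * (2 * Real.exp L) ≤ Real.exp (2 * L) := by
    have h1 : (1 : ℝ) ≤ 2 ^ t := one_le_pow₀ (by norm_num)
    have h2 : (2 : ℝ) ^ (t + 2) ≤ Real.exp L := by
      have h3 : (2 : ℝ) ≤ Real.exp 1 := by
        have := Real.add_one_le_exp (1 : ℝ)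
        linarith
      have h4 : Real.exp L = Real.exp 1 ^ (t + 2) := by
        rw [← Real.exp_nat_mul]
        congr 1
        push_cast
        rw [hL]
        ring
      rw [h4]
      exact pow_le_pow_left₀ (by norm_num) h3 _
    have h5 : Real.exp (2 * L) = Real.exp L * Real.exp L := by rw [two_mul, Real.exp_add]
    rw [h5]
    have h6 : ((2 : ℝ) ^ t + 1) * 2 ≤ Real.exp L := by
      have : (2 : ℝ) ^ (t + 2) = 4 * 2 ^ t := by ring
      linarith
    calc ((2 : ℝ) ^ t + 1) * (2 * Real.exp L) = (((2 : ℝ) ^ t + 1) * 2) * Real.exp L := by ring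
      _ ≤ Real.exp L * Real.exp L := mul_le_mul_of_nonneg_right h6 (Real.exp_pos _).le
  have hR : 2 * L / s = 2 * Real.sqrt (e * L) := by
    rw [div_eq_iff hs0.ne', hs]
    have h1 : Real.sqrt (e * L) * Real.sqrt (L / e) = L := by
      rw [← Real.sqrt_mul (by positivity)]
      have : (e : ℝ) * L * (L / e) = L * L := by field_simp
      rw [this, Real.sqrt_mul_self hL0.le]
    rw [mul_assoc, h1]
  have hdev : ∀ o, |dv o E| ≤ 2 * Real.sqrt (e * L) := by
    intro o
    have h1 : Real.exp (s * dv o E) + Real.exp (-s * dv o E) ≤ Φ E := by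
      rw [hΦ]
      exact single_le_sum (f := fun o => Real.exp (s * dv o E) + Real.exp (-s * dv o E))
        (fun o _ => by positivity) (mem_univ o)
    have h2 : Real.exp (s * dv o E) ≤ Real.exp (2 * L) := by
      have := Real.exp_pos (-s * dv o E)
      linarith
    have h3 : Real.exp (-s * dv o E) ≤ Real.exp (2 * L) := by
      have := Real.exp_pos (s * dv o E)
      linarith
    rw [Real.exp_le_exp] at h2 h3
    rw [← hR, le_div_iff₀ hs0]
    have h4 : |dv o E| * s = |dv o E * s| := by rw [abs_mul, abs_of_pos hs0]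
    rw [h4, abs_le]
    constructor <;> linarith
  refine ⟨E, mem_powerset.1 hE, ?_, fun i => ?_⟩
  · have h1 := hdev none
    have h2 : dv none E = #E - e := by
      simp only [hdv, hT, Option.elim_none, inter_self]
      rw [hpX, inter_eq_left.2 (mem_powerset.1 hE)]
    rwa [h2] at h1
  · have h1 := hdev (some i)
    have h2 : dv (some i) E = (#(E ∩ S i) : ℝ) - e * (#(X ∩ S i) / #X) := by
      simp only [hdv, hT, Option.elim_some]
      rw [hp]
      ring
    rwa [h2] at h1

open Classical in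
theorem sample_exists {Ω ι : Type} [Fintype ι] (X : Finset Ω) (S : ι → Finset Ω)
    (e t : ℕ) (he : e ≤ #X) (ht : Fintype.card ι ≤ 2 ^ t) :
    ∃ E : Finset Ω, E ⊆ X ∧ #E = e ∧ ∀ i,
      |(#(E ∩ S i) : ℝ) - e * (#(X ∩ S i) / #X)| ≤ 4 * Real.sqrt (e * (t + 2)) := by
  rcases Nat.eq_zero_or_pos e with rfl | he0
  · exact ⟨∅, empty_subset _, card_empty, fun i => by simp⟩
  have he0' : (0 : ℝ) < e := by exact_mod_cast he0
  have hX : (0 : ℝ) < #X := by exact_mod_cast (lt_of_lt_of_le he0 he)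
  have hratio : ∀ i, 0 ≤ (#(X ∩ S i) : ℝ) / #X ∧ (#(X ∩ S i) : ℝ) / #X ≤ 1 := fun i =>
    ⟨by positivity, (div_le_one hX).2 (by exact_mod_cast card_le_card inter_subset_left)⟩
  rcases lt_or_ge (e : ℝ) ((t : ℝ) + 2) with hlt | hge
  · obtain ⟨E, hE1, hE2⟩ := exists_subset_card_eq he
    refine ⟨E, hE1, hE2, fun i => ?_⟩
    have h1 : (#(E ∩ S i) : ℝ) ≤ e := by
      rw [← hE2]
      exact_mod_cast card_le_card inter_subset_left
    have h2 : (0 : ℝ) ≤ #(E ∩ S i) := by positivity
    obtain ⟨h3, h4⟩ := hratio i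
    have h5 : |(#(E ∩ S i) : ℝ) - e * (#(X ∩ S i) / #X)| ≤ e := by
      rw [abs_le]
      constructor <;> nlinarith
    have h6 : (e : ℝ) ≤ Real.sqrt (e * (t + 2)) := by
      apply Real.le_sqrt_of_sq_le
      nlinarith
    have h7 := Real.sqrt_nonneg ((e : ℝ) * (t + 2))
    linarith
  rcases he.lt_or_eq with helt | heeq
  · obtain ⟨E', hE1, hE2, hE3⟩ := sample_exists_aux X S e t he0 helt hge ht
    rcases le_total e #E' with hle | hle
    · obtain ⟨E, hE4, hE5⟩ := exists_subset_card_eq hle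
      refine ⟨E, hE4.trans hE1, hE5, fun i => ?_⟩
      have h1 : (#(E ∩ S i) : ℝ) ≤ #(E' ∩ S i) := by
        exact_mod_cast card_le_card (inter_subset_inter_right hE4)
      have h2 : (#(E' ∩ S i) : ℝ) ≤ #(E ∩ S i) + (#E' - e) := by
        have h3 : #(E' ∩ S i) ≤ #(E ∩ S i) + #(E' \ E) := by
          refine (card_le_card ?_).trans (card_union_le _ _)
          intro x hx
          rw [mem_inter] at hx
          rw [mem_union, mem_inter, mem_sdiff]
          by_cases hxE : x ∈ E
          · exact Or.inl ⟨hxE, hx.2⟩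
          · exact Or.inr ⟨hx.1, hxE⟩
        have h4 : #(E' \ E) + e = #E' := by
          rw [card_sdiff_of_subset hE4, hE5]
          omega
        have h5 : (#(E' ∩ S i) : ℝ) ≤ #(E ∩ S i) + #(E' \ E) := by exact_mod_cast h3
        have h6 : (#(E' \ E) : ℝ) + e = #E' := by exact_mod_cast h4
        linarith
      have h7 := abs_le.1 hE2
      have h8 := abs_le.1 (hE3 i)
      rw [abs_le]
      constructor <;> linarith [h7.1, h7.2, h8.1, h8.2]
    · obtain ⟨E, hE4, hE4', hE5⟩ := exists_subsuperset_card_eq hE1 hle he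
      refine ⟨E, hE4', hE5, fun i => ?_⟩
      have h1 : (#(E' ∩ S i) : ℝ) ≤ #(E ∩ S i) := by
        exact_mod_cast card_le_card (inter_subset_inter_right hE4)
      have h2 : (#(E ∩ S i) : ℝ) ≤ #(E' ∩ S i) + (e - #E') := by
        have h3 : #(E ∩ S i) ≤ #(E' ∩ S i) + #(E \ E') := by
          refine (card_le_card ?_).trans (card_union_le _ _)
          intro x hx
          rw [mem_inter] at hx
          rw [mem_union, mem_inter, mem_sdiff]
          by_cases hxE : x ∈ E'
          · exact Or.inl ⟨hxE, hx.2⟩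
          · exact Or.inr ⟨hx.1, hxE⟩
        have h4 : #(E \ E') + #E' = e := by
          rw [card_sdiff_of_subset hE4, hE5]
          omega
        have h5 : (#(E ∩ S i) : ℝ) ≤ #(E' ∩ S i) + #(E \ E') := by exact_mod_cast h3
        have h6 : (#(E \ E') : ℝ) + #E' = e := by exact_mod_cast h4
        linarith
      have h7 := abs_le.1 hE2
      have h8 := abs_le.1 (hE3 i)
      rw [abs_le]
      constructor <;> linarith [h7.1, h7.2, h8.1, h8.2]
  · refine ⟨X, Subset.rfl, heeq.symm, fun i => ?_⟩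
    have h1 : (e : ℝ) * (#(X ∩ S i) / #X) = #(X ∩ S i) := by
      rw [heeq]
      field_simp
    rw [h1, sub_self, abs_zero]
    positivity

end Pool.Agent.OSD
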