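import Pool.Agent.OSD.Defs

open Finset Module

namespace Pool.Agent.OSD

open Pool.Agent.GapCodes Pool.Agent.LLog

attribute [local instance] fintypeDual

variable {F : Type} [Field F] [Fintype F] {V : Type} [AddCommGroup V] [Module F V] [Fintype V]
variable {ψ : AddChar F ℂ} {j : ℕ} {P : V → ℝ} {f : Module.Dual F V → ℝ}

open Classical in
/-- CSQ -/
theorem cone_sq (hψ : ψ ≠ 0) (h : Cone ψ j P f) :
    ∑ c, (if c = 0 then 0 else ((Fintype.card V : ℝ) * P c + j) ^ 2) ≤
      Fintype.card V * ((j : ℝ) ^ 2 + ∑ x, (1 - f x)) + 2 * j * ∑ x, (1 - f x) := by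
  set M : ℝ := (Fintype.card V : ℝ) with hM
  have hdual : (Fintype.card (Module.Dual F V) : ℝ) = M := by
    rw [hM]
    exact_mod_cast card_dual (F := F) (V := V)
  have hsum : ∑ c, P c = 1 := by rw [← h.rep.at_zero, h.one]
  have hmean : M * P 0 = ∑ x, f x := h.rep.mean hψ
  have hsq : ∑ x, f x ^ 2 = ∑ x, f x := by
    apply Finset.sum_congr rfl
    intro x _
    rcases h.ind x with h1 | h1 <;> rw [h1] <;> norm_num
  have hpar : M * ∑ c, P c ^ 2 = ∑ x, f x := by rw [hM, h.rep.parseval hψ, hsq]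
  have hb : ∑ x, (1 - f x) = M - ∑ x, f x := by
    rw [Finset.sum_sub_distrib, Finset.sum_const, Finset.card_univ, nsmul_eq_mul, mul_one, hdual]
  have hb0 : 0 ≤ ∑ x, (1 - f x) := by
    apply Finset.sum_nonneg
    intro x _
    rcases h.ind x with h1 | h1 <;> rw [h1] <;> norm_num
  have hS : ∑ c, (if c = 0 then 0 else (M * P c + j) ^ 2) =
      ∑ c, (M * P c + j) ^ 2 - (M * P 0 + j) ^ 2 := by
    have h1 : ∀ c : V, (if c = 0 then 0 else (M * P c + j) ^ 2) =
        (M * P c + j) ^ 2 - (if c = 0 then (M * P c + (j : ℝ)) ^ 2 else 0) := by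
      intro c
      split_ifs <;> ring
    simp_rw [h1]
    rw [Finset.sum_sub_distrib, Finset.sum_ite_eq' Finset.univ (0 : V)]
    simp
  have hE : ∑ c, (M * P c + j) ^ 2 = M * (M * ∑ c, P c ^ 2) + 2 * j * M * ∑ c, P c + M * (j : ℝ) ^ 2 := by
    have h1 : ∀ c : V, (M * P c + j) ^ 2 = M * M * P c ^ 2 + 2 * j * M * P c + (j : ℝ) ^ 2 := by
      intro c
      ring
    simp_rw [h1]
    rw [Finset.sum_add_distrib, Finset.sum_add_distrib, ← Finset.mul_sum, ← Finset.mul_sum,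
      Finset.sum_const, Finset.card_univ, nsmul_eq_mul]
    ring
  rw [hS, hE, hpar, hsum, hmean]
  have hb' : 0 ≤ M - ∑ x, f x := by rw [← hb]; exact hb0
  rw [hb]
  nlinarith [mul_nonneg hb' hb', sq_nonneg (j : ℝ)]

end Pool.Agent.OSD
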