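import Pool.Agent.OSD.Defs

open Finset Module

namespace Pool.Agent.OSD

open Pool.Agent.GapCodes Pool.Agent.LLog

attribute [local instance] fintypeDual

variable {F : Type} [Field F] [Fintype F] {V : Type} [AddCommGroup V] [Module F V] [Fintype V]
variable {ψ : AddChar F ℂ} {j : ℕ} {P : V → ℝ} {f : Module.Dual F V → ℝ}

open Classical in
/-- DDR -/
theorem dd_rep (hψ : ψ ≠ 0) (h : Rep ψ P f) (H : Submodule F V) [Fintype (V ⧸ H)] :
    Rep ψ (fun c => if c ∈ H then P c else 0) (dd f H) := by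
  intro y
  have hM := card_pos' (V ⧸ H)
  have hMc : (Fintype.card (V ⧸ H) : ℂ) ≠ 0 := by
    exact_mod_cast hM.ne'
  unfold dd
  push_cast
  rw [div_eq_iff hMc]
  have h1 : ∀ x : Module.Dual F (V ⧸ H), ((f (y + x ∘ₗ H.mkQ) : ℝ) : ℂ) =
      ∑ c, (P c : ℂ) * ch ψ c y * ch ψ (H.mkQ c) x := by
    intro x
    rw [h]
    apply Finset.sum_congr rfl
    intro c _
    rw [ch_add_right, mul_assoc]
    rfl
  simp_rw [h1]
  rw [Finset.sum_comm, Finset.sum_mul]
  apply Finset.sum_congr rfl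
  intro c _
  rw [← Finset.mul_sum, sum_ch ψ hψ]
  by_cases hc : c ∈ H
  · have h2 : H.mkQ c = 0 := by
      rw [Submodule.mkQ_apply, Submodule.Quotient.mk_eq_zero]
      exact hc
    rw [if_pos h2, if_pos hc]
  · have h2 : H.mkQ c ≠ 0 := by
      rw [Submodule.mkQ_apply, Ne, Submodule.Quotient.mk_eq_zero]
      exact hc
    rw [if_neg h2, if_neg hc]
    simp

theorem dd_coset (f : Module.Dual F V → ℝ) (H : Submodule F V) [Fintype (V ⧸ H)]
    (y : Module.Dual F V) (x : Module.Dual F (V ⧸ H)) : dd f H (y + x ∘ₗ H.mkQ) = dd f H y := by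
  unfold dd
  congr 1
  rw [← Equiv.sum_comp (Equiv.addLeft x) (fun x' => f (y + x' ∘ₗ H.mkQ))]
  apply Finset.sum_congr rfl
  intro x' _
  congr 1
  rw [Equiv.coe_addLeft, LinearMap.add_comp, add_assoc]

end Pool.Agent.OSD
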