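import Pool.Agent.LLog.A7
import Pool.Agent.LLog.B1
import Pool.Agent.LLog.C1

open Finset Module

namespace Pool.Agent.OSD

open Pool.Agent.GapCodes Pool.Agent.LLog

attribute [local instance] fintypeDual

variable {F : Type} [Field F] [Fintype F] {V : Type} [AddCommGroup V] [Module F V] [Fintype V]

/-- Indicator function `f` of a cone containing `0` in the dual of `V`, with Fourier coefficients
`P` at least `-j / card V`. -/
structure Cone (ψ : AddChar F ℂ) (j : ℕ) (P : V → ℝ) (f : Module.Dual F V → ℝ) : Prop where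
  rep : Rep ψ P f
  low : ∀ c, 0 ≤ (Fintype.card V : ℝ) * P c + j
  ind : ∀ x, f x = 0 ∨ f x = 1
  one : f 0 = 1
  inv : ∀ a : F, a ≠ 0 → ∀ x, f (a • x) = f x

/-- Averages over the cosets of the annihilator of `H`. -/
noncomputable def dd (f : Module.Dual F V → ℝ) (H : Submodule F V) [Fintype (V ⧸ H)]
    (y : Module.Dual F V) : ℝ :=
  (∑ x : Module.Dual F (V ⧸ H), f (y + x ∘ₗ H.mkQ)) / Fintype.card (V ⧸ H)

/-- Coefficients determine the function and conversely. -/
theorem rep_uniq {ψ : AddChar F ℂ} (hψ : ψ ≠ 0) {α β : V → ℝ} {f : Module.Dual F V → ℝ}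
    (h : Rep ψ α f) (h' : Rep ψ β f) (c : V) : α c = β c := by
  have h1 := (h.sub h').parseval hψ
  have h2 : ∑ x : Module.Dual F V, (f x - f x) ^ 2 = 0 :=
    Finset.sum_eq_zero (fun x _ => by ring)
  have hM : (0 : ℝ) < Fintype.card V := by exact_mod_cast (Fintype.card_pos : 0 < Fintype.card V)
  have h3 : ∑ c, (α c - β c) ^ 2 = 0 := by
    have h4 := h1.trans h2
    rcases mul_eq_zero.mp h4 with h5 | h5
    · exact absurd h5 hM.ne'
    · exact h5
  have h6 := (Finset.sum_eq_zero_iff_of_nonneg (fun c _ => sq_nonneg (α c - β c))).mp h3 c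
    (Finset.mem_univ c)
  have h7 := pow_eq_zero_iff (two_ne_zero) |>.mp h6
  linarith

theorem card_pos' (V : Type) [AddCommGroup V] [Fintype V] : (0 : ℝ) < Fintype.card V := by
  exact_mod_cast (Fintype.card_pos : 0 < Fintype.card V)

/-- Sizes of a subspace and of its quotient. -/
theorem card_quot (H : Submodule F V) [Fintype H] [Fintype (V ⧸ H)] :
    (Fintype.card V : ℝ) = Fintype.card H * Fintype.card (V ⧸ H) := by
  have h1 := Submodule.card_eq_card_quotient_mul_card H
  rw [Nat.card_eq_fintype_card, Nat.card_eq_fintype_card, Nat.card_eq_fintype_card] at h1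
  rw [h1]
  push_cast
  ring

end Pool.Agent.OSD
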