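import Pool.Agent.OSD.Tai
import Pool.Agent.OSD.Ddr

open Finset Module

namespace Pool.Agent.OSD

open Pool.Agent.GapCodes Pool.Agent.LLog

attribute [local instance] fintypeDual

variable {F : Type} [Field F] [Fintype F] {V : Type} [AddCommGroup V] [Module F V] [Fintype V]
variable {ψ : AddChar F ℂ} {j : ℕ} {P : V → ℝ} {f : Module.Dual F V → ℝ}

/-- DST (uses TAI and DDR) -/
theorem cone_dist (hψ : ψ ≠ 0) (h : Cone ψ j P f) (H : Submodule F V) [Fintype H]
    [Fintype (V ⧸ H)] (hH : 3 / 4 ≤ sg P H) :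
    ∑ y, (f y - dd f H y) ^ 2 ≤ 9 * ((j : ℝ) + 1) ^ 4 * Fintype.card H := by
  classical
  have h1 := (h.rep.sub (dd_rep hψ h.rep H)).parseval hψ
  have h2 := cone_tail hψ h H hH
  refine le_trans (le_of_eq h1.symm) (le_trans (le_of_eq ?_) h2)
  congr 1
  apply Finset.sum_congr rfl
  intro c _
  by_cases hc : c ∈ H
  · simp only [if_pos hc]
    ring
  · simp only [if_neg hc]
    ring

theorem cone_dd (hψ : ψ ≠ 0) (h : Cone ψ j P f) (H : Submodule F V) [Fintype H]
    [Fintype (V ⧸ H)] (hH : 3 / 4 ≤ sg P H) (y : Module.Dual F V) :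
    (Fintype.card (V ⧸ H) : ℝ) * (dd f H y * (1 - dd f H y)) ≤
      9 * ((j : ℝ) + 1) ^ 4 * Fintype.card H := by
  classical
  refine le_trans ?_ (cone_dist hψ h H hH)
  have hM : (0 : ℝ) < Fintype.card (V ⧸ H) := card_pos' _
  set d := dd f H y with hd
  have hs : ∑ x : Module.Dual F (V ⧸ H), f (y + x ∘ₗ H.mkQ) = Fintype.card (V ⧸ H) * d := by
    rw [hd]
    unfold dd
    field_simp
  have hinj : Function.Injective (fun x : Module.Dual F (V ⧸ H) => y + x ∘ₗ H.mkQ) := by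
    intro x x' hxx
    have h3 : x ∘ₗ H.mkQ = x' ∘ₗ H.mkQ := add_left_cancel hxx
    ext c
    simpa using LinearMap.congr_fun h3 c
  have h4 : ∑ x : Module.Dual F (V ⧸ H), (f (y + x ∘ₗ H.mkQ) - d) ^ 2 ≤
      ∑ z, (f z - dd f H z) ^ 2 := by
    have h5 : ∑ x : Module.Dual F (V ⧸ H), (f (y + x ∘ₗ H.mkQ) - d) ^ 2 =
        ∑ z ∈ univ.image (fun x : Module.Dual F (V ⧸ H) => y + x ∘ₗ H.mkQ),
          (f z - dd f H z) ^ 2 := by
      rw [Finset.sum_image (fun a _ b _ hab => hinj hab)]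
      apply Finset.sum_congr rfl
      intro x _
      rw [dd_coset]
    rw [h5]
    exact Finset.sum_le_sum_of_subset_of_nonneg (Finset.subset_univ _)
      (fun z _ _ => sq_nonneg _)
  refine le_trans (le_of_eq ?_) h4
  have h6 : ∀ x : Module.Dual F (V ⧸ H), (f (y + x ∘ₗ H.mkQ) - d) ^ 2 =
      (1 - 2 * d) * f (y + x ∘ₗ H.mkQ) + d ^ 2 := by
    intro x
    rcases h.ind (y + x ∘ₗ H.mkQ) with h7 | h7
    · rw [h7]
      ring
    · rw [h7]
      ring
  rw [Finset.sum_congr rfl (fun x _ => h6 x), Finset.sum_add_distrib, ← Finset.mul_sum, hs,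
    Finset.sum_const, Finset.card_univ, card_dual, nsmul_eq_mul]
  ring

end Pool.Agent.OSD
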