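import Pool.Agent.OSD.Defs

open Finset Module

namespace Pool.Agent.OSD

open Pool.Agent.GapCodes Pool.Agent.LLog

attribute [local instance] fintypeDual

variable {F : Type} [Field F] [Fintype F] {V : Type} [AddCommGroup V] [Module F V] [Fintype V]
variable {ψ : AddChar F ℂ} {j : ℕ} {P : V → ℝ} {f : Module.Dual F V → ℝ}

private theorem eig_sum_zero {X : Type} [Fintype X] [Zero X] (g : X → ℝ)
    (h : ∀ x, x ≠ 0 → g x = 0) : ∑ x, g x = g 0 :=
  Finset.sum_eq_single 0 (fun x _ hx => h x hx) (fun h0 => absurd (Finset.mem_univ _) h0)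

open Classical in
/-- EIG -/
theorem cone_eig (hψ : ψ ≠ 0) (h : Cone ψ j P f) (K : ℝ) (y : ℕ)
    (hσ : ((j : ℝ) + 2) * Fintype.card V ≤ 2 ^ y * ∑ x, f x)
    (hK : 30000 ≤ K) (hR : 650 * (10 + 2 * (y : ℝ)) ≤ K)
    (hlog : Real.log (Fintype.card V) ≤ K)
    (hj : (j : ℝ) + 2 ≤ Fintype.card V)
    (hbig : ((j : ℝ) + 1) ^ 2 * ((j : ℝ) + 2) ^ 4 * K ^ 96 ≤ ∑ x, f x) :
    ∃ H : Submodule F V, finrank F H ≤ 10 + 2 * y ∧
      9 / 10 ≤ ∑ z, if z ∈ H then P z + ((j : ℝ) + 1) / Fintype.card V else 0 := by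
  obtain ⟨M, hM⟩ : ∃ M : ℝ, M = Fintype.card V := ⟨_, rfl⟩
  have hM0 : 0 < M := by rw [hM]; exact card_pos' V
  have hj0 : (0 : ℝ) ≤ j := Nat.cast_nonneg j
  obtain ⟨S, hS⟩ : ∃ S : ℝ, S = ∑ x, f x := ⟨_, rfl⟩
  obtain ⟨a, ha⟩ : ∃ a : V → ℝ, a = fun c => P c + ((j : ℝ) + 1) / M := ⟨_, rfl⟩
  obtain ⟨G, hG⟩ : ∃ G : Module.Dual F V → ℝ,
      G = fun x => f x + ((j : ℝ) + 1) * (if x = 0 then 1 else 0) := ⟨_, rfl⟩
  have hrep : Rep ψ a G := by
    have h1 := h.rep.add ((Rep.delta (V := V) hψ).smul ((j : ℝ) + 1))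
    have h2 : a = fun c => P c + ((j : ℝ) + 1) * (1 / (Fintype.card V : ℝ)) := by
      rw [ha, hM]; funext c; ring
    rw [h2, hG]
    exact h1
  have hG0 : G 0 = (j : ℝ) + 2 := by
    rw [hG]
    simp only [if_true, h.one]
    ring
  have hGx : ∀ x, x ≠ 0 → G x = f x := by
    intro x hx
    rw [hG]
    simp [hx]
  have hfsq : ∀ x, f x * f x = f x := by
    intro x
    rcases h.ind x with h1 | h1 <;> rw [h1] <;> norm_num
  have hGsq : ∀ x, x ≠ 0 → G x * G x = G x := by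
    intro x hx
    rw [hGx x hx, hfsq]
  -- positivity of the coefficients
  have hapos : ∀ c, 1 / M ≤ a c := by
    intro c
    have h1 := h.low c
    rw [← hM] at h1
    rw [ha, div_le_iff₀ hM0]
    have h2 : (P c + ((j : ℝ) + 1) / M) * M = M * P c + (j + 1) := by
      field_simp
    change 1 ≤ (P c + ((j : ℝ) + 1) / M) * M
    rw [h2]
    linarith
  have hap : ∀ c, 0 < a c := fun c => lt_of_lt_of_le (by positivity) (hapos c)
  have hsum : ∑ c, a c = (j : ℝ) + 2 := by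
    rw [← hrep.at_zero, hG0]
  have hale : ∀ c, a c ≤ M := by
    intro c
    have h1 : a c ≤ ∑ c, a c :=
      Finset.single_le_sum (f := a) (fun c _ => (hap c).le) (Finset.mem_univ c)
    rw [hsum] at h1
    rw [← hM] at hj
    linarith
  have hlogM : Real.log M ≤ K := by rw [hM]; exact hlog
  have habs : ∀ c, |Real.log (a c)| ≤ K := by
    intro c
    rw [abs_le]
    constructor
    · have h1 := Real.log_le_log (by positivity) (hapos c)
      rw [Real.log_div one_ne_zero hM0.ne', Real.log_one] at h1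
      linarith
    · have h1 := Real.log_le_log (hap c) (hale c)
      linarith
  -- Parseval
  have hpar : M * ∑ c, a c ^ 2 = ∑ x, G x ^ 2 := by
    rw [hM]; exact hrep.parseval hψ
  have hSa : S ≤ M * ∑ c, a c ^ 2 := by
    rw [hpar, hS]
    apply Finset.sum_le_sum
    intro x _
    by_cases hx : x = 0
    · subst hx
      rw [hG0, h.one]
      nlinarith
    · rw [hGx x hx, sq, hfsq]
  have hSM : S ≤ M := by
    have h1 := (Rep.const (V := V) ψ 1).parseval hψ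
    have h2 : ∑ c : V, (if c = 0 then (1 : ℝ) else 0) ^ 2 = 1 := by
      rw [eig_sum_zero (fun c : V => (if c = 0 then (1 : ℝ) else 0) ^ 2)
        (fun c hc => by simp [hc])]
      simp
    rw [h2, mul_one] at h1
    rw [hS, hM, h1]
    apply Finset.sum_le_sum
    intro x _
    rcases h.ind x with h1 | h1 <;> rw [h1] <;> norm_num
  have hT1 : S / M ≤ ∑ c, a c ^ 2 := by
    rw [div_le_iff₀ hM0, mul_comm]
    exact hSa
  have hs1 : S / M ≤ 1 := by
    rw [div_le_one hM0]; exact hSM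
  have hs2 : (j : ℝ) + 2 ≤ 2 ^ y * (S / M) := by
    rw [← mul_div_assoc, le_div_iff₀ hM0, hM, hS]
    exact hσ
  have hK0 : 0 < K := by linarith
  have hS0 : 0 ≤ S / M := by
    have h1 : 0 < (2 : ℝ) ^ y := by positivity
    by_contra hcon
    push Not at hcon
    nlinarith
  -- the two convolution identities
  have hone : (1 : ℝ) / K ^ 96 = (1 / K) ^ 96 := by
    rw [div_pow, one_pow]
  have hmain : ∀ T : ℝ, T ≤ ((j : ℝ) + 1) ^ 2 * ((j : ℝ) + 2) ^ 4 →
      T / M ≤ (1 / K) ^ 96 * ∑ c, a c ^ 2 := by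
    intro T hT
    have hK96 : (0 : ℝ) < K ^ 96 := by positivity
    have h1 : T * K ^ 96 ≤ S := by
      rw [hS]
      exact (mul_le_mul_of_nonneg_right hT hK96.le).trans hbig
    have h2 : T / M * K ^ 96 ≤ ∑ c, a c ^ 2 := by
      refine le_trans ?_ hT1
      rw [div_mul_eq_mul_div]
      exact div_le_div_of_nonneg_right h1 hM0.le
    rw [← hone, div_mul_eq_mul_div, one_mul, le_div_iff₀ hK96]
    exact h2
  have hr2 := Rep.mul hψ hrep hrep
  have hr3 := Rep.mul hψ hrep hr2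
  have hd1 := (hr2.sub hrep).parseval hψ
  have hd2 := (hr3.sub hr2).parseval hψ
  have he1 : ∑ x, (G x * G x - G x) ^ 2 = (((j : ℝ) + 1) * ((j : ℝ) + 2)) ^ 2 := by
    rw [eig_sum_zero (fun x => (G x * G x - G x) ^ 2)
      (fun x hx => by rw [hGsq x hx]; ring)]
    rw [hG0]
    ring
  have he2 : ∑ x, (G x * (G x * G x) - G x * G x) ^ 2 =
      (((j : ℝ) + 1) * ((j : ℝ) + 2) ^ 2) ^ 2 := by
    rw [eig_sum_zero (fun x => (G x * (G x * G x) - G x * G x) ^ 2)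
      (fun x hx => by rw [hGsq x hx, hGsq x hx]; ring)]
    rw [hG0]
    ring
  rw [he1, ← hM] at hd1
  rw [he2, ← hM] at hd2
  have hB : ∑ c, a c ≤ (j : ℝ) + 2 := hsum.le
  have hT : 512 * ((j : ℝ) + 2) ^ 2 ≤ 2 ^ (9 + 2 * y) * ∑ c, a c ^ 2 := by
    have h1 : ((j : ℝ) + 2) ^ 2 ≤ (2 ^ y * (S / M)) ^ 2 :=
      pow_le_pow_left₀ (by linarith) hs2 2
    have h2 : (2 ^ y * (S / M)) ^ 2 ≤ (2 ^ y) ^ 2 * (S / M) := by
      rw [mul_pow]
      apply mul_le_mul_of_nonneg_left _ (by positivity)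
      nlinarith
    have h3 : ((2 : ℝ) ^ y) ^ 2 * (S / M) ≤ (2 ^ y) ^ 2 * ∑ c, a c ^ 2 :=
      mul_le_mul_of_nonneg_left hT1 (by positivity)
    have h4 : (2 : ℝ) ^ (9 + 2 * y) = 512 * (2 ^ y) ^ 2 := by
      rw [pow_add, mul_comm 2 y, pow_mul]
      norm_num
    rw [h4, mul_assoc]
    have h5 := (h1.trans h2).trans h3
    linarith
  obtain ⟨H, hH1, hH2⟩ := eig_sub (F := F) a a 1 K ((j : ℝ) + 2) (1 / 10) (9 + 2 * y)
    (fun z => (hap z).le) (fun z => hrep.even hψ z) hap one_pos hK (by linarith) (by norm_num)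
    (by push_cast; linarith) habs hB hT
    (by
      have h1 := hmain ((((j : ℝ) + 1) * ((j : ℝ) + 2)) ^ 2) (by
        have h2 : (0 : ℝ) ≤ ((j : ℝ) + 1) ^ 2 * ((j : ℝ) + 2) ^ 2 := by positivity
        have h3 : (1 : ℝ) ≤ ((j : ℝ) + 2) ^ 2 := by nlinarith
        calc (((j : ℝ) + 1) * ((j : ℝ) + 2)) ^ 2
            = ((j : ℝ) + 1) ^ 2 * ((j : ℝ) + 2) ^ 2 * 1 := by ring
          _ ≤ ((j : ℝ) + 1) ^ 2 * ((j : ℝ) + 2) ^ 2 * ((j : ℝ) + 2) ^ 2 :=
              mul_le_mul_of_nonneg_left h3 h2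
          _ = _ := by ring)
      rw [← hd1, mul_div_cancel_left₀ _ hM0.ne'] at h1
      simp only [one_mul, one_pow, mul_one] at h1 ⊢
      exact h1)
    (by
      have h1 := hmain ((((j : ℝ) + 1) * ((j : ℝ) + 2) ^ 2) ^ 2) (le_of_eq (by ring))
      rw [← hd2, mul_div_cancel_left₀ _ hM0.ne'] at h1
      simp only [one_mul, one_pow, mul_one] at h1 ⊢
      exact h1)
  refine ⟨H, by omega, ?_⟩
  have h1 : ∑ z, (if z ∈ H then a z else 0) =
      ∑ z, if z ∈ H then P z + ((j : ℝ) + 1) / Fintype.card V else 0 := by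
    rw [ha, hM]
  rw [← h1]
  linarith

end Pool.Agent.OSD
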