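import Pool.Agent.OSD.Defs

open Finset Module

namespace Pool.Agent.OSD

open Pool.Agent.GapCodes Pool.Agent.LLog

attribute [local instance] fintypeDual

variable {F : Type} [Field F] [Fintype F] {V : Type} [AddCommGroup V] [Module F V] [Fintype V]
variable {ψ : AddChar F ℂ} {j : ℕ} {P : V → ℝ} {f : Module.Dual F V → ℝ}

open Classical in
private theorem fib_card (H : Submodule F V) [Fintype H] [Fintype (V ⧸ H)] (cb : V ⧸ H) :
    ∑ c : V, (if H.mkQ c = cb then (1 : ℝ) else 0) = Fintype.card H := by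
  have h1 : ∀ cb : V ⧸ H, ∑ c : V, (if H.mkQ c = cb then (1 : ℝ) else 0) =
      ∑ c : V, (if H.mkQ c = 0 then (1 : ℝ) else 0) := by
    intro cb
    obtain ⟨c0, rfl⟩ := H.mkQ_surjective cb
    rw [← Equiv.sum_comp (Equiv.addLeft c0)]
    apply Finset.sum_congr rfl
    intro c _
    have h3 : (H.mkQ ((Equiv.addLeft c0) c) = H.mkQ c0) ↔ (H.mkQ c = 0) := by
      rw [Equiv.coe_addLeft, map_add]
      constructor
      · intro h
        exact left_eq_add.mp h.symm
      · intro h
        rw [h, add_zero]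
    by_cases h4 : H.mkQ c = 0
    · rw [if_pos h4, if_pos (h3.2 h4)]
    · rw [if_neg h4, if_neg (fun h5 => h4 (h3.1 h5))]
  have h2 : ∑ cb : V ⧸ H, ∑ c : V, (if H.mkQ c = cb then (1 : ℝ) else 0) = Fintype.card V := by
    rw [Finset.sum_comm]
    have h5 : ∀ c : V, ∑ cb : V ⧸ H, (if H.mkQ c = cb then (1 : ℝ) else 0) = 1 := by
      intro c
      rw [Finset.sum_eq_single (H.mkQ c)]
      · rw [if_pos rfl]
      · intro b _ hb
        rw [if_neg (Ne.symm hb)]
      · intro h
        exact absurd (Finset.mem_univ _) h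
    rw [Finset.sum_congr rfl (fun c _ => h5 c), Finset.sum_const, Finset.card_univ,
      nsmul_eq_mul, mul_one]
  rw [Finset.sum_congr rfl (fun cb _ => h1 cb), Finset.sum_const, Finset.card_univ,
    nsmul_eq_mul, card_quot H, mul_comm] at h2
  rw [h1 cb]
  have hM' : (0 : ℝ) < Fintype.card (V ⧸ H) := card_pos' (V ⧸ H)
  exact mul_right_cancel₀ hM'.ne' h2

open Classical in
/-- FIB -/
theorem cone_fibre (h : Cone ψ j P f) (K : Submodule F V) [Fintype K] [Fintype (V ⧸ K)] :
    ∑ c, (if c ∈ K then 0 else ((Fintype.card V : ℝ) * P c) ^ 2) ≤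
      (Fintype.card K : ℝ) ^ 2 *
        (∑ cb, (if cb = 0 then 0 else ((Fintype.card (V ⧸ K) : ℝ) * aq P K cb + j) ^ 2)) +
      Fintype.card V * (j : ℝ) ^ 2 := by
  have hj : (0 : ℝ) ≤ (j : ℝ) := Nat.cast_nonneg j
  -- pointwise bound
  have h1 : ∑ c, (if c ∈ K then 0 else ((Fintype.card V : ℝ) * P c) ^ 2) ≤
      ∑ c, ((if c ∈ K then 0 else ((Fintype.card V : ℝ) * P c + j) ^ 2) + (j : ℝ) ^ 2) := by
    apply Finset.sum_le_sum
    intro c _
    by_cases hc : c ∈ K
    · rw [if_pos hc, if_pos hc, zero_add]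
      positivity
    · rw [if_neg hc, if_neg hc]
      nlinarith [h.low c, mul_nonneg (h.low c) hj]
  rw [Finset.sum_add_distrib, Finset.sum_const, Finset.card_univ, nsmul_eq_mul] at h1
  refine le_trans h1 (add_le_add_left ?_ _)
  -- split along the fibres
  have h2 : ∑ c, (if c ∈ K then 0 else ((Fintype.card V : ℝ) * P c + j) ^ 2) =
      ∑ cb : V ⧸ K, ∑ c : V, (if K.mkQ c = cb then
        (if cb = 0 then 0 else ((Fintype.card V : ℝ) * P c + j) ^ 2) else 0) := by
    rw [Finset.sum_comm]
    apply Finset.sum_congr rfl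
    intro c _
    rw [Finset.sum_eq_single (K.mkQ c)]
    · rw [if_pos rfl]
      have h3 : K.mkQ c = 0 ↔ c ∈ K := by
        rw [Submodule.mkQ_apply, Submodule.Quotient.mk_eq_zero]
      by_cases hc : c ∈ K
      · rw [if_pos hc, if_pos (h3.2 hc)]
      · rw [if_neg hc, if_neg (fun h4 => hc (h3.1 h4))]
    · intro b _ hb
      rw [if_neg (Ne.symm hb)]
    · intro h5
      exact absurd (Finset.mem_univ _) h5
  rw [h2, Finset.mul_sum]
  apply Finset.sum_le_sum
  intro cb _
  by_cases hcb : cb = 0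
  · rw [if_pos hcb, mul_zero]
    apply le_of_eq
    apply Finset.sum_eq_zero
    intro c _
    rw [if_pos hcb, ite_self]
  · rw [if_neg hcb]
    have h4 : ∑ c : V, (if K.mkQ c = cb then
        (if cb = 0 then 0 else ((Fintype.card V : ℝ) * P c + j) ^ 2) else 0) =
        ∑ c : V, (if K.mkQ c = cb then ((Fintype.card V : ℝ) * P c + j) else 0) ^ 2 := by
      apply Finset.sum_congr rfl
      intro c _
      by_cases hc : K.mkQ c = cb
      · rw [if_pos hc, if_pos hc, if_neg hcb]
      · rw [if_neg hc, if_neg hc]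
        simp
    rw [h4]
    have h5 : ∑ c : V, (if K.mkQ c = cb then ((Fintype.card V : ℝ) * P c + j) else 0) ^ 2 ≤
        (∑ c : V, (if K.mkQ c = cb then ((Fintype.card V : ℝ) * P c + j) else 0)) ^ 2 := by
      apply Finset.sum_sq_le_sq_sum_of_nonneg
      intro c _
      by_cases hc : K.mkQ c = cb
      · rw [if_pos hc]
        exact h.low c
      · rw [if_neg hc]
    refine le_trans h5 (le_of_eq ?_)
    have h6 : ∑ c : V, (if K.mkQ c = cb then ((Fintype.card V : ℝ) * P c + j) else 0) =
        (Fintype.card K : ℝ) * ((Fintype.card (V ⧸ K) : ℝ) * aq P K cb + j) := by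
      have h7 : ∑ c : V, (if K.mkQ c = cb then ((Fintype.card V : ℝ) * P c + j) else 0) =
          (Fintype.card V : ℝ) * aq P K cb +
            j * ∑ c : V, (if K.mkQ c = cb then (1 : ℝ) else 0) := by
        unfold aq
        rw [Finset.mul_sum, Finset.mul_sum, ← Finset.sum_add_distrib]
        apply Finset.sum_congr rfl
        intro c _
        by_cases hc : K.mkQ c = cb
        · rw [if_pos hc, if_pos hc, if_pos hc, mul_one]
        · rw [if_neg hc, if_neg hc, if_neg hc]
          simp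
      rw [h7, fib_card K cb, card_quot K]
      ring
    rw [h6, mul_pow]

end Pool.Agent.OSD
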