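import Pool.Agent.OSD.Defs

open Finset Module

namespace Pool.Agent.OSD

open Pool.Agent.GapCodes Pool.Agent.LLog

attribute [local instance] fintypeDual

variable {F : Type} [Field F] [Fintype F] {V : Type} [AddCommGroup V] [Module F V] [Fintype V]
variable {ψ : AddChar F ℂ} {j : ℕ} {P : V → ℝ} {f : Module.Dual F V → ℝ}

private theorem ful_coef (hψ : ψ ≠ 0) (h : Pool.Agent.LLog.Rep ψ P f) (c : V) :
    ∑ x, ((f x : ℝ) : ℂ) * ch ψ (-c) x = (Fintype.card V : ℂ) * P c := by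
  classical
  simp_rw [h _, Finset.sum_mul]
  rw [Finset.sum_comm]
  have h1 : ∀ c' : V, ∑ x : Module.Dual F V, (P c' : ℂ) * ch ψ c' x * ch ψ (-c) x =
      if c' = c then (Fintype.card V : ℂ) * P c else 0 := by
    intro c'
    simp_rw [mul_assoc, ← ch_add]
    rw [← Finset.mul_sum, sum_ch ψ hψ]
    by_cases hc : c' = c
    · subst hc; simp [mul_comm]
    · rw [if_neg, if_neg hc, mul_zero]
      intro h0
      apply hc
      rwa [← sub_eq_add_neg, sub_eq_zero] at h0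
  simp_rw [h1]
  simp

open Classical in
private theorem ful_orth (hψ : ψ ≠ 0) (w : Module.Dual F V) :
    ∑ c : V, ch ψ (-c) w = if w = 0 then (Fintype.card V : ℂ) else 0 := by
  have h1 := Rep.delta (F := F) (V := V) hψ w
  have h2 : (Fintype.card V : ℂ) ≠ 0 := by
    have := (Fintype.card_pos : 0 < Fintype.card V)
    exact_mod_cast this.ne'
  rw [← Finset.mul_sum] at h1
  have h4 : ∑ c : V, ch ψ (-c) w = ∑ c : V, ch ψ c w :=
    Equiv.sum_comp (Equiv.neg V) (fun c => ch ψ c w)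
  rw [h4]
  have h3 : ∑ c : V, ch ψ c w = (Fintype.card V : ℂ) * (((if w = 0 then 1 else 0 : ℝ)) : ℂ) := by
    rw [h1]
    push_cast
    rw [← mul_assoc, mul_one_div_cancel h2, one_mul]
  rw [h3]
  split_ifs <;> simp

private theorem ful_cube (hψ : ψ ≠ 0) (h : Pool.Agent.LLog.Rep ψ P f) (hf : ∀ x, 0 ≤ f x) :
    0 ≤ ∑ c, ((Fintype.card V : ℝ) * P c) ^ 3 := by
  classical
  have h1 : ((∑ c, ((Fintype.card V : ℝ) * P c) ^ 3 : ℝ) : ℂ) =
      ((∑ x, ∑ y, ∑ z, f x * f y * f z *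
        (if x + y + z = 0 then (Fintype.card V : ℝ) else 0) : ℝ) : ℂ) := by
    push_cast
    have h2 : ∀ c : V, ((Fintype.card V : ℂ) * (P c : ℂ)) ^ 3 =
        ∑ x, ∑ y, ∑ z, (((f x : ℝ) : ℂ) * ((f y : ℝ) : ℂ) * ((f z : ℝ) : ℂ)) *
          ch ψ (-c) (x + y + z) := by
      intro c
      rw [← ful_coef hψ h c, pow_three', Finset.sum_mul_sum, Finset.sum_mul]
      refine Finset.sum_congr rfl fun x _ => ?_
      rw [Finset.sum_mul]
      refine Finset.sum_congr rfl fun y _ => ?_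
      rw [Finset.mul_sum]
      refine Finset.sum_congr rfl fun z _ => ?_
      rw [ch_add_right, ch_add_right]
      ring
    simp_rw [h2]
    rw [Finset.sum_comm]
    refine Finset.sum_congr rfl fun x _ => ?_
    rw [Finset.sum_comm]
    refine Finset.sum_congr rfl fun y _ => ?_
    rw [Finset.sum_comm]
    refine Finset.sum_congr rfl fun z _ => ?_
    rw [← Finset.mul_sum, ful_orth hψ]
    split_ifs <;> simp
  have h3 := Complex.ofReal_injective h1
  rw [h3]
  refine Finset.sum_nonneg fun x _ => Finset.sum_nonneg fun y _ => Finset.sum_nonneg fun z _ => ?_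
  refine mul_nonneg (mul_nonneg (mul_nonneg (hf x) (hf y)) (hf z)) ?_
  split_ifs
  · exact Nat.cast_nonneg _
  · exact le_rfl

private theorem ful_pt (j β : ℝ) (hj : 0 ≤ j) (hβ : β ≤ j) :
    4 * (j + 1) * β ^ 2 ≤ 4 * (j + 1) ^ 2 * (2 * j - β) + 2 * j * β ^ 2 - β ^ 3 := by
  rcases le_total 0 β with h | h
  · have h1 : 0 ≤ (2 * j - 2 * β) * (4 * (j + 1) ^ 2 + β ^ 2) :=
      mul_nonneg (by linarith) (by positivity)
    have h2 : 0 ≤ β * (2 * (j + 1) - β) ^ 2 := mul_nonneg h (sq_nonneg _)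
    nlinarith [h1, h2]
  · have h1 : 0 ≤ 2 * j * (4 * (j + 1) ^ 2) := by positivity
    have h2 : 0 ≤ 2 * j * β ^ 2 := by positivity
    have h3 : 0 ≤ (-β) * (2 * (j + 1) + β) ^ 2 := mul_nonneg (by linarith) (sq_nonneg _)
    nlinarith [h1, h2, h3]

/-- FUL -/
theorem cone_full (hψ : ψ ≠ 0) (h : Cone ψ j P f)
    (hn : 2 * (∑ x, (1 - f x)) ^ 2 ≤ Fintype.card V) :
    ∑ x, (1 - f x) ≤ 8 * ((j : ℝ) + 1) ^ 2 := by
  classical
  have hg := (Rep.const (F := F) (V := V) ψ 1).sub h.rep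
  have hM0 : (0 : ℝ) < Fintype.card V := card_pos' V
  have hj : (0 : ℝ) ≤ j := Nat.cast_nonneg j
  have hg0 : ∀ x, 0 ≤ 1 - f x := by
    intro x
    rcases h.ind x with h1 | h1 <;> rw [h1] <;> norm_num
  have hg1 : ∀ x, 1 - f x ≤ 1 := by
    intro x
    rcases h.ind x with h1 | h1 <;> rw [h1] <;> norm_num
  have hb01 : ∑ x, (1 - f x) = 0 ∨ 1 ≤ ∑ x, (1 - f x) := by
    by_cases hx : ∃ x, f x = 0
    · right
      obtain ⟨x, hx⟩ := hx
      have h1 := Finset.single_le_sum (f := fun x => 1 - f x) (fun y _ => hg0 y)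
        (Finset.mem_univ x)
      rw [hx] at h1
      linarith
    · left
      push Not at hx
      refine Finset.sum_eq_zero fun x _ => ?_
      rcases h.ind x with h1 | h1
      · exact absurd h1 (hx x)
      · rw [h1]; ring
  have hbM : ∑ x, (1 - f x) ≤ Fintype.card V := by
    calc ∑ x, (1 - f x) ≤ ∑ _x : Module.Dual F V, (1 : ℝ) := Finset.sum_le_sum fun x _ => hg1 x
      _ = Fintype.card V := by
        rw [Finset.sum_const, Finset.card_univ, card_dual, nsmul_eq_mul, mul_one]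
  have hβ0 := hg.mean hψ
  have hsum := hg.at_zero
  have hsq := hg.parseval hψ
  have hcube := ful_cube hψ hg hg0
  rw [h.one, sub_self] at hsum
  have hsq2 : ∑ x, (1 - f x) ^ 2 = ∑ x, (1 - f x) := by
    refine Finset.sum_congr rfl fun x _ => ?_
    rcases h.ind x with h1 | h1 <;> rw [h1] <;> norm_num
  rw [hsq2] at hsq
  generalize hb : ∑ x, (1 - f x) = b at *
  obtain ⟨β, hβ⟩ : ∃ β : V → ℝ, β = fun c => (Fintype.card V : ℝ) *
    ((if c = 0 then 1 else 0) - P c) := ⟨_, rfl⟩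
  have e0 : β 0 = b := by rw [hβ]; exact hβ0
  have e1 : ∑ c, β c = 0 := by
    rw [hβ, ← Finset.mul_sum, ← hsum, mul_zero]
  have e2 : ∑ c, β c ^ 2 = Fintype.card V * b := by
    rw [← hsq, hβ]
    simp_rw [mul_pow]
    rw [← Finset.mul_sum]
    ring
  have e3 : 0 ≤ ∑ c, β c ^ 3 := by rw [hβ]; exact hcube
  have hle : ∀ c ∈ Finset.univ.erase (0 : V), β c ≤ j := by
    intro c hc
    have hc0 : c ≠ 0 := (Finset.mem_erase.1 hc).1
    have h1 := h.low c
    rw [hβ]
    simp only [hc0, if_false]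
    linarith
  have t1 : ∑ c ∈ Finset.univ.erase (0 : V), β c = -b := by
    have h1 := Finset.add_sum_erase Finset.univ β (Finset.mem_univ (0 : V))
    rw [e0, e1] at h1
    linarith
  have t2 : ∑ c ∈ Finset.univ.erase (0 : V), β c ^ 2 = Fintype.card V * b - b ^ 2 := by
    have h1 := Finset.add_sum_erase Finset.univ (fun c => β c ^ 2) (Finset.mem_univ (0 : V))
    rw [e0, e2] at h1
    linarith
  have t3 : -(b ^ 3) ≤ ∑ c ∈ Finset.univ.erase (0 : V), β c ^ 3 := by
    have h1 := Finset.add_sum_erase Finset.univ (fun c => β c ^ 3) (Finset.mem_univ (0 : V))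
    rw [e0] at h1
    linarith
  have hcard : ((Finset.univ.erase (0 : V)).card : ℝ) ≤ Fintype.card V := by
    exact_mod_cast (Finset.card_le_univ _)
  have key := Finset.sum_le_sum fun c hc => ful_pt (j : ℝ) (β c) hj (hle c hc)
  rw [Finset.sum_sub_distrib, Finset.sum_add_distrib, ← Finset.mul_sum, ← Finset.mul_sum,
    ← Finset.mul_sum, Finset.sum_sub_distrib, Finset.sum_const, nsmul_eq_mul, t1, t2] at key
  generalize (Fintype.card V : ℝ) = M at *
  generalize ((Finset.univ.erase (0 : V)).card : ℝ) = M' at *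
  rcases hb01 with h0 | h1b
  · rw [h0]
    positivity
  · have hb3 : b ^ 3 ≤ M * b - b ^ 2 := by
      have h1 : b ^ 3 ≤ M * b / 2 := by nlinarith
      have h2 : b ^ 2 ≤ M * b / 2 := by nlinarith
      linarith
    have hs2 : M * b / 2 ≤ M * b - b ^ 2 := by nlinarith
    have hk : (2 * j + 3 : ℝ) * (M * b - b ^ 2) ≤ 4 * (j + 1 : ℝ) ^ 2 * ((2 * j + 1) * M) := by
      have h4 : 4 * (j + 1 : ℝ) ^ 2 * (M' * (2 * j) - -b) ≤
          4 * (j + 1 : ℝ) ^ 2 * ((2 * j + 1) * M) := by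
        apply mul_le_mul_of_nonneg_left _ (by positivity)
        nlinarith
      nlinarith
    have hk2 : (2 * j + 1 : ℝ) * (M * b - b ^ 2) ≤ 4 * (j + 1 : ℝ) ^ 2 * ((2 * j + 1) * M) := by
      have : 0 ≤ M * b - b ^ 2 := by nlinarith
      nlinarith
    have hk3 : M * b - b ^ 2 ≤ 4 * (j + 1 : ℝ) ^ 2 * M := by
      have h5 : (0 : ℝ) < 2 * j + 1 := by positivity
      refine le_of_mul_le_mul_left ?_ h5
      calc (2 * j + 1 : ℝ) * (M * b - b ^ 2) ≤ 4 * (j + 1 : ℝ) ^ 2 * ((2 * j + 1) * M) := hk2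
        _ = (2 * j + 1 : ℝ) * (4 * (j + 1 : ℝ) ^ 2 * M) := by ring
    refine le_of_mul_le_mul_left (?_ : M * b ≤ M * (8 * ((j : ℝ) + 1) ^ 2)) hM0
    linarith

end Pool.Agent.OSD
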