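import Mathlib

/-!
The number of hyperplanes.
-/

set_option autoImplicit false

open Finset Module

namespace Pool.Agent.OSD

private theorem hyp_aux (F : Type) [Field F] (n : ℕ) (H : Submodule F (Fin (n + 1) → F))
    (hH : finrank F H = n) : ∃ f : (Fin (n + 1) → F) →ₗ[F] F, LinearMap.ker f = H := by
  have htop : H < ⊤ := by
    rw [lt_top_iff_ne_top]
    intro h
    rw [h, finrank_top, Module.finrank_fin_fun] at hH
    omega
  obtain ⟨f, hf, hle⟩ := Submodule.exists_le_ker_of_lt_top H htop
  refine ⟨f, ?_⟩
  have h1 := LinearMap.finrank_range_add_finrank_ker f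
  have h2 : finrank F (LinearMap.range f) = 1 := by
    have h3 : LinearMap.range f = ⊤ := LinearMap.range_eq_top.2 (LinearMap.surjective hf)
    rw [h3, finrank_top, Module.finrank_self]
  rw [Module.finrank_fin_fun, h2] at h1
  exact (Submodule.eq_of_le_of_finrank_le hle (by omega)).symm

/-- HYP: number of hyperplanes. -/
theorem hyp_card (F : Type) [Field F] [Fintype F] (n : ℕ) :
    Nat.card {H : Submodule F (Fin (n + 1) → F) // finrank F H = n} ≤
      2 ^ (Fintype.card F * (n + 1)) := by
  classical
  choose f hf using hyp_aux F n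
  let Φ : {H : Submodule F (Fin (n + 1) → F) // finrank F H = n} → (Fin (n + 1) → F) :=
    fun H i => f H.1 H.2 (Pi.single i 1)
  have hinj : Function.Injective Φ := by
    intro H H' h
    have h1 : f H.1 H.2 = f H'.1 H'.2 := by
      refine LinearMap.pi_ext' fun i => LinearMap.ext_ring ?_
      exact congrFun h i
    have h2 : H.1 = H'.1 := by rw [← hf H.1 H.2, ← hf H'.1 H'.2, h1]
    exact Subtype.ext h2
  have h3 := Nat.card_le_card_of_injective Φ hinj
  refine h3.trans ?_
  rw [Nat.card_eq_fintype_card, Fintype.card_fun, Fintype.card_fin, pow_mul]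
  exact Nat.pow_le_pow_left Nat.lt_two_pow_self.le _

end Pool.Agent.OSD
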