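import Pool.Agent.OSD.Defs
import Pool.Agent.helper17.Gap8
import Pool.Agent.Strip.MinihyperFinal

/-!
# From point sets to cones, exact form of the distance
-/

open Finset Module
open scoped LinearAlgebra.Projectivization

namespace Pool.Agent.OSD

open Pool.Agent.GapCodes Pool.Agent.LLog Pool.Agent.NearPlotkin Pool.Agent.Strip.MH

attribute [local instance] fintypeDual

variable {F : Type} [Field F] [Fintype F] {V : Type} [AddCommGroup V] [Module F V] [Fintype V]
variable {ψ : AddChar F ℂ} {j : ℕ} {P : V → ℝ} {f : Module.Dual F V → ℝ}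

open Classical in
private theorem ln4_alF {ι : Type} [Fintype ι] (e : ι → Module.Dual F V) (c : V) :
    (Fintype.card V : ℝ) * (1 / (Fintype.card V : ℝ) + (if c = 0 then 1 else 0) - alF e 0 c)
      = 1 + gS e univ c := by
  have hM := card_pos' V
  unfold alF
  have h1 : (Fintype.card V : ℝ) ≠ 0 := hM.ne'
  by_cases hc : c = 0
  · rw [if_pos hc, if_pos hc]
    push_cast
    field_simp
    ring
  · rw [if_neg hc, if_neg hc]
    push_cast
    field_simp
    ring

open Classical in
private theorem ln4_rep (hψ : ψ ≠ 0) {ι : Type} [Fintype ι] (e : ι → Module.Dual F V) :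
    Rep ψ (fun c => 1 / (Fintype.card V : ℝ) + (if c = 0 then 1 else 0) - alF e 0 c)
      (fun x => (if x = 0 then (1 : ℝ) else 0) + mu e x) := by
  have hR : Rep ψ (alF e 0) (fun x => ((nuF e 0 x : ℤ) : ℝ)) := by
    intro x
    have h := nuF_rep ψ hψ e 0 x
    push_cast at h ⊢
    exact h
  have h1 := ((Rep.delta (V := V) hψ).add (Rep.const ψ 1)).sub hR
  have h2 : (fun x : Module.Dual F V => (if x = 0 then (1 : ℝ) else 0) + (mu e x : ℝ))
      = fun x => ((if x = 0 then (1 : ℝ) else 0) + 1) - ((nuF e 0 x : ℤ) : ℝ) := by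
    funext x
    unfold nuF
    push_cast
    simp
    ring
  rw [h2]
  exact h1

open Classical in
/-- LN4: from point sets to cones, exact form of the distance. -/
theorem pg_cone4 (hψ : ψ ≠ 0) (n : ℕ) [Fintype (ℙ F (Fin (n + 1) → F))]
    (U : Finset (ℙ F (Fin (n + 1) → F)))
    (hU : ∀ H : Submodule F (Fin (n + 1) → F), finrank F H = n →
      #U ≤ Fintype.card F * #(U.filter (fun p => p.submodule ≤ H)) + j) :
    ∃ (P : (Fin (n + 1) → F) → ℝ) (f : Module.Dual F (Fin (n + 1) → F) → ℝ),
      Cone ψ j P f ∧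
      ∑ x, f x = ((Fintype.card F : ℝ) - 1) * #U + 1 ∧
      ∀ W : Submodule F (Module.Dual F (Fin (n + 1) → F)),
        ∃ W' : Submodule F (Fin (n + 1) → F),
          ((Fintype.card F : ℝ) - 1) *
            (#((U \ univ.filter (fun p => p.submodule ≤ W')) ∪
            (univ.filter (fun p => p.submodule ≤ W') \ U)) : ℝ) =
          ∑ x, |f x - (if x ∈ W then 1 else 0)| := by
  obtain ⟨D, hD⟩ : ∃ D : (Fin (n + 1) → F) ≃ₗ[F] Module.Dual F (Fin (n + 1) → F),
      ∀ v w, D v w = v ⬝ᵥ w := ⟨dotProductEquiv F (Fin (n + 1)), fun v w => rfl⟩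
  obtain ⟨e, he⟩ : ∃ e : {p // p ∈ U} → Module.Dual F (Fin (n + 1) → F),
      ∀ p, e p = D p.1.rep := ⟨fun p => D p.1.rep, fun p => rfl⟩
  have hinj : ∀ (p p' : ℙ F (Fin (n + 1) → F)) (a a' : F), a ≠ 0 → a • D p.rep = a' • D p'.rep →
      p = p' ∧ a = a' := by
    intro p p' a a' ha h
    rw [← map_smul, ← map_smul] at h
    exact mh_inj ha (D.injective h)
  have hne : ∀ p : ℙ F (Fin (n + 1) → F), D p.rep ≠ 0 := fun p h =>
    p.rep_nonzero (D.map_eq_zero_iff.1 h)
  have hrep := ln4_rep hψ e
  have hcard : Fintype.card {p // p ∈ U} = #U := Fintype.card_coe U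
  -- the values
  have hmu : ∀ x, ((if x = 0 then (1 : ℝ) else 0) + (mu e x : ℝ)) =
      if (x = 0 ∨ ∃ p ∈ U, ∃ a : F, a ≠ 0 ∧ x = a • D p.rep) then 1 else 0 := by
    intro x
    by_cases hx : x = 0
    · have h1 : mu e x = 0 := by
        unfold mu
        rw [Finset.card_eq_zero, Finset.filter_eq_empty_iff]
        rintro ⟨i, a⟩ hp h0
        rw [Finset.mem_product] at hp
        have ha : a ≠ 0 := Finset.ne_of_mem_erase hp.2
        rw [hx, add_zero] at h0
        rcases smul_eq_zero.mp h0 with h2 | h2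
        · exact ha h2
        · rw [he] at h2
          exact hne _ h2
      rw [if_pos hx, h1, if_pos (Or.inl hx)]
      simp
    · rw [if_neg hx, zero_add]
      by_cases hS : ∃ p ∈ U, ∃ a : F, a ≠ 0 ∧ x = a • D p.rep
      · rw [if_pos (Or.inr hS)]
        obtain ⟨p, hp, a, ha, hxa⟩ := hS
        have h1 : mu e x = 1 := by
          unfold mu
          rw [Finset.card_eq_one]
          refine ⟨(⟨p, hp⟩, -a), ?_⟩
          ext ⟨i, b⟩
          rw [Finset.mem_filter, Finset.mem_product, Finset.mem_singleton]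
          constructor
          · rintro ⟨⟨_, hb⟩, h2⟩
            have hb' : b ≠ 0 := Finset.ne_of_mem_erase hb
            have h3 : b • D i.1.rep = (-a) • D p.rep := by
              have h4 : b • e i + x = 0 := h2
              rw [he, hxa] at h4
              exact (eq_neg_of_add_eq_zero_left h4).trans (neg_smul a (D p.rep)).symm
            obtain ⟨h5, h6⟩ := hinj _ _ _ _ hb' h3
            rw [h6]
            exact Prod.ext (Subtype.ext h5) rfl
          · rintro h2
            rw [Prod.mk.injEq] at h2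
            obtain ⟨rfl, rfl⟩ := h2
            refine ⟨⟨Finset.mem_univ _, Finset.mem_erase.2 ⟨neg_ne_zero.2 ha, Finset.mem_univ _⟩⟩, ?_⟩
            show (-a) • e ⟨p, hp⟩ + x = 0
            rw [he, hxa]
            exact (congrArg (fun t => t + a • D p.rep) (neg_smul a (D p.rep))).trans
              (neg_add_cancel _)
        rw [h1]
        simp
      · rw [if_neg (fun h => h.elim hx hS)]
        have h1 : mu e x = 0 := by
          unfold mu
          rw [Finset.card_eq_zero, Finset.filter_eq_empty_iff]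
          rintro ⟨i, a⟩ hp h0
          rw [Finset.mem_product] at hp
          have ha : a ≠ 0 := Finset.ne_of_mem_erase hp.2
          apply hS
          refine ⟨i.1, i.2, -a, neg_ne_zero.2 ha, ?_⟩
          have h4 : a • e i + x = 0 := h0
          rw [he] at h4
          exact (eq_neg_of_add_eq_zero_right h4).trans (neg_smul a (D i.1.rep)).symm
        rw [h1]
        simp
  refine ⟨_, _, ⟨hrep, ?_, ?_, ?_, ?_⟩, ?_, ?_⟩
  · intro c
    rw [ln4_alF]
    by_cases hc : c = 0
    · subst hc
      rw [gS_zero]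
      have h1 : (1 : ℝ) ≤ Fintype.card F := by exact_mod_cast Fintype.card_pos
      have h2 : (0 : ℝ) ≤ ((Fintype.card F : ℝ) - 1) * Fintype.card {p // p ∈ U} :=
        mul_nonneg (by linarith) (by positivity)
      positivity
    · rw [gS_univ]
      have hDc : D c ≠ 0 := fun h => hc (D.map_eq_zero_iff.1 h)
      have h1 : finrank F (LinearMap.ker (D c)) = n := by
        have h2 := Module.Dual.finrank_ker_add_one_of_ne_zero hDc
        rw [Module.finrank_fin_fun] at h2
        omega
      have h2 := hU _ h1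
      have h3 : zc e c = #(U.filter (fun p => p.submodule ≤ LinearMap.ker (D c))) := by
        unfold zc
        rw [← Finset.card_map (Function.Embedding.subtype (fun p => p ∈ U))]
        congr 1
        ext p
        simp only [Finset.mem_map, Finset.mem_filter, Finset.mem_univ, true_and,
          Function.Embedding.subtype_apply]
        constructor
        · rintro ⟨i, hi, rfl⟩
          refine ⟨i.2, ?_⟩
          rw [mh_le_iff, LinearMap.mem_ker, hD, dotProduct_comm, ← hD, ← he]
          exact hi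
        · rintro ⟨hp, hp2⟩
          refine ⟨⟨p, hp⟩, ?_, rfl⟩
          rw [mh_le_iff, LinearMap.mem_ker, hD, dotProduct_comm, ← hD] at hp2
          rw [he]
          exact hp2
      rw [h3, hcard]
      have h4 : (#U : ℝ) ≤ (Fintype.card F : ℝ) *
          #(U.filter (fun p => p.submodule ≤ LinearMap.ker (D c))) + j := by exact_mod_cast h2
      linarith
  · intro x
    rw [hmu]
    by_cases h : (x = 0 ∨ ∃ p ∈ U, ∃ a : F, a ≠ 0 ∧ x = a • D p.rep)
    · rw [if_pos h]
      exact Or.inr rfl
    · rw [if_neg h]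
      exact Or.inl rfl
  · rw [hmu, if_pos (Or.inl rfl)]
  · intro a ha x
    rw [hmu, hmu]
    have h1 : (a • x = 0 ∨ ∃ p ∈ U, ∃ b : F, b ≠ 0 ∧ a • x = b • D p.rep) ↔
        (x = 0 ∨ ∃ p ∈ U, ∃ b : F, b ≠ 0 ∧ x = b • D p.rep) := by
      constructor
      · rintro (h | ⟨p, hp, b, hb, h⟩)
        · exact Or.inl ((smul_eq_zero.1 h).resolve_left ha)
        · refine Or.inr ⟨p, hp, a⁻¹ * b, mul_ne_zero (inv_ne_zero ha) hb, ?_⟩
          rw [mul_smul, ← h, smul_smul, inv_mul_cancel₀ ha, one_smul]
      · rintro (h | ⟨p, hp, b, hb, h⟩)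
        · exact Or.inl (by rw [h, smul_zero])
        · exact Or.inr ⟨p, hp, a * b, mul_ne_zero ha hb, by rw [h, smul_smul]⟩
    exact if_congr h1 rfl rfl
  · have h1 := hrep.mean hψ
    rw [ln4_alF, gS_zero, hcard] at h1
    linarith
  · intro W
    refine ⟨W.comap D.toLinearMap, ?_⟩
    obtain ⟨S, hS⟩ : ∃ S, S = (U \ univ.filter (fun p => p.submodule ≤ W.comap D.toLinearMap)) ∪
            (univ.filter (fun p => p.submodule ≤ W.comap D.toLinearMap) \ U) := ⟨_, rfl⟩
    rw [← hS]
    obtain ⟨g, hg⟩ : ∃ g : Module.Dual F (Fin (n + 1) → F) → ℝ, ∀ x, g x =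
        |((if x = 0 then (1 : ℝ) else 0) + (mu e x : ℝ)) - (if x ∈ W then 1 else 0)| :=
      ⟨_, fun x => rfl⟩
    have hg' : ∑ x, |((if x = 0 then (1 : ℝ) else 0) + (mu e x : ℝ)) -
        (if x ∈ W then 1 else 0)| = ∑ x, g x := Finset.sum_congr rfl (fun x _ => (hg x).symm)
    show _ = ∑ x, |((if x = 0 then (1 : ℝ) else 0) + (mu e x : ℝ)) - (if x ∈ W then 1 else 0)|
    rw [hg']
    have hWs : ∀ (a : F) (x : Module.Dual F (Fin (n + 1) → F)), a ≠ 0 →
        (a • x ∈ W ↔ x ∈ W) := by
      intro a x ha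
      exact W.smul_mem_iff ha
    have hin : ∀ (p : ℙ F (Fin (n + 1) → F)) (a : F), a ≠ 0 →
        ((a • D p.rep = 0 ∨ ∃ p' ∈ U, ∃ b : F, b ≠ 0 ∧ a • D p.rep = b • D p'.rep) ↔ p ∈ U) := by
      intro p a ha
      constructor
      · rintro (h | ⟨p', hp', b, hb, h⟩)
        · exact absurd ((smul_eq_zero.1 h).resolve_left ha) (hne p)
        · have h6 := hinj p p' a b ha h
          rw [h6.1]
          exact hp'
      · intro hp
        exact Or.inr ⟨p, hp, a, ha, rfl⟩
    have hval : ∀ (p : ℙ F (Fin (n + 1) → F)) (a : F), a ≠ 0 →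
        g (a • D p.rep) = |(if p ∈ U then (1 : ℝ) else 0) - (if D p.rep ∈ W then 1 else 0)| := by
      intro p a ha
      rw [hg, hmu]
      rw [if_congr (hin p a ha) rfl rfl, if_congr (hWs a (D p.rep) ha) rfl rfl]
    have hSmem : ∀ p, p ∈ S ↔ ¬ (p ∈ U ↔ D p.rep ∈ W) := by
      intro p
      have h0 : (p.submodule ≤ W.comap D.toLinearMap) ↔ D p.rep ∈ W := by
        rw [mh_le_iff]
        rfl
      rw [hS, Finset.mem_union, Finset.mem_sdiff, Finset.mem_sdiff, Finset.mem_filter, h0]
      simp only [Finset.mem_univ, true_and]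
      tauto
    have hinjOn : Set.InjOn (fun z : ℙ F (Fin (n + 1) → F) × F => z.2 • D z.1.rep)
        (S ×ˢ (univ.filter (fun a : F => a ≠ 0)) : Finset _) := by
      rintro ⟨p, a⟩ hz ⟨p', a'⟩ _ h
      rw [Finset.mem_coe, Finset.mem_product, Finset.mem_filter] at hz
      have h6 := hinj p p' a a' hz.2.2 h
      exact Prod.ext h6.1 h6.2
    have hsub : ∑ x ∈ (S ×ˢ (univ.filter (fun a : F => a ≠ 0))).image
        (fun z : ℙ F (Fin (n + 1) → F) × F => z.2 • D z.1.rep), g x = ∑ x, g x := by
      refine Finset.sum_subset (Finset.subset_univ _) ?_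
      intro x _ hx
      by_cases hx0 : x = 0
      · subst hx0
        rw [hg, hmu, if_pos (Or.inl rfl), if_pos W.zero_mem]
        norm_num
      · have hy : D.symm x ≠ 0 := fun h => hx0 (D.symm.map_eq_zero_iff.1 h)
        obtain ⟨a, ha⟩ := Projectivization.exists_smul_eq_mk_rep F (D.symm x) hy
        have ha' : (a : F) • (D.symm x) = (Projectivization.mk F (D.symm x) hy).rep := ha
        obtain ⟨p, hp⟩ : ∃ p, p = Projectivization.mk F (D.symm x) hy := ⟨_, rfl⟩
        rw [← hp] at ha'
        have hxa : x = ((a : F))⁻¹ • D p.rep := by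
          rw [← ha', map_smul, D.apply_symm_apply, smul_smul, inv_mul_cancel₀ a.ne_zero, one_smul]
        have hpS : p ∉ S := by
          intro hpS
          apply hx
          rw [Finset.mem_image]
          exact ⟨(p, ((a : F))⁻¹), Finset.mem_product.2 ⟨hpS, Finset.mem_filter.2
            ⟨Finset.mem_univ _, inv_ne_zero a.ne_zero⟩⟩, hxa.symm⟩
        rw [hSmem, not_not] at hpS
        rw [hxa, hval p _ (inv_ne_zero a.ne_zero), if_congr hpS rfl rfl, sub_self, abs_zero]
    rw [← hsub, Finset.sum_image hinjOn]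
    have hone : ∀ z ∈ S ×ˢ (univ.filter (fun a : F => a ≠ 0)), g (z.2 • D z.1.rep) = 1 := by
      rintro ⟨p, a⟩ hz
      rw [Finset.mem_product, Finset.mem_filter, hSmem] at hz
      obtain ⟨h1, _, h2⟩ := hz
      show g (a • D p.rep) = 1
      rw [hval p a h2]
      by_cases h3 : p ∈ U
      · have h4 : D p.rep ∉ W := fun h => h1 ⟨fun _ => h, fun _ => h3⟩
        rw [if_pos h3, if_neg h4]
        norm_num
      · have h4 : D p.rep ∈ W := by
          by_contra h
          exact h1 ⟨fun h' => absurd h' h3, fun h' => absurd h' h⟩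
        rw [if_neg h3, if_pos h4]
        norm_num
    rw [Finset.sum_congr rfl hone, Finset.sum_const, nsmul_eq_mul, mul_one, Finset.card_product,
      Finset.filter_ne' univ (0 : F), Finset.card_erase_of_mem (Finset.mem_univ _),
      Finset.card_univ]
    rw [Nat.cast_mul, Nat.cast_sub Fintype.card_pos, Nat.cast_one, mul_comm]

end Pool.Agent.OSD
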