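import Pool.Agent.OSD.Defs
import Pool.Agent.helper17.Gap8
import Pool.Agent.Strip.MinihyperFinal

/-!
# From point sets to cones
-/

open Finset Module
open scoped LinearAlgebra.Projectivization

namespace Pool.Agent.OSD

open Pool.Agent.GapCodes Pool.Agent.LLog Pool.Agent.NearPlotkin Pool.Agent.Strip.MH

attribute [local instance] fintypeDual

variable {F : Type} [Field F] [Fintype F] {V : Type} [AddCommGroup V] [Module F V] [Fintype V]
variable {ψ : AddChar F ℂ} {j : ℕ} {P : V → ℝ} {f : Module.Dual F V → ℝ}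

open Classical in
private theorem lnk_alF {ι : Type} [Fintype ι] (e : ι → Module.Dual F V) (c : V) :
    (Fintype.card V : ℝ) * (1 / (Fintype.card V : ℝ) + (if c = 0 then 1 else 0) - alF e 0 c)
      = 1 + gS e univ c := by
  have hM := card_pos' V
  unfold alF
  have h1 : (Fintype.card V : ℝ) ≠ 0 := hM.ne'
  by_cases hc : c = 0
  · rw [if_pos hc, if_pos hc]
    push_cast
    field_simp
    ring
  · rw [if_neg hc, if_neg hc]
    push_cast
    field_simp
    ring

open Classical in
private theorem lnk_rep (hψ : ψ ≠ 0) {ι : Type} [Fintype ι] (e : ι → Module.Dual F V) :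
    Rep ψ (fun c => 1 / (Fintype.card V : ℝ) + (if c = 0 then 1 else 0) - alF e 0 c)
      (fun x => (if x = 0 then (1 : ℝ) else 0) + mu e x) := by
  have hR : Rep ψ (alF e 0) (fun x => ((nuF e 0 x : ℤ) : ℝ)) := by
    intro x
    have h := nuF_rep ψ hψ e 0 x
    push_cast at h ⊢
    exact h
  have h1 := ((Rep.delta (V := V) hψ).add (Rep.const ψ 1)).sub hR
  have h2 : (fun x : Module.Dual F V => (if x = 0 then (1 : ℝ) else 0) + (mu e x : ℝ))
      = fun x => ((if x = 0 then (1 : ℝ) else 0) + 1) - ((nuF e 0 x : ℤ) : ℝ) := by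
    funext x
    unfold nuF
    push_cast
    simp
    ring
  rw [h2]
  exact h1

open Classical in
/-- LNK: from point sets to cones -/
theorem pg_cone (hψ : ψ ≠ 0) (n : ℕ) [Fintype (ℙ F (Fin (n + 1) → F))]
    (U : Finset (ℙ F (Fin (n + 1) → F)))
    (hU : ∀ H : Submodule F (Fin (n + 1) → F), finrank F H = n →
      #U ≤ Fintype.card F * #(U.filter (fun p => p.submodule ≤ H)) + j) :
    ∃ (P : (Fin (n + 1) → F) → ℝ) (f : Module.Dual F (Fin (n + 1) → F) → ℝ),
      Cone ψ j P f ∧
      ∑ x, f x = ((Fintype.card F : ℝ) - 1) * #U + 1 ∧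
      ∀ W : Submodule F (Module.Dual F (Fin (n + 1) → F)),
        ∃ W' : Submodule F (Fin (n + 1) → F),
          (#((U \ univ.filter (fun p => p.submodule ≤ W')) ∪
            (univ.filter (fun p => p.submodule ≤ W') \ U)) : ℝ) ≤
          ∑ x, |f x - (if x ∈ W then 1 else 0)| := by
  obtain ⟨D, hD⟩ : ∃ D : (Fin (n + 1) → F) ≃ₗ[F] Module.Dual F (Fin (n + 1) → F),
      ∀ v w, D v w = v ⬝ᵥ w := ⟨dotProductEquiv F (Fin (n + 1)), fun v w => rfl⟩
  obtain ⟨e, he⟩ : ∃ e : {p // p ∈ U} → Module.Dual F (Fin (n + 1) → F),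
      ∀ p, e p = D p.1.rep := ⟨fun p => D p.1.rep, fun p => rfl⟩
  have hinj : ∀ (p p' : ℙ F (Fin (n + 1) → F)) (a a' : F), a ≠ 0 → a • D p.rep = a' • D p'.rep →
      p = p' ∧ a = a' := by
    intro p p' a a' ha h
    rw [← map_smul, ← map_smul] at h
    exact mh_inj ha (D.injective h)
  have hne : ∀ p : ℙ F (Fin (n + 1) → F), D p.rep ≠ 0 := fun p h =>
    p.rep_nonzero (D.map_eq_zero_iff.1 h)
  have hrep := lnk_rep hψ e
  have hcard : Fintype.card {p // p ∈ U} = #U := Fintype.card_coe U
  -- the values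
  have hmu : ∀ x, ((if x = 0 then (1 : ℝ) else 0) + (mu e x : ℝ)) =
      if (x = 0 ∨ ∃ p ∈ U, ∃ a : F, a ≠ 0 ∧ x = a • D p.rep) then 1 else 0 := by
    intro x
    by_cases hx : x = 0
    · have h1 : mu e x = 0 := by
        unfold mu
        rw [Finset.card_eq_zero, Finset.filter_eq_empty_iff]
        rintro ⟨i, a⟩ hp h0
        rw [Finset.mem_product] at hp
        have ha : a ≠ 0 := Finset.ne_of_mem_erase hp.2
        rw [hx, add_zero] at h0
        rcases smul_eq_zero.mp h0 with h2 | h2
        · exact ha h2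
        · rw [he] at h2
          exact hne _ h2
      rw [if_pos hx, h1, if_pos (Or.inl hx)]
      simp
    · rw [if_neg hx, zero_add]
      by_cases hS : ∃ p ∈ U, ∃ a : F, a ≠ 0 ∧ x = a • D p.rep
      · rw [if_pos (Or.inr hS)]
        obtain ⟨p, hp, a, ha, hxa⟩ := hS
        have h1 : mu e x = 1 := by
          unfold mu
          rw [Finset.card_eq_one]
          refine ⟨(⟨p, hp⟩, -a), ?_⟩
          ext ⟨i, b⟩
          rw [Finset.mem_filter, Finset.mem_product, Finset.mem_singleton]
          constructor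
          · rintro ⟨⟨_, hb⟩, h2⟩
            have hb' : b ≠ 0 := Finset.ne_of_mem_erase hb
            have h3 : b • D i.1.rep = (-a) • D p.rep := by
              have h4 : b • e i + x = 0 := h2
              rw [he, hxa] at h4
              exact (eq_neg_of_add_eq_zero_left h4).trans (neg_smul a (D p.rep)).symm
            obtain ⟨h5, h6⟩ := hinj _ _ _ _ hb' h3
            rw [h6]
            exact Prod.ext (Subtype.ext h5) rfl
          · rintro h2
            rw [Prod.mk.injEq] at h2
            obtain ⟨rfl, rfl⟩ := h2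
            refine ⟨⟨Finset.mem_univ _, Finset.mem_erase.2 ⟨neg_ne_zero.2 ha, Finset.mem_univ _⟩⟩, ?_⟩
            show (-a) • e ⟨p, hp⟩ + x = 0
            rw [he, hxa]
            exact (congrArg (fun t => t + a • D p.rep) (neg_smul a (D p.rep))).trans
              (neg_add_cancel _)
        rw [h1]
        simp
      · rw [if_neg (fun h => h.elim hx hS)]
        have h1 : mu e x = 0 := by
          unfold mu
          rw [Finset.card_eq_zero, Finset.filter_eq_empty_iff]
          rintro ⟨i, a⟩ hp h0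
          rw [Finset.mem_product] at hp
          have ha : a ≠ 0 := Finset.ne_of_mem_erase hp.2
          apply hS
          refine ⟨i.1, i.2, -a, neg_ne_zero.2 ha, ?_⟩
          have h4 : a • e i + x = 0 := h0
          rw [he] at h4
          exact (eq_neg_of_add_eq_zero_right h4).trans (neg_smul a (D i.1.rep)).symm
        rw [h1]
        simp
  refine ⟨_, _, ⟨hrep, ?_, ?_, ?_, ?_⟩, ?_, ?_⟩
  · intro c
    rw [lnk_alF]
    by_cases hc : c = 0
    · subst hc
      rw [gS_zero]
      have h1 : (1 : ℝ) ≤ Fintype.card F := by exact_mod_cast Fintype.card_pos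
      have h2 : (0 : ℝ) ≤ ((Fintype.card F : ℝ) - 1) * Fintype.card {p // p ∈ U} :=
        mul_nonneg (by linarith) (by positivity)
      positivity
    · rw [gS_univ]
      have hDc : D c ≠ 0 := fun h => hc (D.map_eq_zero_iff.1 h)
      have h1 : finrank F (LinearMap.ker (D c)) = n := by
        have h2 := Module.Dual.finrank_ker_add_one_of_ne_zero hDc
        rw [Module.finrank_fin_fun] at h2
        omega
      have h2 := hU _ h1
      have h3 : zc e c = #(U.filter (fun p => p.submodule ≤ LinearMap.ker (D c))) := by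
        unfold zc
        rw [← Finset.card_map (Function.Embedding.subtype (fun p => p ∈ U))]
        congr 1
        ext p
        simp only [Finset.mem_map, Finset.mem_filter, Finset.mem_univ, true_and,
          Function.Embedding.subtype_apply]
        constructor
        · rintro ⟨i, hi, rfl⟩
          refine ⟨i.2, ?_⟩
          rw [mh_le_iff, LinearMap.mem_ker, hD, dotProduct_comm, ← hD, ← he]
          exact hi
        · rintro ⟨hp, hp2⟩
          refine ⟨⟨p, hp⟩, ?_, rfl⟩
          rw [mh_le_iff, LinearMap.mem_ker, hD, dotProduct_comm, ← hD] at hp2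
          rw [he]
          exact hp2
      rw [h3, hcard]
      have h4 : (#U : ℝ) ≤ (Fintype.card F : ℝ) *
          #(U.filter (fun p => p.submodule ≤ LinearMap.ker (D c))) + j := by exact_mod_cast h2
      linarith
  · intro x
    rw [hmu]
    by_cases h : (x = 0 ∨ ∃ p ∈ U, ∃ a : F, a ≠ 0 ∧ x = a • D p.rep)
    · rw [if_pos h]
      exact Or.inr rfl
    · rw [if_neg h]
      exact Or.inl rfl
  · rw [hmu, if_pos (Or.inl rfl)]
  · intro a ha x
    rw [hmu, hmu]
    have h1 : (a • x = 0 ∨ ∃ p ∈ U, ∃ b : F, b ≠ 0 ∧ a • x = b • D p.rep) ↔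
        (x = 0 ∨ ∃ p ∈ U, ∃ b : F, b ≠ 0 ∧ x = b • D p.rep) := by
      constructor
      · rintro (h | ⟨p, hp, b, hb, h⟩)
        · exact Or.inl ((smul_eq_zero.1 h).resolve_left ha)
        · refine Or.inr ⟨p, hp, a⁻¹ * b, mul_ne_zero (inv_ne_zero ha) hb, ?_⟩
          rw [mul_smul, ← h, smul_smul, inv_mul_cancel₀ ha, one_smul]
      · rintro (h | ⟨p, hp, b, hb, h⟩)
        · exact Or.inl (by rw [h, smul_zero])
        · exact Or.inr ⟨p, hp, a * b, mul_ne_zero ha hb, by rw [h, smul_smul]⟩
    exact if_congr h1 rfl rfl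
  · have h1 := hrep.mean hψ
    rw [lnk_alF, gS_zero, hcard] at h1
    linarith
  · intro W
    refine ⟨W.comap D.toLinearMap, ?_⟩
    obtain ⟨S, hS⟩ : ∃ S, S = (U \ univ.filter (fun p => p.submodule ≤ W.comap D.toLinearMap)) ∪
            (univ.filter (fun p => p.submodule ≤ W.comap D.toLinearMap) \ U) := ⟨_, rfl⟩
    rw [← hS]
    have h1 : ∀ p ∈ S, |((if D p.rep = 0 then (1 : ℝ) else 0) + (mu e (D p.rep) : ℝ))
        - (if D p.rep ∈ W then 1 else 0)| = 1 := by
      intro p hp
      rw [hmu]
      rw [hS, Finset.mem_union, Finset.mem_sdiff, Finset.mem_sdiff, Finset.mem_filter,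
        mh_le_iff] at hp
      rcases hp with ⟨h2, h3⟩ | ⟨⟨_, h2⟩, h3⟩
      · have h4 : D p.rep ∉ W := fun h => h3 ⟨Finset.mem_univ _, h⟩
        rw [if_pos (Or.inr ⟨p, h2, 1, one_ne_zero, by rw [one_smul]⟩), if_neg h4]
        norm_num
      · have h4 : D p.rep ∈ W := h2
        rw [if_neg, if_pos h4]
        · norm_num
        · rintro (h5 | ⟨p', hp', a, ha, h5⟩)
          · exact hne p h5
          · have h6 := hinj p' p a 1 ha (by rw [one_smul]; exact h5.symm)
            rw [h6.1] at hp'
            exact h3 hp'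
    have h2 : (#S : ℝ) = ∑ p ∈ S, |((if D p.rep = 0 then (1 : ℝ) else 0) + (mu e (D p.rep) : ℝ))
        - (if D p.rep ∈ W then 1 else 0)| := by
      rw [Finset.sum_congr rfl h1, Finset.sum_const, nsmul_eq_mul, mul_one]
    rw [h2]
    have h3 : Set.InjOn (fun p : ℙ F (Fin (n + 1) → F) => D p.rep) S := by
      intro p _ p' _ h
      exact (hinj p p' 1 1 one_ne_zero (by rw [one_smul, one_smul]; exact h)).1
    have h4 := Finset.sum_image (f := fun x => |((if x = 0 then (1 : ℝ) else 0) + (mu e x : ℝ))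
        - (if x ∈ W then 1 else 0)|) h3
    rw [← h4]
    exact Finset.sum_le_sum_of_subset_of_nonneg (Finset.subset_univ _) fun x _ _ => abs_nonneg _

end Pool.Agent.OSD
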