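import Pool.Agent.OSD.Defs
import Pool.Agent.OSD.Quo
import Pool.Agent.OSD.Ann
import Pool.Agent.OSD.Anr
import Pool.Agent.OSD.Cbd
import Pool.Agent.OSD.Ful
import Pool.Agent.OSD.Csq
import Pool.Agent.OSD.Fib

open Finset Module

namespace Pool.Agent.OSD

open Pool.Agent.GapCodes Pool.Agent.LLog

attribute [local instance] fintypeDual

variable {F : Type} [Field F] [Fintype F] {V : Type} [AddCommGroup V] [Module F V] [Fintype V]
variable {ψ : AddChar F ℂ} {j : ℕ} {P : V → ℝ} {f : Module.Dual F V → ℝ}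

/-- the arithmetic at the end -/
private theorem pol_arith {J D s N T M b Q S j : ℝ} (hj : 0 ≤ j) (hJ : J = j + 1) (hD1 : 1 ≤ D)
    (hs : 4 * J * D ^ 2 ≤ s) (hsN1 : s ≤ N + D) (hT1 : 1 ≤ T)
    (hTN : M = T * N) (hb0 : 0 ≤ b) (hbD : b ≤ D)
    (hful : 2 * b ^ 2 ≤ N → b ≤ 8 * J ^ 2)
    (hcsq : Q ≤ N * (j ^ 2 + b) + 2 * j * b)
    (hfib : S ≤ T ^ 2 * Q + M * j ^ 2)
    (hpar : M * D ≤ T * D ^ 2 + S) :
    D * s ≤ 44 * J ^ 2 * M := by
  have hJ1 : 1 ≤ J := by linarith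
  have hJ0 : 0 < J := by linarith
  have hD0 : 0 < D := by linarith
  have hDD : D ≤ D ^ 2 := by nlinarith
  have hJD : D ^ 2 ≤ J * D ^ 2 := by nlinarith [sq_nonneg D]
  have hs4 : 4 * D ^ 2 ≤ s := by nlinarith
  have hDs : 4 * D ≤ s := by linarith
  have hN : 3 * D ≤ N := by linarith
  have hN0 : 0 < N := by linarith
  have hT0 : 0 < T := by linarith
  have hM0 : 0 < M := by rw [hTN]; positivity
  have hsN3 : 3 * s ≤ 4 * N := by linarith
  have hNs : 3 * s / 4 ≤ N := by linarith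
  have hb2 : b ^ 2 ≤ D ^ 2 := by nlinarith
  have hb8 : b ≤ 8 * J ^ 2 := hful (by nlinarith)
  have hjb : 2 * j * b ≤ N := by
    have h1 : 2 * j * b ≤ 2 * J * D ^ 2 := by
      have h2 : j * b ≤ J * D := mul_le_mul (by linarith) hbD hb0 hJ0.le
      nlinarith
    nlinarith
  have hQ : Q ≤ 9 * J ^ 2 * N := by
    have h1 : j ^ 2 + 1 ≤ J ^ 2 := by rw [hJ]; nlinarith
    have h2 : N * (j ^ 2 + b) + N ≤ N * (9 * J ^ 2) := by
      rw [← mul_add_one]
      exact mul_le_mul_of_nonneg_left (by linarith) hN0.le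
    linarith
  have hS : S ≤ 10 * J ^ 2 * T * M := by
    have h1 : T ^ 2 * Q ≤ T ^ 2 * (9 * J ^ 2 * N) := mul_le_mul_of_nonneg_left hQ (by positivity)
    have h2 : T ^ 2 * (9 * J ^ 2 * N) = 9 * J ^ 2 * T * M := by rw [hTN]; ring
    have h3 : j ^ 2 ≤ J ^ 2 * T := by
      have h4 : j ^ 2 ≤ J ^ 2 := by rw [hJ]; nlinarith
      nlinarith [sq_nonneg J]
    have h5 : M * j ^ 2 ≤ M * (J ^ 2 * T) := mul_le_mul_of_nonneg_left h3 hM0.le
    linarith
  have hTD : T * D ^ 2 ≤ M * D / 3 := by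
    have h1 : T * D ^ 2 = T * D * D := by ring
    have h2 : M * D / 3 = T * D * (N / 3) := by rw [hTN]; ring
    rw [h1, h2]
    exact mul_le_mul_of_nonneg_left (by linarith) (by positivity)
  have hD20 : D ≤ 20 * J ^ 2 * T := by
    have h1 : M * D ≤ M * (20 * J ^ 2 * T) := by nlinarith
    exact le_of_mul_le_mul_left h1 hM0
  calc D * s ≤ (20 * J ^ 2 * T) * s := mul_le_mul_of_nonneg_right hD20 (by linarith)
    _ ≤ (20 * J ^ 2 * T) * (4 / 3 * N) := mul_le_mul_of_nonneg_left (by linarith) (by positivity)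
    _ = 80 / 3 * J ^ 2 * M := by rw [hTN]; ring
    _ ≤ 44 * J ^ 2 * M := by
      have : 0 ≤ J ^ 2 * M := by positivity
      nlinarith

open Classical in
/-- POL (uses ANN, ANR, CBD, FUL, CSQ, FIB, QUO) -/
theorem cone_polish (hψ : ψ ≠ 0) (h : Cone ψ j P f) (W : Submodule F (Module.Dual F V)) (D : ℕ)
    (hD : ∑ x, |f x - (if x ∈ W then 1 else 0)| = D)
    (hs : 4 * ((j : ℝ) + 1) * (D : ℝ) ^ 2 ≤ ∑ x, f x) :
    (D : ℝ) * ∑ x, f x ≤ 44 * ((j : ℝ) + 1) ^ 2 * Fintype.card V := by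
  rcases Nat.eq_zero_or_pos D with hD0 | hD0
  · rw [hD0, Nat.cast_zero, zero_mul]
    positivity
  have hD1 : (1 : ℝ) ≤ D := by exact_mod_cast hD0
  obtain ⟨K, hK1, hK2⟩ := ann_exists W
  let _ : Fintype K := Fintype.ofFinite K
  have _ : Finite (V ⧸ K) := inferInstance
  let _ : Fintype (V ⧸ K) := Fintype.ofFinite (V ⧸ K)
  have hT1 : (1 : ℝ) ≤ Fintype.card K := by
    exact_mod_cast Nat.one_le_iff_ne_zero.mpr Fintype.card_ne_zero
  have hTN := card_quot K
  -- the size of `W`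
  have hW : (∑ x : Module.Dual F V, (if x ∈ W then (1 : ℝ) else 0)) = Fintype.card (V ⧸ K) := by
    have h1 : (∑ x : Module.Dual F V, (if x ∈ W then (1 : ℝ) else 0)) = Nat.card W := by
      rw [← Finset.sum_filter, Finset.sum_const, nsmul_eq_mul, mul_one]
      congr 1
      rw [Nat.card_eq_fintype_card, Fintype.card_subtype]
    have h2 : ((Nat.card K : ℕ) : ℝ) * Nat.card W = Nat.card V := by exact_mod_cast hK2
    rw [Nat.card_eq_fintype_card (α := K), Nat.card_eq_fintype_card (α := V), hTN] at h2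
    rw [h1]
    exact mul_left_cancel₀ (by linarith) h2
  have hsub : ∑ x, (f x - (if x ∈ W then 1 else 0)) = ∑ x, f x - Fintype.card (V ⧸ K) := by
    rw [Finset.sum_sub_distrib, hW]
  have habs : |∑ x, f x - Fintype.card (V ⧸ K)| ≤ D := by
    rw [← hsub, ← hD]
    exact Finset.abs_sum_le_sum_abs _ _
  obtain ⟨ha1, ha2⟩ := abs_le.mp habs
  -- the quotient cone
  have hq := cone_quot h K
  have hf01 : ∀ x, 0 ≤ f x ∧ f x ≤ 1 := by
    intro x
    rcases h.ind x with h1 | h1 <;> rw [h1] <;> norm_num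
  have hinj : Function.Injective (fun x : Module.Dual F (V ⧸ K) => x ∘ₗ K.mkQ) := by
    intro x y hxy
    apply LinearMap.ext
    intro c
    obtain ⟨c, rfl⟩ := K.mkQ_surjective c
    exact LinearMap.congr_fun hxy c
  have hmem : ∀ x : Module.Dual F (V ⧸ K), x ∘ₗ K.mkQ ∈ W := by
    intro x
    rw [hK1]
    intro c hc
    rw [LinearMap.comp_apply, Submodule.mkQ_apply, (Submodule.Quotient.mk_eq_zero K).mpr hc,
      map_zero]
  have hb : ∑ x : Module.Dual F (V ⧸ K), (1 - f (x ∘ₗ K.mkQ)) ≤ D := by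
    have h1 : ∀ x : Module.Dual F (V ⧸ K), 1 - f (x ∘ₗ K.mkQ)
        = |f (x ∘ₗ K.mkQ) - (if x ∘ₗ K.mkQ ∈ W then 1 else 0)| := by
      intro x
      rw [if_pos (hmem x), abs_sub_comm, abs_of_nonneg]
      linarith [(hf01 (x ∘ₗ K.mkQ)).2]
    rw [← hD, Finset.sum_congr rfl fun x _ => h1 x,
      ← Finset.sum_image (f := fun y => |f y - (if y ∈ W then 1 else 0)|)
        (g := fun x : Module.Dual F (V ⧸ K) => x ∘ₗ K.mkQ) (fun x _ y _ hxy => hinj hxy)]
    exact Finset.sum_le_sum_of_subset_of_nonneg (Finset.subset_univ _)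
      fun _ _ _ => abs_nonneg _
  have hb0 : 0 ≤ ∑ x : Module.Dual F (V ⧸ K), (1 - f (x ∘ₗ K.mkQ)) :=
    Finset.sum_nonneg fun x _ => by linarith [(hf01 (x ∘ₗ K.mkQ)).2]
  -- Parseval for the difference
  have hE : Rep ψ (fun c => P c - (if c ∈ K then 1 / (Fintype.card K : ℝ) else 0))
      (fun x => f x - (if x ∈ W then 1 else 0)) := by
    have h1 := h.rep.sub (ann_rep hψ K)
    have h2 : (fun x : Module.Dual F V => f x - (if x ∈ W then (1 : ℝ) else 0))
        = fun x => f x - (if ∀ c ∈ K, x c = 0 then 1 else 0) := by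
      funext x
      congr 1
      exact if_congr (hK1 x) rfl rfl
    rw [h2]
    exact h1
  have hpar := hE.parseval hψ
  have hsq : ∑ x, (f x - (if x ∈ W then 1 else 0)) ^ 2 = (D : ℝ) := by
    rw [← hD]
    refine Finset.sum_congr rfl fun x _ => ?_
    rcases h.ind x with h1 | h1 <;> rw [h1] <;> split_ifs <;> norm_num
  rw [hsq] at hpar
  have hMpos := card_pos' V
  -- split the sum
  have hsplit : (Fintype.card V : ℝ) * D ≤ (Fintype.card K : ℝ) * (D : ℝ) ^ 2
      + ∑ c, (if c ∈ K then 0 else ((Fintype.card V : ℝ) * P c) ^ 2) := by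
    have h1 : (Fintype.card V : ℝ) * D = ∑ c, ((Fintype.card V : ℝ) *
        (P c - (if c ∈ K then 1 / (Fintype.card K : ℝ) else 0))) ^ 2 := by
      rw [← hpar, ← mul_assoc, ← sq, Finset.mul_sum]
      refine Finset.sum_congr rfl fun c _ => ?_
      rw [mul_pow]
    have h2 : (Fintype.card K : ℝ) * (D : ℝ) ^ 2 = ∑ c : V, (if c ∈ K then (D : ℝ) ^ 2 else 0) := by
      rw [← Finset.sum_filter, Finset.sum_const, nsmul_eq_mul]
      congr 2
      rw [Fintype.card_subtype]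
    rw [h1, h2, ← Finset.sum_add_distrib]
    refine Finset.sum_le_sum fun c _ => ?_
    by_cases hc : c ∈ K
    · rw [if_pos hc, if_pos hc, if_pos hc, add_zero]
      have h3 := rep_abs hψ hE c
      rw [hD] at h3
      rw [if_pos hc] at h3
      exact sq_le_sq' (by linarith [(abs_le.mp h3).1]) (abs_le.mp h3).2
    · rw [if_neg hc, if_neg hc, if_neg hc, sub_zero, zero_add]
  exact pol_arith (j := j) (Nat.cast_nonneg j) rfl hD1 hs (by linarith) hT1 hTN hb0 hb
    (fun hn => cone_full hψ hq hn) (cone_sq hψ hq) (cone_fibre h K) hsplit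

end Pool.Agent.OSD
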