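import Pool.Agent.OSD.Mai
import Pool.Agent.OSD.Pol

/-!
# The structure theorem with the sharp exponent
-/

open Finset Module

namespace Pool.Agent.OSD

open Pool.Agent.GapCodes Pool.Agent.LLog

attribute [local instance] fintypeDual

open Classical in
/-- MA2 (uses MAI, POL) -/
theorem cone_main2 (F : Type) [Field F] [Fintype F] : ∃ C : ℕ, 1 ≤ C ∧
    ∀ (V : Type) [AddCommGroup V] [Module F V] [Fintype V] (ψ : AddChar F ℂ) (_ : ψ ≠ 0)
      (j y : ℕ) (P : V → ℝ) (f : Module.Dual F V → ℝ), Cone ψ j P f →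
      ((j : ℝ) + 2) * Fintype.card V ≤ 2 ^ y * ∑ x, f x →
      C * (y + 1) ≤ finrank F V →
      ∃ W : Submodule F (Module.Dual F V),
        (∑ x, |f x - (if x ∈ W then 1 else 0)|) * ∑ x, f x ≤
          44 * ((j : ℝ) + 1) ^ 2 * Fintype.card V := by
  obtain ⟨C1, hC1, hmain⟩ := cone_main F
  refine ⟨2 * C1 + 3, by omega, ?_⟩
  intro V _ _ _ ψ hψ j y P f h hσ hk
  obtain ⟨W, hW⟩ := hmain V ψ hψ j y P f h hσ
  refine ⟨W, ?_⟩
  have hq1 : 1 < Fintype.card F := Fintype.one_lt_card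
  have hq2 : (2 : ℝ) ≤ Fintype.card F := by exact_mod_cast hq1
  obtain ⟨D, hDdef⟩ : ∃ D : ℕ, D = #(univ.filter fun x : Module.Dual F V =>
      |f x - (if x ∈ W then 1 else 0)| = 1) := ⟨_, rfl⟩
  have hD : ∑ x, |f x - (if x ∈ W then 1 else 0)| = D := by
    rw [hDdef, Finset.card_filter]
    push_cast
    refine Finset.sum_congr rfl fun x _ => ?_
    have h1 : |f x - (if x ∈ W then 1 else 0)| = 0 ∨ |f x - (if x ∈ W then 1 else 0)| = 1 := by
      rcases h.ind x with h0 | h0 <;> rw [h0] <;> split_ifs <;> norm_num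
    rcases h1 with h1 | h1
    · rw [h1]
      norm_num
    · rw [h1]
      norm_num
  rw [hD] at hW ⊢
  apply cone_polish hψ h W D hD
  have hcard : (Fintype.card V : ℝ) = (Fintype.card F : ℝ) ^ finrank F V := by
    exact_mod_cast (Module.card_eq_pow_finrank (K := F) (V := V))
  have hD2 : (D : ℝ) ^ 2 ≤ (Fintype.card F : ℝ) ^ (2 * (C1 * (y + 1))) := by
    rw [mul_comm 2, pow_mul]
    exact pow_le_pow_left₀ (Nat.cast_nonneg D) hW 2
  have h8 : (2 : ℝ) ^ (3 * (y + 1)) ≤ (Fintype.card F : ℝ) ^ (3 * (y + 1)) :=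
    pow_le_pow_left₀ (by norm_num) hq2 _
  have hM : 4 * 2 ^ y * (D : ℝ) ^ 2 ≤ Fintype.card V := by
    have h1 : (Fintype.card F : ℝ) ^ (2 * (C1 * (y + 1))) * (Fintype.card F : ℝ) ^ (3 * (y + 1))
        ≤ Fintype.card V := by
      rw [hcard, ← pow_add]
      refine pow_le_pow_right₀ (by linarith) ?_
      calc 2 * (C1 * (y + 1)) + 3 * (y + 1) = (2 * C1 + 3) * (y + 1) := by ring
        _ ≤ finrank F V := hk
    have h2 : (D : ℝ) ^ 2 * (2 : ℝ) ^ (3 * (y + 1)) ≤ Fintype.card V :=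
      (mul_le_mul hD2 h8 (by positivity) (by positivity)).trans h1
    have h3 : 4 * (2 : ℝ) ^ y ≤ 2 ^ (3 * (y + 1)) := by
      calc 4 * (2 : ℝ) ^ y = 2 ^ (2 + y) := by rw [pow_add]; norm_num
        _ ≤ 2 ^ (3 * (y + 1)) := pow_le_pow_right₀ (by norm_num) (by omega)
    calc 4 * 2 ^ y * (D : ℝ) ^ 2 ≤ 2 ^ (3 * (y + 1)) * (D : ℝ) ^ 2 :=
          mul_le_mul_of_nonneg_right h3 (by positivity)
      _ = (D : ℝ) ^ 2 * (2 : ℝ) ^ (3 * (y + 1)) := mul_comm _ _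
      _ ≤ Fintype.card V := h2
  have h2y : (0 : ℝ) < 2 ^ y := by positivity
  have hj0 : (0 : ℝ) ≤ j := Nat.cast_nonneg j
  have hM0 : (0 : ℝ) ≤ Fintype.card V := Nat.cast_nonneg _
  have h1 : 2 ^ y * (4 * ((j : ℝ) + 1) * (D : ℝ) ^ 2) ≤ 2 ^ y * ∑ x, f x := by
    calc 2 ^ y * (4 * ((j : ℝ) + 1) * (D : ℝ) ^ 2)
        = ((j : ℝ) + 1) * (4 * 2 ^ y * (D : ℝ) ^ 2) := by ring
      _ ≤ ((j : ℝ) + 1) * Fintype.card V := mul_le_mul_of_nonneg_left hM (by linarith)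
      _ ≤ ((j : ℝ) + 2) * Fintype.card V := mul_le_mul_of_nonneg_right (by linarith) hM0
      _ ≤ 2 ^ y * ∑ x, f x := hσ
  exact le_of_mul_le_mul_left h1 h2y

end Pool.Agent.OSD
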