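import Pool.Agent.OSD.Defs
import Pool.Agent.OSD.Quo
import Pool.Agent.OSD.Ann
import Pool.Agent.OSD.Bpr
import Pool.Agent.OSD.Apr

open Finset Module

namespace Pool.Agent.OSD

open Pool.Agent.GapCodes Pool.Agent.LLog

attribute [local instance] fintypeDual

variable {F : Type} [Field F] [Fintype F] {V : Type} [AddCommGroup V] [Module F V] [Fintype V]
variable {ψ : AddChar F ℂ} {j : ℕ} {P : V → ℝ} {f : Module.Dual F V → ℝ}

/-- the arithmetic at the end -/
private theorem po4_arith {R D s N M J X c : ℝ} (hJ : 0 ≤ J ^ 2)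
    (hX : R * D ≤ c * X * J ^ 2) (hc : 0 ≤ c) (hX0 : 0 ≤ X) (hs0 : 0 ≤ s)
    (hs : 15 * s ≤ 16 * N) (hXN : X * N ^ 2 ≤ M ^ 2) (hc2 : c ≤ 24576) :
    R * D * s ^ 2 ≤ 73728 * J ^ 2 * M ^ 2 := by
  have h1 : s ≤ 16 / 15 * N := by linarith
  have h2 : s ^ 2 ≤ 2 * N ^ 2 := by nlinarith
  have hM : 0 ≤ M ^ 2 := sq_nonneg M
  calc R * D * s ^ 2 ≤ (c * X * J ^ 2) * s ^ 2 := mul_le_mul_of_nonneg_right hX (sq_nonneg s)
    _ ≤ (c * X * J ^ 2) * (2 * N ^ 2) :=
        mul_le_mul_of_nonneg_left h2 (by positivity)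
    _ = 2 * c * J ^ 2 * (X * N ^ 2) := by ring
    _ ≤ 2 * c * J ^ 2 * M ^ 2 := mul_le_mul_of_nonneg_left hXN (by positivity)
    _ ≤ 73728 * J ^ 2 * M ^ 2 := by
      have h3 : 0 ≤ J ^ 2 * M ^ 2 := mul_nonneg hJ hM
      nlinarith

open Classical in
/-- PO4: the refined bound (uses ANN, BPR, APR, QUO). -/
theorem cone_refined (hψ : ψ ≠ 0) (h : Cone ψ j P f) (W : Submodule F (Module.Dual F V))
    (D r : ℕ) (hD : ∑ x, |f x - (if x ∈ W then 1 else 0)| = D) (hr : 1 ≤ r) (hrD : 4 * r ≤ D)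
    (hs : 4 * (4 * (D : ℝ)) ^ (2 * r + 1) ≤ ∑ x, f x) :
    (r : ℝ) * D * (∑ x, f x) ^ 2 ≤ 73728 * ((j : ℝ) + 1) ^ 2 * (Fintype.card V : ℝ) ^ 2 := by
  obtain ⟨K, hK1, hK2⟩ := ann_exists W
  let _ : Fintype K := Fintype.ofFinite K
  have _ : Finite (V ⧸ K) := inferInstance
  let _ : Fintype (V ⧸ K) := Fintype.ofFinite (V ⧸ K)
  have hT1 : (1 : ℝ) ≤ Fintype.card K := by
    exact_mod_cast Nat.one_le_iff_ne_zero.mpr Fintype.card_ne_zero
  have hTN := card_quot K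
  -- the size of `W`
  have hW : (∑ x : Module.Dual F V, (if x ∈ W then (1 : ℝ) else 0)) = Fintype.card (V ⧸ K) := by
    have h1 : (∑ x : Module.Dual F V, (if x ∈ W then (1 : ℝ) else 0)) = Nat.card W := by
      rw [← Finset.sum_filter, Finset.sum_const, nsmul_eq_mul, mul_one]
      congr 1
      rw [Nat.card_eq_fintype_card, Fintype.card_subtype]
    have h2 : ((Nat.card K : ℕ) : ℝ) * Nat.card W = Nat.card V := by exact_mod_cast hK2
    rw [Nat.card_eq_fintype_card (α := K), Nat.card_eq_fintype_card (α := V), hTN] at h2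
    rw [h1]
    exact mul_left_cancel₀ (by linarith) h2
  have hsub : ∑ x, (f x - (if x ∈ W then 1 else 0)) = ∑ x, f x - Fintype.card (V ⧸ K) := by
    rw [Finset.sum_sub_distrib, hW]
  have habs : |∑ x, f x - Fintype.card (V ⧸ K)| ≤ D := by
    rw [← hsub, ← hD]
    exact Finset.abs_sum_le_sum_abs _ _
  obtain ⟨ha1, ha2⟩ := abs_le.mp habs
  have hq := cone_quot h K
  -- the two parts
  obtain ⟨a, ha⟩ : ∃ a : ℕ, a = #(univ.filter (fun x : Module.Dual F V =>
      f x = 1 ∧ ¬ ∀ c ∈ K, x c = 0)) := ⟨_, rfl⟩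
  obtain ⟨b, hb⟩ : ∃ b : ℕ, b = #(univ.filter (fun x : Module.Dual F V =>
      f x = 0 ∧ ∀ c ∈ K, x c = 0)) := ⟨_, rfl⟩
  have hab : D = a + b := by
    have h1 : (D : ℝ) = a + b := by
      rw [← hD, ha, hb, Finset.card_filter, Finset.card_filter]
      push_cast
      rw [← Finset.sum_add_distrib]
      refine Finset.sum_congr rfl fun x _ => ?_
      by_cases hx : x ∈ W
      · have hx' := (hK1 x).mp hx
        rw [if_pos hx, if_neg (fun h2 => h2.2 hx')]
        rcases h.ind x with h3 | h3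
        · rw [if_pos ⟨h3, hx'⟩, h3]
          norm_num
        · rw [if_neg (fun h2 => by rw [h3] at h2; exact one_ne_zero h2.1), h3]
          norm_num
      · have hx' : ¬ ∀ c ∈ K, x c = 0 := fun h2 => hx ((hK1 x).mpr h2)
        rw [if_neg hx, if_neg (fun h2 => hx' h2.2 : ¬ (f x = 0 ∧ ∀ c ∈ K, x c = 0))]
        rcases h.ind x with h3 | h3
        · rw [if_neg (fun h2 => by rw [h3] at h2; exact zero_ne_one h2.1), h3]
          norm_num
        · rw [if_pos ⟨h3, hx'⟩, h3]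
          norm_num
    exact_mod_cast h1
  -- sizes
  have hD4 : (4 : ℝ) ≤ D := by
    have : 4 ≤ D := by omega
    exact_mod_cast this
  have hpowD : 64 * (D : ℝ) ≤ (4 * (D : ℝ)) ^ (2 * r + 1) := by
    calc 64 * (D : ℝ) ≤ (4 * (D : ℝ)) ^ 3 := by nlinarith [sq_nonneg (D : ℝ)]
      _ ≤ (4 * (D : ℝ)) ^ (2 * r + 1) := pow_le_pow_right₀ (by linarith) (by omega)
  have hsD : 16 * (D : ℝ) ≤ ∑ x, f x := by linarith
  have hsN : 15 * (∑ x, f x) ≤ 16 * (Fintype.card (V ⧸ K) : ℝ) := by linarith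
  have hs0 : 0 ≤ ∑ x, f x := by linarith
  have haD : (a : ℝ) ≤ D := by
    have : a ≤ D := by omega
    exact_mod_cast this
  have hbD : (b : ℝ) ≤ D := by
    have : b ≤ D := by omega
    exact_mod_cast this
  have ha0 : (0 : ℝ) ≤ a := Nat.cast_nonneg a
  have hb0 : (0 : ℝ) ≤ b := Nat.cast_nonneg b
  have hpow0 : 0 ≤ (4 * (D : ℝ)) ^ (2 * r + 1) := by positivity
  have h2N : 2 * (4 * (D : ℝ)) ^ (2 * r + 1) ≤ Fintype.card (V ⧸ K) := by linarith
  have hbigb : (b : ℝ) ^ (2 * r + 1) ≤ Fintype.card (V ⧸ K) := by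
    have h1 : (b : ℝ) ^ (2 * r + 1) ≤ (4 * (D : ℝ)) ^ (2 * r + 1) :=
      pow_le_pow_left₀ hb0 (by linarith) _
    linarith
  have hbiga : 2 * (4 * (a : ℝ)) ^ (2 * r + 1) ≤ Fintype.card (V ⧸ K) := by
    have h1 : (4 * (a : ℝ)) ^ (2 * r + 1) ≤ (4 * (D : ℝ)) ^ (2 * r + 1) :=
      pow_le_pow_left₀ (by linarith) (by linarith) _
    linarith
  have hbigb4 : 2 * (4 * (b : ℝ)) ^ (2 * r + 1) ≤ Fintype.card (V ⧸ K) := by
    have h1 : (4 * (b : ℝ)) ^ (2 * r + 1) ≤ (4 * (D : ℝ)) ^ (2 * r + 1) :=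
      pow_le_pow_left₀ (by linarith) (by linarith) _
    linarith
  have hr0 : (0 : ℝ) ≤ r := Nat.cast_nonneg r
  have hN0 : (0 : ℝ) ≤ Fintype.card (V ⧸ K) := Nat.cast_nonneg _
  rcases Nat.lt_or_ge (2 * a) D with hlt | hge
  · -- the part inside
    have h2b : D ≤ 2 * b := by omega
    have hinj : Function.Injective (fun x : Module.Dual F (V ⧸ K) => x ∘ₗ K.mkQ) := by
      intro x y hxy
      apply LinearMap.ext
      intro c
      obtain ⟨c, rfl⟩ := K.mkQ_surjective c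
      exact LinearMap.congr_fun hxy c
    have hbq : b = #(univ.filter (fun x : Module.Dual F (V ⧸ K) => f (x ∘ₗ K.mkQ) = 0)) := by
      rw [hb, ← Finset.card_image_of_injective _ hinj]
      congr 1
      ext x
      simp only [Finset.mem_filter, Finset.mem_univ, true_and, Finset.mem_image]
      constructor
      · rintro ⟨h1, h2⟩
        have h3 : K ≤ LinearMap.ker x := fun c hc => LinearMap.mem_ker.mpr (h2 c hc)
        refine ⟨K.liftQ x h3, ?_, K.liftQ_mkQ x h3⟩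
        rw [K.liftQ_mkQ x h3]
        exact h1
      · rintro ⟨y, h1, rfl⟩
        refine ⟨h1, fun c hc => ?_⟩
        rw [LinearMap.comp_apply, Submodule.mkQ_apply, (Submodule.Quotient.mk_eq_zero K).mpr hc,
          map_zero]
    have h1 := (cone_inside hψ hq b r hbq hr hbigb).2 (by omega) hbigb4
    have h2 : (D : ℝ) ≤ 2 * b := by exact_mod_cast h2b
    refine po4_arith (N := (Fintype.card (V ⧸ K) : ℝ)) (X := 1) (c := 1152) (by positivity)
      ?_ (by norm_num) (by norm_num) hs0 hsN ?_ (by norm_num)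
    · nlinarith
    · rw [one_mul, hTN, mul_pow]
      have h3 : (1 : ℝ) ≤ (Fintype.card K : ℝ) ^ 2 := one_le_pow₀ hT1
      nlinarith [sq_nonneg (Fintype.card (V ⧸ K) : ℝ)]
  · have h1 := cone_outside hψ h K a b r ha hb hr (by omega) hbigb hbiga
    have h2 : (D : ℝ) ≤ 2 * a := by exact_mod_cast hge
    refine po4_arith (N := (Fintype.card (V ⧸ K) : ℝ)) (X := (Fintype.card K : ℝ) ^ 2)
      (c := 24576) (by positivity) ?_ (by norm_num) (by positivity) hs0 hsN ?_ (by norm_num)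
    · nlinarith
    · rw [hTN, mul_pow]

end Pool.Agent.OSD
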