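import Pool.Agent.OSD.Ma2
import Pool.Agent.OSD.Po4

open Finset Module

namespace Pool.Agent.OSD

open Pool.Agent.GapCodes Pool.Agent.LLog

attribute [local instance] fintypeDual

open Classical in
private theorem ma4_card {F : Type} [Field F] [Fintype F] {V : Type} [AddCommGroup V]
    [Module F V] [Fintype V] {ψ : AddChar F ℂ} {j : ℕ} {P : V → ℝ} {f : Module.Dual F V → ℝ}
    (h : Cone ψ j P f) (W : Submodule F (Module.Dual F V)) : ∃ D : ℕ,
    ∑ x, |f x - (if x ∈ W then 1 else 0)| = D := by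
  refine ⟨#(univ.filter (fun x : Module.Dual F V => f x ≠ (if x ∈ W then 1 else 0))), ?_⟩
  rw [Finset.card_filter, Nat.cast_sum]
  refine Finset.sum_congr rfl (fun x _ => ?_)
  by_cases hx : x ∈ W
  · rw [if_pos hx]
    rcases h.ind x with h1 | h1
    · rw [h1, if_pos (zero_ne_one)]
      norm_num
    · rw [h1, if_neg (fun h2 => h2 rfl)]
      norm_num
  · rw [if_neg hx]
    rcases h.ind x with h1 | h1
    · rw [h1, if_neg (fun h2 => h2 rfl)]
      norm_num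
    · rw [h1, if_pos (one_ne_zero)]
      norm_num

open Classical in
/-- MA4 (uses MA2, PO4). -/
theorem cone_main4 (F : Type) [Field F] [Fintype F] : ∃ C : ℕ, 1 ≤ C ∧
    ∀ (V : Type) [AddCommGroup V] [Module F V] [Fintype V] (ψ : AddChar F ℂ) (_ : ψ ≠ 0)
      (j y : ℕ) (P : V → ℝ) (f : Module.Dual F V → ℝ), Cone ψ j P f →
      ((j : ℝ) + 2) * Fintype.card V ≤ 2 ^ y * ∑ x, f x →
      C * (y + 1) ≤ finrank F V →
      ∃ W : Submodule F (Module.Dual F V), ∃ D : ℕ,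
        ∑ x, |f x - (if x ∈ W then 1 else 0)| = D ∧
        (D : ℝ) * ∑ x, f x ≤ 44 * ((j : ℝ) + 1) ^ 2 * Fintype.card V ∧
        ∀ r : ℕ, 1 ≤ r → 4 * r ≤ D → 4 * (4 * (D : ℝ)) ^ (2 * r + 1) ≤ ∑ x, f x →
          (r : ℝ) * D * (∑ x, f x) ^ 2 ≤
            73728 * ((j : ℝ) + 1) ^ 2 * (Fintype.card V : ℝ) ^ 2 := by
  obtain ⟨C, hC, hmain⟩ := cone_main2 F
  refine ⟨C, hC, ?_⟩
  intro V _ _ _ ψ hψ j y P f h hσ hk
  obtain ⟨W, hW⟩ := hmain V ψ hψ j y P f h hσ hk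
  obtain ⟨D, hD⟩ := ma4_card h W
  refine ⟨W, D, hD, ?_, ?_⟩
  · rw [← hD]
    exact hW
  · intro r hr hrD hs
    exact cone_refined hψ h W D r hD hr hrD hs

end Pool.Agent.OSD
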