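import Pool.Agent.OSD.Defs
import Pool.Agent.OSD.Ddr

open Finset Module

namespace Pool.Agent.OSD

open Pool.Agent.GapCodes Pool.Agent.LLog

attribute [local instance] fintypeDual

variable {F : Type} [Field F] [Fintype F] {V : Type} [AddCommGroup V] [Module F V] [Fintype V]
variable {ψ : AddChar F ℂ} {j : ℕ} {P : V → ℝ} {f : Module.Dual F V → ℝ}

open Classical in
private theorem TRI_re (h : Rep ψ P f) (x : Module.Dual F V) :
    f x = ∑ c, P c * (ch ψ c x).re := by
  have h1 := congrArg Complex.re (h x)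
  rw [Complex.ofReal_re, Complex.re_sum] at h1
  rw [h1]
  refine Finset.sum_congr rfl fun c _ => ?_
  rw [Complex.re_ofReal_mul]

/-- the elementary inequality for two numbers of absolute value one -/
private theorem TRI_num (a b : ℂ) (ha : ‖a‖ = 1) (hb : ‖b‖ = 1) :
    0 ≤ 3 - 2 * a.re - 2 * b.re + 2 * (a * b).re ∧
      3 - 2 * a.re - 2 * b.re + 2 * (a * b).re ≤ 9 := by
  have ha2 : a.re ^ 2 + a.im ^ 2 = 1 := by
    have := Complex.sq_norm a
    rw [ha, Complex.normSq_apply] at this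
    nlinarith
  have hb2 : b.re ^ 2 + b.im ^ 2 = 1 := by
    have := Complex.sq_norm b
    rw [hb, Complex.normSq_apply] at this
    nlinarith
  have hab : (a * b).re = a.re * b.re - a.im * b.im := Complex.mul_re a b
  rw [hab]
  refine ⟨?_, ?_⟩
  · nlinarith [sq_nonneg (1 - a.re + (a.re * b.re - a.im * b.im)),
      sq_nonneg (-a.im + (a.re * b.im + a.im * b.re)), sq_nonneg (a.re - b.re),
      sq_nonneg (a.im + b.im), sq_nonneg (1 - a.re - b.re), sq_nonneg (a.im - b.im)]
  · have h1 : -1 ≤ a.re := by nlinarith [sq_nonneg a.im, sq_nonneg (a.re - 1)]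
    have h2 : -1 ≤ b.re := by nlinarith [sq_nonneg b.im, sq_nonneg (b.re - 1)]
    have h3 : a.re * b.re - a.im * b.im ≤ 1 := by
      nlinarith [sq_nonneg (a.re - b.re), sq_nonneg (a.im + b.im)]
    linarith

open Classical in
/-- TRI: the three point inequality (uses DDR) -/
theorem dd_three (hψ : ψ ≠ 0) (h : Cone ψ j P f) (H : Submodule F V) [Fintype H]
    [Fintype (V ⧸ H)] (y z : Module.Dual F V) :
    -(9 * (j : ℝ)) ≤ (Fintype.card (V ⧸ H) : ℝ) *
      (3 * dd f H 0 - 2 * dd f H y - 2 * dd f H z + 2 * dd f H (y + z)) := by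
  have hr := dd_rep hψ h.rep H
  rw [TRI_re hr 0, TRI_re hr y, TRI_re hr z, TRI_re hr (y + z)]
  have hM : (0 : ℝ) < Fintype.card V := card_pos' V
  have hM' : (0 : ℝ) < Fintype.card (V ⧸ H) := card_pos' (V ⧸ H)
  have hq := card_quot H
  have hH : (0 : ℝ) < Fintype.card H := card_pos' H
  set M : ℝ := (Fintype.card V : ℝ) with hMdef
  set M' : ℝ := (Fintype.card (V ⧸ H) : ℝ) with hMdef'
  have e1 : 3 * (∑ c, (if c ∈ H then P c else 0) * (ch ψ c 0).re)
      - 2 * (∑ c, (if c ∈ H then P c else 0) * (ch ψ c y).re)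
      - 2 * (∑ c, (if c ∈ H then P c else 0) * (ch ψ c z).re)
      + 2 * (∑ c, (if c ∈ H then P c else 0) * (ch ψ c (y + z)).re)
      = ∑ c, (if c ∈ H then P c else 0) *
        (3 - 2 * (ch ψ c y).re - 2 * (ch ψ c z).re + 2 * (ch ψ c y * ch ψ c z).re) := by
    rw [Finset.mul_sum, Finset.mul_sum, Finset.mul_sum, Finset.mul_sum,
      ← Finset.sum_sub_distrib, ← Finset.sum_sub_distrib, ← Finset.sum_add_distrib]
    refine Finset.sum_congr rfl fun c _ => ?_
    rw [ch_at_zero, ch_add_right, Complex.one_re]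
    ring
  rw [e1]
  have e2 : ∀ c : V, (if c ∈ H then -(9 * (j : ℝ)) / M else 0) ≤
      (if c ∈ H then P c else 0) *
        (3 - 2 * (ch ψ c y).re - 2 * (ch ψ c z).re + 2 * (ch ψ c y * ch ψ c z).re) := by
    intro c
    obtain ⟨n1, n2⟩ := TRI_num (ch ψ c y) (ch ψ c z) (norm_ch ψ c y) (norm_ch ψ c z)
    set N : ℝ := 3 - 2 * (ch ψ c y).re - 2 * (ch ψ c z).re + 2 * (ch ψ c y * ch ψ c z).re
      with hN
    by_cases hc : c ∈ H
    · rw [if_pos hc, if_pos hc]
      have hl := h.low c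
      have hPc : -(j : ℝ) / M ≤ P c := by
        rw [div_le_iff₀ hM]
        linarith
      have hj : (0 : ℝ) ≤ j := Nat.cast_nonneg j
      have h1 : -(j : ℝ) / M * N ≤ P c * N := mul_le_mul_of_nonneg_right hPc n1
      have h2 : -(9 * (j : ℝ)) / M ≤ -(j : ℝ) / M * N := by
        rw [div_mul_eq_mul_div]
        apply div_le_div_of_nonneg_right _ hM.le
        nlinarith
      linarith
    · rw [if_neg hc, if_neg hc]
      simp
  have e3 : ∑ c : V, (if c ∈ H then -(9 * (j : ℝ)) / M else 0)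
      = (Fintype.card H : ℝ) * (-(9 * (j : ℝ)) / M) := by
    rw [← Finset.sum_filter, Finset.sum_const, nsmul_eq_mul]
    congr 1
    have : (Finset.univ.filter fun c : V => c ∈ H).card = Fintype.card H := by
      rw [Fintype.card_subtype]
    exact_mod_cast this
  have e4 := Finset.sum_le_sum (fun c (_ : c ∈ (Finset.univ : Finset V)) => e2 c)
  rw [e3] at e4
  have e5 : M' * ((Fintype.card H : ℝ) * (-(9 * (j : ℝ)) / M)) = -(9 * (j : ℝ)) := by
    rw [hq]
    field_simp
  calc -(9 * (j : ℝ)) = M' * ((Fintype.card H : ℝ) * (-(9 * (j : ℝ)) / M)) := e5.symm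
    _ ≤ _ := mul_le_mul_of_nonneg_left e4 hM'.le

end Pool.Agent.OSD
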