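import Pool.Agent.OSD.Defs
import Pool.Agent.OSD.Ddr
import Pool.Agent.OSD.Dst
import Pool.Agent.OSD.Tri

open Finset Module

namespace Pool.Agent.OSD

open Pool.Agent.GapCodes Pool.Agent.LLog

attribute [local instance] fintypeDual

variable {F : Type} [Field F] [Fintype F] {V : Type} [AddCommGroup V] [Module F V] [Fintype V]
variable {ψ : AddChar F ℂ} {j : ℕ} {P : V → ℝ} {f : Module.Dual F V → ℝ}

private theorem sub_le_one (h : Cone ψ j P f) (H : Submodule F V)
    [Fintype (V ⧸ H)] (y : Module.Dual F V) : dd f H y ≤ 1 := by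
  unfold dd
  have hc : (Fintype.card (Module.Dual F (V ⧸ H)) : ℝ) = Fintype.card (V ⧸ H) := by
    exact_mod_cast card_dual
  rw [div_le_one (card_pos' (V ⧸ H)), ← hc]
  have h1 : ∑ x : Module.Dual F (V ⧸ H), f (y + x ∘ₗ H.mkQ) ≤
      ∑ _x : Module.Dual F (V ⧸ H), (1 : ℝ) := by
    refine Finset.sum_le_sum fun x _ => ?_
    rcases h.ind (y + x ∘ₗ H.mkQ) with h2 | h2
    · rw [h2]; norm_num
    · rw [h2]
  refine h1.trans (le_of_eq ?_)
  simp

private theorem sub_smul (h : Cone ψ j P f) (H : Submodule F V) [Fintype (V ⧸ H)] (a : F)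
    (ha : a ≠ 0) (y : Module.Dual F V) : dd f H (a • y) = dd f H y := by
  unfold dd
  congr 1
  refine (Fintype.sum_equiv (MulAction.toPerm (Units.mk0 a ha)) _ _ fun x => ?_).symm
  rw [MulAction.toPerm_apply, Units.smul_def, Units.val_mk0]
  have h1 : a • y + (a • x) ∘ₗ H.mkQ = a • (y + x ∘ₗ H.mkQ) := by
    rw [smul_add, LinearMap.smul_comp]
  rw [h1, h.inv a ha]

open Classical in
/-- SUB (uses DST, TRI and DDR) -/
theorem cone_sub (hψ : ψ ≠ 0) (h : Cone ψ j P f) (H : Submodule F V) [Fintype H]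
    (hH : 3 / 4 ≤ sg P H)
    (hbig : 117 * ((j : ℝ) + 1) ^ 4 * (Fintype.card H : ℝ) ^ 2 < Fintype.card V) :
    ∃ W : Submodule F (Module.Dual F V),
      ∑ x, |f x - (if x ∈ W then 1 else 0)| ≤ 36 * ((j : ℝ) + 1) ^ 4 * Fintype.card H := by
  haveI hq : Fintype (V ⧸ H) := Fintype.ofFinite _
  have hM : (0 : ℝ) < Fintype.card (V ⧸ H) := card_pos' _
  have hN : (1 : ℝ) ≤ Fintype.card H := by
    exact_mod_cast (Fintype.card_pos : 0 < Fintype.card H)
  have hj : (0 : ℝ) ≤ j := Nat.cast_nonneg j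
  set M : ℝ := (Fintype.card (V ⧸ H) : ℝ) with hMdef
  set N : ℝ := (Fintype.card H : ℝ) with hNdef
  set e : ℝ := 9 * ((j : ℝ) + 1) ^ 4 * N / M with he
  have hJ : (1 : ℝ) ≤ ((j : ℝ) + 1) ^ 4 := one_le_pow₀ (by linarith)
  have hJN : 0 < ((j : ℝ) + 1) ^ 4 * N := by positivity
  have hMN : 117 * ((j : ℝ) + 1) ^ 4 * N < M := by
    have h1 := hbig
    rw [card_quot H] at h1
    have h2 : N * (117 * ((j : ℝ) + 1) ^ 4 * N) < N * M := by
      calc N * (117 * ((j : ℝ) + 1) ^ 4 * N) = 117 * ((j : ℝ) + 1) ^ 4 * N ^ 2 := by ring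
        _ < N * M := h1
    exact lt_of_mul_lt_mul_left h2 (by linarith)
  have he13 : e < 1 / 13 := by
    rw [he, div_lt_iff₀ hM]
    linarith
  have he0 : 0 ≤ e := by
    rw [he]
    positivity
  have heM : 9 * (j : ℝ) ≤ e * M := by
    rw [he, div_mul_cancel₀ _ hM.ne']
    have h1 : (j : ℝ) ≤ ((j : ℝ) + 1) ^ 4 := by
      calc (j : ℝ) ≤ (j : ℝ) + 1 := by linarith
        _ ≤ ((j : ℝ) + 1) ^ 4 := le_self_pow₀ (by linarith) (by norm_num)
    have h2 : ((j : ℝ) + 1) ^ 4 * 1 ≤ ((j : ℝ) + 1) ^ 4 * N :=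
      mul_le_mul_of_nonneg_left hN (by positivity)
    linarith
  have hd : ∀ y, dd f H y * (1 - dd f H y) ≤ e := by
    intro y
    rw [he, le_div_iff₀ hM]
    have h1 := cone_dd hψ h H hH y
    linarith
  have hd0 : dd f H 0 = sg P H := by
    have h1 := (dd_rep hψ h.rep H).at_zero
    rw [h1]
    unfold sg
    exact Finset.sum_congr rfl fun c _ => by congr
  have hd1 : dd f H 0 ≤ 1 := sub_le_one h H 0
  have hlow : ∀ y, 1 / 2 < dd f H y → 1 - 2 * e ≤ dd f H y := by
    intro y hy
    have h1 := hd y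
    by_contra hc
    have hc' : dd f H y < 1 - 2 * e := not_le.1 hc
    have h2 : 0 < (dd f H y - 1 / 2) * (1 - dd f H y) :=
      mul_pos (by linarith) (by linarith)
    nlinarith
  let W : Submodule F (Module.Dual F V) :=
    { carrier := {x | 1 / 2 < dd f H x}
      zero_mem' := by
        show 1 / 2 < dd f H 0
        rw [hd0]
        linarith
      add_mem' := by
        intro x y hx hy
        have hx' : 1 / 2 < dd f H x := hx
        have hy' : 1 / 2 < dd f H y := hy
        show 1 / 2 < dd f H (x + y)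
        have h1 := hlow x hx'
        have h2 := hlow y hy'
        have h3 := dd_three hψ h H x y
        rw [← hMdef] at h3
        have h4 : -e ≤ 3 * dd f H 0 - 2 * dd f H x - 2 * dd f H y + 2 * dd f H (x + y) := by
          have h5 : M * (-e) ≤
              M * (3 * dd f H 0 - 2 * dd f H x - 2 * dd f H y + 2 * dd f H (x + y)) := by
            linarith
          exact le_of_mul_le_mul_left h5 hM
        by_contra hc
        have hc' : dd f H (x + y) ≤ 1 / 2 := not_lt.1 hc
        have h6 := hd (x + y)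
        have h7 : 2 / 13 < dd f H (x + y) := by linarith
        nlinarith
      smul_mem' := by
        intro a x hx
        have hx' : 1 / 2 < dd f H x := hx
        show 1 / 2 < dd f H (a • x)
        by_cases ha : a = 0
        · rw [ha, zero_smul, hd0]
          linarith
        · rw [sub_smul h H a ha]
          exact hx' }
  refine ⟨W, ?_⟩
  have h1 : ∀ x, |f x - (if x ∈ W then 1 else 0)| ≤ 4 * (f x - dd f H x) ^ 2 := by
    intro x
    by_cases hx : x ∈ W
    · rw [if_pos hx]
      have hx' : 1 / 2 < dd f H x := hx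
      rcases h.ind x with h2 | h2
      · rw [h2]
        have h3 : |(0 : ℝ) - 1| = 1 := by norm_num
        rw [h3]
        nlinarith
      · rw [h2, sub_self, abs_zero]
        positivity
    · rw [if_neg hx]
      have hx' : dd f H x ≤ 1 / 2 := not_lt.1 hx
      rcases h.ind x with h2 | h2
      · rw [h2, sub_self, abs_zero]
        positivity
      · rw [h2]
        have h3 : |(1 : ℝ) - 0| = 1 := by norm_num
        rw [h3]
        nlinarith
  calc ∑ x, |f x - (if x ∈ W then 1 else 0)| ≤ ∑ x, 4 * (f x - dd f H x) ^ 2 :=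
        Finset.sum_le_sum fun x _ => h1 x
    _ = 4 * ∑ x, (f x - dd f H x) ^ 2 := by rw [Finset.mul_sum]
    _ ≤ 4 * (9 * ((j : ℝ) + 1) ^ 4 * N) :=
        mul_le_mul_of_nonneg_left (cone_dist hψ h H hH) (by norm_num)
    _ = 36 * ((j : ℝ) + 1) ^ 4 * N := by ring

end Pool.Agent.OSD
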