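import Pool.Agent.OSD.Eig
import Pool.Agent.OSD.Sub
import Pool.Agent.OSD.Pol
import Pool.Agent.OSD.Po4

/-!
# The structure theorem with an explicit range
-/

open Finset Module

namespace Pool.Agent.OSD

open Pool.Agent.GapCodes Pool.Agent.LLog

attribute [local instance] fintypeDual

open Classical in
private theorem ma5_card {F : Type} [Field F] [Fintype F] {V : Type} [AddCommGroup V]
    [Module F V] [Fintype V] {ψ : AddChar F ℂ} {j : ℕ} {P : V → ℝ} {f : Module.Dual F V → ℝ}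
    (h : Cone ψ j P f) (W : Submodule F (Module.Dual F V)) : ∃ D : ℕ,
    ∑ x, |f x - (if x ∈ W then 1 else 0)| = D := by
  refine ⟨#(univ.filter (fun x : Module.Dual F V => f x ≠ (if x ∈ W then 1 else 0))), ?_⟩
  rw [Finset.card_filter, Nat.cast_sum]
  refine Finset.sum_congr rfl (fun x _ => ?_)
  by_cases hx : x ∈ W
  · rw [if_pos hx]
    rcases h.ind x with h1 | h1
    · rw [h1, if_pos (zero_ne_one)]
      norm_num
    · rw [h1, if_neg (fun h2 => h2 rfl)]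
      norm_num
  · rw [if_neg hx]
    rcases h.ind x with h1 | h1
    · rw [h1, if_neg (fun h2 => h2 rfl)]
      norm_num
    · rw [h1, if_pos (one_ne_zero)]
      norm_num

open Classical in
/-- The structure theorem with explicit conditions. -/
theorem cone_main5 (F : Type) [Field F] [Fintype F] (l : ℕ) (hl : Fintype.card F ≤ 2 ^ l)
    (V : Type) [AddCommGroup V] [Module F V] [Fintype V] (ψ : AddChar F ℂ) (hψ : ψ ≠ 0)
    (j y : ℕ) (P : V → ℝ) (f : Module.Dual F V → ℝ) (h : Cone ψ j P f)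
    (hσ : ((j : ℝ) + 2) * Fintype.card V ≤ 2 ^ y * ∑ x, f x)
    (hnK : (2 : ℝ) ^ (7 * y) *
      ((Fintype.card F : ℝ) * (finrank F V : ℝ) + 1300 * (y : ℝ) + 40000) ^ 96 ≤
        (Fintype.card F : ℝ) ^ finrank F V)
    (hnC : 8192 * (Fintype.card F : ℝ) ^ 20 * (2 : ℝ) ^ ((9 + 4 * l) * y) ≤
        (Fintype.card F : ℝ) ^ finrank F V) :
    ∃ W : Submodule F (Module.Dual F V), ∃ D : ℕ,
        ∑ x, |f x - (if x ∈ W then 1 else 0)| = D ∧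
        (D : ℝ) * ∑ x, f x ≤ 44 * ((j : ℝ) + 1) ^ 2 * Fintype.card V ∧
        ∀ r : ℕ, 1 ≤ r → 4 * r ≤ D → 4 * (4 * (D : ℝ)) ^ (2 * r + 1) ≤ ∑ x, f x →
          (r : ℝ) * D * (∑ x, f x) ^ 2 ≤
            73728 * ((j : ℝ) + 1) ^ 2 * (Fintype.card V : ℝ) ^ 2 := by
  have hq1 : 1 < Fintype.card F := Fintype.one_lt_card
  obtain ⟨q, hq⟩ : ∃ q : ℕ, q = Fintype.card F := ⟨_, rfl⟩
  rw [← hq] at hq1 hl hnK hnC
  obtain ⟨k, hk⟩ : ∃ k : ℕ, k = finrank F V := ⟨_, rfl⟩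
  rw [← hk] at hnK hnC
  obtain ⟨K, hKdef⟩ : ∃ K : ℝ, K = (q : ℝ) * k + 1300 * (y : ℝ) + 40000 := ⟨_, rfl⟩
  rw [← hKdef] at hnK
  have hq2 : (2 : ℝ) ≤ q := by exact_mod_cast hq1
  have hq1' : (1 : ℝ) ≤ q := by linarith
  have hql : (q : ℝ) ≤ 2 ^ l := by exact_mod_cast hl
  have hcard : (Fintype.card V : ℝ) = (q : ℝ) ^ finrank F V := by
    rw [hq]
    exact_mod_cast (Module.card_eq_pow_finrank (K := F) (V := V))
  rw [← hk] at hcard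
  have hfle : ∀ x, f x ≤ 1 := fun x => by rcases h.ind x with h0 | h0 <;> rw [h0] <;> norm_num
  have hfnn : ∀ x, 0 ≤ f x := fun x => by rcases h.ind x with h0 | h0 <;> rw [h0] <;> norm_num
  have hcd : ((Finset.univ : Finset (Module.Dual F V)).card : ℝ) = (q : ℝ) ^ k := by
    rw [← hcard, Finset.card_univ, card_dual]
  have hsumle : ∑ x, f x ≤ (q : ℝ) ^ k := by
    rw [← hcd]
    calc ∑ x, f x ≤ ∑ _x : Module.Dual F V, (1 : ℝ) := Finset.sum_le_sum fun x _ => hfle x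
      _ = _ := by simp
  have hMpos : (0 : ℝ) < (q : ℝ) ^ k := by positivity
  have h2y : (0 : ℝ) < 2 ^ y := by positivity
  have h2y1 : (1 : ℝ) ≤ 2 ^ y := one_le_pow₀ (by norm_num)
  have hj2 : (j : ℝ) + 2 ≤ 2 ^ y := by
    rw [hcard] at hσ
    have h1 : ((j : ℝ) + 2) * (q : ℝ) ^ k ≤ 2 ^ y * (q : ℝ) ^ k :=
      hσ.trans (mul_le_mul_of_nonneg_left hsumle h2y.le)
    exact le_of_mul_le_mul_right h1 hMpos
  have hj0 : (0 : ℝ) ≤ j := Nat.cast_nonneg j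
  have hy0 : (0 : ℝ) ≤ y := Nat.cast_nonneg y
  have hk0 : (0 : ℝ) ≤ k := Nat.cast_nonneg k
  have hqk0 : 0 ≤ (q : ℝ) * k := by positivity
  have hlog : Real.log (Fintype.card V) ≤ K := by
    rw [hcard, Real.log_pow, hKdef]
    have h1 : Real.log q ≤ q := (Real.log_le_sub_one_of_pos (by linarith)).trans (by linarith)
    have h2 := mul_le_mul_of_nonneg_left h1 hk0
    nlinarith
  have hK0 : (0 : ℝ) ≤ K := by
    rw [hKdef]
    positivity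
  -- the main quantity
  obtain ⟨Y, hY⟩ : ∃ Y : ℝ, Y = 2 ^ y := ⟨_, rfl⟩
  obtain ⟨Z, hZ⟩ : ∃ Z : ℝ, Z = (2 : ℝ) ^ (l * y) := ⟨_, rfl⟩
  have hY1 : 1 ≤ Y := by rw [hY]; exact h2y1
  have hZ1 : 1 ≤ Z := by rw [hZ]; exact one_le_pow₀ (by norm_num)
  have hYZ : (2 : ℝ) ^ ((9 + 4 * l) * y) = Y ^ 9 * Z ^ 4 := by
    rw [hY, hZ, ← pow_mul, ← pow_mul, ← pow_add]
    congr 1
    ring
  rw [hYZ] at hnC
  have hqy : (q : ℝ) ^ (2 * y) ≤ Z ^ 2 := by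
    rw [hZ, mul_comm 2 y, pow_mul]
    refine pow_le_pow_left₀ (by positivity) ?_ 2
    rw [pow_mul]
    exact pow_le_pow_left₀ (by positivity) hql y
  rw [← hY] at hj2
  obtain ⟨T, hT⟩ : ∃ T : ℝ, T = (q : ℝ) ^ 10 := ⟨_, rfl⟩
  have hT1 : 1 ≤ T := by rw [hT]; exact one_le_pow₀ hq1'
  have hq20 : (q : ℝ) ^ 20 = T ^ 2 := by rw [hT]; ring
  rw [hq20] at hnC
  have hY9 : Y ≤ Y ^ 9 := le_self_pow₀ hY1 (by norm_num)
  have hZ4 : Z ^ 2 ≤ Z ^ 4 := pow_le_pow_right₀ hZ1 (by norm_num)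
  have hZ41 : 1 ≤ Z ^ 4 := one_le_pow₀ hZ1
  have hT2 : T ≤ T ^ 2 := le_self_pow₀ hT1 (by norm_num)
  have hT21 : 1 ≤ T ^ 2 := one_le_pow₀ hT1
  have hjM : (j : ℝ) + 2 ≤ Fintype.card V := by
    rw [hcard]
    refine le_trans ?_ hnC
    calc (j : ℝ) + 2 ≤ 1 * (Y ^ 9 * 1) := by linarith
      _ ≤ 8192 * T ^ 2 * (Y ^ 9 * Z ^ 4) := by
          refine mul_le_mul (by linarith) ?_ (by positivity) (by positivity)
          exact mul_le_mul_of_nonneg_left hZ41 (by positivity)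
  have hbig : ((j : ℝ) + 1) ^ 2 * ((j : ℝ) + 2) ^ 4 * K ^ 96 ≤ ∑ x, f x := by
    have h1 : ((j : ℝ) + 1) ^ 2 ≤ Y ^ 2 := pow_le_pow_left₀ (by linarith) (by linarith) 2
    have h2 : ((j : ℝ) + 2) ^ 4 ≤ Y ^ 4 := pow_le_pow_left₀ (by linarith) hj2 4
    have h3 : ((j : ℝ) + 1) ^ 2 * ((j : ℝ) + 2) ^ 4 ≤ Y ^ 6 := by
      calc ((j : ℝ) + 1) ^ 2 * ((j : ℝ) + 2) ^ 4 ≤ Y ^ 2 * Y ^ 4 :=
            mul_le_mul h1 h2 (by positivity) (by positivity)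
        _ = Y ^ 6 := by ring
    have h4 : Y * (Y ^ 6 * K ^ 96) ≤ Y * ∑ x, f x := by
      calc Y * (Y ^ 6 * K ^ 96) = (2 : ℝ) ^ (7 * y) * K ^ 96 := by
            rw [hY, mul_comm 7 y, pow_mul]
            ring
        _ ≤ (q : ℝ) ^ k := hnK
        _ ≤ ((j : ℝ) + 2) * Fintype.card V := by
            rw [hcard]
            nlinarith
        _ ≤ Y * ∑ x, f x := by rw [hY]; exact hσ
    have h5 := le_of_mul_le_mul_left h4 (by linarith)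
    exact (mul_le_mul_of_nonneg_right h3 (by positivity)).trans h5
  obtain ⟨H, hH, hHs⟩ := cone_eig hψ h K y hσ (by rw [hKdef]; linarith) (by rw [hKdef]; linarith)
    hlog hjM hbig
  have hfH : (Fintype.card H : ℝ) ≤ T * Z ^ 2 := by
    have h1 : (Fintype.card H : ℝ) = (q : ℝ) ^ finrank F H := by
      rw [hq]
      exact_mod_cast (Module.card_eq_pow_finrank (K := F) (V := H))
    rw [h1]
    calc (q : ℝ) ^ finrank F H ≤ (q : ℝ) ^ (10 + 2 * y) := pow_le_pow_right₀ hq1' hH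
      _ = T * (q : ℝ) ^ (2 * y) := by rw [pow_add, hT]
      _ ≤ T * Z ^ 2 := mul_le_mul_of_nonneg_left hqy (by linarith)
  have hH0 : (0 : ℝ) ≤ Fintype.card H := Nat.cast_nonneg _
  have hjY : (j : ℝ) + 1 ≤ Y := by linarith
  have hsg : ∑ z, (if z ∈ H then P z + ((j : ℝ) + 1) / Fintype.card V else 0) =
      sg P H + Fintype.card H * (((j : ℝ) + 1) / Fintype.card V) := by
    unfold sg
    have h1 : ∀ z : V, (if z ∈ H then P z + ((j : ℝ) + 1) / Fintype.card V else 0) =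
        (if z ∈ H then P z else 0) + (if z ∈ H then ((j : ℝ) + 1) / Fintype.card V else 0) := by
      intro z
      split_ifs <;> ring
    simp_rw [h1]
    rw [Finset.sum_add_distrib]
    congr 1
    rw [← Finset.sum_filter, Finset.sum_const, nsmul_eq_mul]
    congr 2
    rw [Fintype.card_subtype]
  rw [hsg] at hHs
  have hsmall : (Fintype.card H : ℝ) * (((j : ℝ) + 1) / Fintype.card V) ≤ 3 / 20 := by
    rw [hcard, ← mul_div_assoc, div_le_iff₀ hMpos]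
    have h1 : (Fintype.card H : ℝ) * ((j : ℝ) + 1) ≤ T * Z ^ 2 * Y :=
      mul_le_mul hfH hjY (by linarith) (by positivity)
    have h2 : T * Z ^ 2 * Y ≤ T ^ 2 * (Y ^ 9 * Z ^ 4) := by
      calc T * Z ^ 2 * Y ≤ T ^ 2 * Z ^ 4 * Y ^ 9 := by gcongr
        _ = _ := by ring
    have h3 : 0 ≤ T ^ 2 * (Y ^ 9 * Z ^ 4) := by positivity
    nlinarith
  have h34 : 3 / 4 ≤ sg P H := by linarith
  have hj4 : ((j : ℝ) + 1) ^ 4 ≤ Y ^ 4 := pow_le_pow_left₀ (by linarith) hjY 4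
  have hbig2 : 117 * ((j : ℝ) + 1) ^ 4 * (Fintype.card H : ℝ) ^ 2 < Fintype.card V := by
    rw [hcard]
    have h1 : (Fintype.card H : ℝ) ^ 2 ≤ (T * Z ^ 2) ^ 2 := pow_le_pow_left₀ hH0 hfH 2
    have h2 : ((j : ℝ) + 1) ^ 4 * (Fintype.card H : ℝ) ^ 2 ≤ Y ^ 4 * (T * Z ^ 2) ^ 2 :=
      mul_le_mul hj4 h1 (by positivity) (by positivity)
    have h3 : Y ^ 4 * (T * Z ^ 2) ^ 2 ≤ T ^ 2 * (Y ^ 9 * Z ^ 4) := by
      have h4 : Y ^ 4 ≤ Y ^ 9 := pow_le_pow_right₀ hY1 (by norm_num)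
      calc Y ^ 4 * (T * Z ^ 2) ^ 2 = T ^ 2 * (Y ^ 4 * Z ^ 4) := by ring
        _ ≤ T ^ 2 * (Y ^ 9 * Z ^ 4) := by gcongr
    have h5 : 0 < T ^ 2 * (Y ^ 9 * Z ^ 4) := by positivity
    nlinarith
  obtain ⟨W, hW⟩ := cone_sub hψ h H h34 hbig2
  obtain ⟨D, hD⟩ := ma5_card h W
  rw [hD] at hW
  have hD1 : (D : ℝ) ≤ 36 * (Y ^ 4 * (T * Z ^ 2)) := by
    have h1 : ((j : ℝ) + 1) ^ 4 * (Fintype.card H : ℝ) ≤ Y ^ 4 * (T * Z ^ 2) :=
      mul_le_mul hj4 hfH hH0 (by positivity)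
    linarith
  have hD2 : (D : ℝ) ^ 2 ≤ (36 * (Y ^ 4 * (T * Z ^ 2))) ^ 2 :=
    pow_le_pow_left₀ (Nat.cast_nonneg D) hD1 2
  have hM : 4 * Y * (D : ℝ) ^ 2 ≤ Fintype.card V := by
    rw [hcard]
    calc 4 * Y * (D : ℝ) ^ 2 ≤ 4 * Y * (36 * (Y ^ 4 * (T * Z ^ 2))) ^ 2 :=
          mul_le_mul_of_nonneg_left hD2 (by positivity)
      _ = 5184 * (T ^ 2 * (Y ^ 9 * Z ^ 4)) := by ring
      _ ≤ 8192 * (T ^ 2 * (Y ^ 9 * Z ^ 4)) := by
          have : 0 ≤ T ^ 2 * (Y ^ 9 * Z ^ 4) := by positivity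
          linarith
      _ = 8192 * T ^ 2 * (Y ^ 9 * Z ^ 4) := by ring
      _ ≤ (q : ℝ) ^ k := hnC
  have hs4 : 4 * ((j : ℝ) + 1) * (D : ℝ) ^ 2 ≤ ∑ x, f x := by
    have hM0 : (0 : ℝ) ≤ Fintype.card V := Nat.cast_nonneg _
    have h1 : Y * (4 * ((j : ℝ) + 1) * (D : ℝ) ^ 2) ≤ Y * ∑ x, f x := by
      calc Y * (4 * ((j : ℝ) + 1) * (D : ℝ) ^ 2)
          = ((j : ℝ) + 1) * (4 * Y * (D : ℝ) ^ 2) := by ring
        _ ≤ ((j : ℝ) + 1) * Fintype.card V := mul_le_mul_of_nonneg_left hM (by linarith)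
        _ ≤ ((j : ℝ) + 2) * Fintype.card V := mul_le_mul_of_nonneg_right (by linarith) hM0
        _ ≤ Y * ∑ x, f x := by rw [hY]; exact hσ
    exact le_of_mul_le_mul_left h1 (by linarith)
  refine ⟨W, D, hD, cone_polish hψ h W D hD hs4, ?_⟩
  intro r hr hrD hs
  exact cone_refined hψ h W D r hD hr hrD hs

end Pool.Agent.OSD
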