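import Mathlib

/-!
# An elementary numerical lemma
-/

open Finset Module

namespace Pool.Agent.OSD

/-- NUM -/
theorem num_exists (lq : ℕ) (hlq : 1 ≤ lq) : ∃ C : ℕ, 30000 ≤ C ∧ ∀ k y : ℕ, C * (y + 1) ≤ k →
    (2 : ℝ) ^ (7 * y) * ((lq : ℝ) * k) ^ 96 ≤ 2 ^ k := by
  have hq : (0 : ℝ) < (2 * (lq : ℝ)) ^ 96 := by
    have : (0 : ℝ) < lq := by exact_mod_cast hlq
    positivity
  have h1 := (tendsto_pow_const_div_const_pow_of_one_lt 96 (by norm_num : (1 : ℝ) < 2)).eventually_lt_const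
    (show (0 : ℝ) < 1 / (2 * (lq : ℝ)) ^ 96 by positivity)
  obtain ⟨n0, hn0⟩ := Filter.eventually_atTop.1 h1
  refine ⟨30000 + 2 * n0, by omega, fun k y hk => ?_⟩
  have h2 : 30000 * (y + 1) + 2 * n0 * (y + 1) ≤ k := by
    calc 30000 * (y + 1) + 2 * n0 * (y + 1) = (30000 + 2 * n0) * (y + 1) := by ring
      _ ≤ k := hk
  have h3 : 2 * n0 ≤ 2 * n0 * (y + 1) := Nat.le_mul_of_pos_right _ (Nat.succ_pos y)
  obtain ⟨n, hn⟩ : ∃ n, k = 7 * y + n := ⟨k - 7 * y, by omega⟩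
  have h4 : n0 ≤ n := by omega
  have h5 : k ≤ 2 * n := by omega
  have h6 := hn0 n h4
  rw [div_lt_div_iff₀ (by positivity) hq, one_mul, ← mul_pow] at h6
  have h7 : ((lq : ℝ) * k) ^ 96 ≤ 2 ^ n := by
    refine le_trans ?_ h6.le
    apply pow_le_pow_left₀ (by positivity)
    have h8 : (k : ℝ) ≤ 2 * n := by exact_mod_cast h5
    have h9 : (0 : ℝ) ≤ lq := by positivity
    nlinarith
  rw [hn, pow_add]
  exact mul_le_mul_of_nonneg_left (hn ▸ h7) (by positivity)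

end Pool.Agent.OSD
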