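import Pool.Agent.OSD.Defs
import Pool.Agent.OSD.Eig
import Pool.Agent.OSD.Sub
import Pool.Agent.OSD.Num

open Finset Module

namespace Pool.Agent.OSD

open Pool.Agent.GapCodes Pool.Agent.LLog

attribute [local instance] fintypeDual

open Classical in
/-- MAI (uses EIG, SUB, NUM) -/
theorem cone_main (F : Type) [Field F] [Fintype F] : ∃ C : ℕ, 1 ≤ C ∧
    ∀ (V : Type) [AddCommGroup V] [Module F V] [Fintype V] (ψ : AddChar F ℂ) (_ : ψ ≠ 0)
      (j y : ℕ) (P : V → ℝ) (f : Module.Dual F V → ℝ), Cone ψ j P f →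
      ((j : ℝ) + 2) * Fintype.card V ≤ 2 ^ y * ∑ x, f x →
      ∃ W : Submodule F (Module.Dual F V),
        ∑ x, |f x - (if x ∈ W then 1 else 0)| ≤ (Fintype.card F : ℝ) ^ (C * (y + 1)) := by
  have hq1 : 1 < Fintype.card F := Fintype.one_lt_card
  obtain ⟨q, hq⟩ : ∃ q : ℕ, q = Fintype.card F := ⟨_, rfl⟩
  rw [← hq] at hq1 ⊢
  have hq2 : (2 : ℝ) ≤ q := by exact_mod_cast hq1
  have hq1' : (1 : ℝ) ≤ q := by linarith
  obtain ⟨C, hC, hnum⟩ := num_exists q hq1.le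
  refine ⟨C, by omega, ?_⟩
  intro V _ _ _ ψ hψ j y P f h hσ
  have hcard : (Fintype.card V : ℝ) = (q : ℝ) ^ finrank F V := by
    rw [hq]
    exact_mod_cast (Module.card_eq_pow_finrank (K := F) (V := V))
  obtain ⟨k, hk⟩ : ∃ k : ℕ, k = finrank F V := ⟨_, rfl⟩
  rw [← hk] at hcard
  have hfle : ∀ x, f x ≤ 1 := fun x => by rcases h.ind x with h0 | h0 <;> rw [h0] <;> norm_num
  have hfnn : ∀ x, 0 ≤ f x := fun x => by rcases h.ind x with h0 | h0 <;> rw [h0] <;> norm_num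
  have hcd : ((Finset.univ : Finset (Module.Dual F V)).card : ℝ) = (q : ℝ) ^ k := by
    rw [← hcard, Finset.card_univ, card_dual]
  have hsumle : ∑ x, f x ≤ (q : ℝ) ^ k := by
    rw [← hcd]
    calc ∑ x, f x ≤ ∑ _x : Module.Dual F V, (1 : ℝ) := Finset.sum_le_sum fun x _ => hfle x
      _ = _ := by simp
  rcases lt_or_ge k (C * (y + 1)) with hlt | hge
  · refine ⟨⊤, ?_⟩
    calc ∑ x, |f x - (if x ∈ (⊤ : Submodule F (Module.Dual F V)) then 1 else 0)|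
        ≤ ∑ _x : Module.Dual F V, (1 : ℝ) := by
          refine Finset.sum_le_sum fun x _ => ?_
          rw [if_pos Submodule.mem_top, abs_le]
          constructor
          · linarith [hfnn x]
          · linarith [hfle x]
      _ = (q : ℝ) ^ k := by
          rw [← hcd]
          simp
      _ ≤ (q : ℝ) ^ (C * (y + 1)) := pow_le_pow_right₀ hq1' hlt.le
  · have hMpos : (0 : ℝ) < (q : ℝ) ^ k := by positivity
    have h2y : (0 : ℝ) < 2 ^ y := by positivity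
    -- `j + 2 ≤ 2 ^ y`
    have hj2 : (j : ℝ) + 2 ≤ 2 ^ y := by
      rw [hcard] at hσ
      have h1 : ((j : ℝ) + 2) * (q : ℝ) ^ k ≤ 2 ^ y * (q : ℝ) ^ k :=
        hσ.trans (mul_le_mul_of_nonneg_left hsumle h2y.le)
      exact le_of_mul_le_mul_right h1 hMpos
    have hy1 : y + 1 ≤ k := by
      refine le_trans ?_ hge
      calc y + 1 = 1 * (y + 1) := (one_mul _).symm
        _ ≤ C * (y + 1) := Nat.mul_le_mul_right _ (by omega)
    have hkC : 30000 * (y + 1) ≤ k := le_trans (Nat.mul_le_mul_right _ hC) hge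
    have h2q : (2 : ℝ) ^ y ≤ (q : ℝ) ^ y := pow_le_pow_left₀ (by norm_num) hq2 y
    have hj0 : (0 : ℝ) ≤ j := Nat.cast_nonneg j
    have hn := hnum k y hge
    obtain ⟨K, hKdef⟩ : ∃ K : ℝ, K = (q : ℝ) * k := ⟨_, rfl⟩
    rw [← hKdef] at hn
    have hkK : (k : ℝ) ≤ K := by
      rw [hKdef]
      have : (0 : ℝ) ≤ k := Nat.cast_nonneg k
      nlinarith
    have hk3 : (30000 : ℝ) * (y + 1) ≤ k := by exact_mod_cast hkC
    have hy0 : (0 : ℝ) ≤ y := Nat.cast_nonneg y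
    have hlog : Real.log (Fintype.card V) ≤ K := by
      rw [hcard, Real.log_pow, hKdef, mul_comm]
      refine mul_le_mul_of_nonneg_right ?_ (Nat.cast_nonneg k)
      exact (Real.log_le_sub_one_of_pos (by linarith)).trans (by linarith)
    have h2k : (2 : ℝ) ^ k ≤ (q : ℝ) ^ k := pow_le_pow_left₀ (by norm_num) hq2 k
    have hjM : (j : ℝ) + 2 ≤ Fintype.card V := by
      rw [hcard]
      exact hj2.trans (h2q.trans (pow_le_pow_right₀ hq1' (by omega)))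
    have hK0 : (0 : ℝ) ≤ K := le_trans (Nat.cast_nonneg k) hkK
    have hbig : ((j : ℝ) + 1) ^ 2 * ((j : ℝ) + 2) ^ 4 * K ^ 96 ≤ ∑ x, f x := by
      have h1 : ((j : ℝ) + 1) ^ 2 ≤ (2 ^ y) ^ 2 := pow_le_pow_left₀ (by linarith) (by linarith) 2
      have h2 : ((j : ℝ) + 2) ^ 4 ≤ (2 ^ y) ^ 4 := pow_le_pow_left₀ (by linarith) hj2 4
      have h3 : ((j : ℝ) + 1) ^ 2 * ((j : ℝ) + 2) ^ 4 ≤ (2 : ℝ) ^ (6 * y) := by
        calc ((j : ℝ) + 1) ^ 2 * ((j : ℝ) + 2) ^ 4 ≤ (2 ^ y) ^ 2 * (2 ^ y) ^ 4 :=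
              mul_le_mul h1 h2 (by positivity) (by positivity)
          _ = (2 : ℝ) ^ (6 * y) := by rw [← pow_add, ← pow_mul]; congr 1; ring
      have h4 : (2 : ℝ) ^ y * ((2 : ℝ) ^ (6 * y) * K ^ 96) ≤ 2 ^ y * ∑ x, f x := by
        calc (2 : ℝ) ^ y * ((2 : ℝ) ^ (6 * y) * K ^ 96) = (2 : ℝ) ^ (7 * y) * K ^ 96 := by
              rw [← mul_assoc, ← pow_add]; congr 2; ring
          _ ≤ 2 ^ k := hn
          _ ≤ (q : ℝ) ^ k := h2k
          _ ≤ ((j : ℝ) + 2) * Fintype.card V := by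
              rw [hcard]
              nlinarith
          _ ≤ 2 ^ y * ∑ x, f x := hσ
      have h5 := le_of_mul_le_mul_left h4 h2y
      exact (mul_le_mul_of_nonneg_right h3 (by positivity)).trans h5
    obtain ⟨H, hH, hHs⟩ := cone_eig hψ h K y hσ (by nlinarith) (by nlinarith) hlog hjM hbig
    have hfH : (Fintype.card H : ℝ) ≤ (q : ℝ) ^ (10 + 2 * y) := by
      have h1 : (Fintype.card H : ℝ) = (q : ℝ) ^ finrank F H := by
        rw [hq]
        exact_mod_cast (Module.card_eq_pow_finrank (K := F) (V := H))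
      rw [h1]
      exact pow_le_pow_right₀ hq1' hH
    have hH0 : (0 : ℝ) ≤ Fintype.card H := Nat.cast_nonneg _
    have hjq : (j : ℝ) + 1 ≤ (q : ℝ) ^ y := by linarith
    -- the sum
    have hsg : ∑ z, (if z ∈ H then P z + ((j : ℝ) + 1) / Fintype.card V else 0) =
        sg P H + Fintype.card H * (((j : ℝ) + 1) / Fintype.card V) := by
      unfold sg
      have h1 : ∀ z : V, (if z ∈ H then P z + ((j : ℝ) + 1) / Fintype.card V else 0) =
          (if z ∈ H then P z else 0) + (if z ∈ H then ((j : ℝ) + 1) / Fintype.card V else 0) := by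
        intro z
        split_ifs <;> ring
      simp_rw [h1]
      rw [Finset.sum_add_distrib]
      congr 1
      rw [← Finset.sum_filter, Finset.sum_const, nsmul_eq_mul]
      congr 2
      rw [Fintype.card_subtype]
    rw [hsg] at hHs
    have hsmall : (Fintype.card H : ℝ) * (((j : ℝ) + 1) / Fintype.card V) ≤ 3 / 20 := by
      rw [hcard, ← mul_div_assoc, div_le_iff₀ hMpos]
      have h1 : (Fintype.card H : ℝ) * ((j : ℝ) + 1) ≤ (q : ℝ) ^ (10 + 2 * y) * (q : ℝ) ^ y :=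
        mul_le_mul hfH hjq (by linarith) (by positivity)
      have h2 : (q : ℝ) ^ (10 + 2 * y) * (q : ℝ) ^ y * (q : ℝ) ^ 3 ≤ (q : ℝ) ^ k := by
        rw [← pow_add, ← pow_add]
        exact pow_le_pow_right₀ hq1' (by omega)
      have h3 : (8 : ℝ) ≤ (q : ℝ) ^ 3 := by
        calc (8 : ℝ) = 2 ^ 3 := by norm_num
          _ ≤ (q : ℝ) ^ 3 := pow_le_pow_left₀ (by norm_num) hq2 3
      have h4 : 0 ≤ (q : ℝ) ^ (10 + 2 * y) * (q : ℝ) ^ y := by positivity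
      nlinarith
    have h34 : 3 / 4 ≤ sg P H := by linarith
    have hj4 : ((j : ℝ) + 1) ^ 4 ≤ ((q : ℝ) ^ y) ^ 4 := pow_le_pow_left₀ (by linarith) hjq 4
    have hbig2 : 117 * ((j : ℝ) + 1) ^ 4 * (Fintype.card H : ℝ) ^ 2 < Fintype.card V := by
      rw [hcard]
      have h1 : (Fintype.card H : ℝ) ^ 2 ≤ ((q : ℝ) ^ (10 + 2 * y)) ^ 2 :=
        pow_le_pow_left₀ hH0 hfH 2
      have h2 : ((j : ℝ) + 1) ^ 4 * (Fintype.card H : ℝ) ^ 2 ≤
          ((q : ℝ) ^ y) ^ 4 * ((q : ℝ) ^ (10 + 2 * y)) ^ 2 :=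
        mul_le_mul hj4 h1 (by positivity) (by positivity)
      have h3 : (q : ℝ) ^ 7 * (((q : ℝ) ^ y) ^ 4 * ((q : ℝ) ^ (10 + 2 * y)) ^ 2) ≤ (q : ℝ) ^ k := by
        rw [← pow_mul, ← pow_mul, ← pow_add, ← pow_add]
        exact pow_le_pow_right₀ hq1' (by omega)
      have h4 : (128 : ℝ) ≤ (q : ℝ) ^ 7 := by
        calc (128 : ℝ) = 2 ^ 7 := by norm_num
          _ ≤ (q : ℝ) ^ 7 := pow_le_pow_left₀ (by norm_num) hq2 7
      have h5 : 0 < ((q : ℝ) ^ y) ^ 4 * ((q : ℝ) ^ (10 + 2 * y)) ^ 2 := by positivity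
      nlinarith
    obtain ⟨W, hW⟩ := cone_sub hψ h H h34 hbig2
    refine ⟨W, hW.trans ?_⟩
    have h1 : ((j : ℝ) + 1) ^ 4 * (Fintype.card H : ℝ) ≤
        ((q : ℝ) ^ y) ^ 4 * (q : ℝ) ^ (10 + 2 * y) :=
      mul_le_mul hj4 hfH hH0 (by positivity)
    have h2 : (64 : ℝ) ≤ (q : ℝ) ^ 6 := by
      calc (64 : ℝ) = 2 ^ 6 := by norm_num
        _ ≤ (q : ℝ) ^ 6 := pow_le_pow_left₀ (by norm_num) hq2 6
    have h3 : (q : ℝ) ^ 6 * (((q : ℝ) ^ y) ^ 4 * (q : ℝ) ^ (10 + 2 * y)) ≤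
        (q : ℝ) ^ (C * (y + 1)) := by
      rw [← pow_mul, ← pow_add, ← pow_add]
      refine pow_le_pow_right₀ hq1' ?_
      have h4 : 30000 * (y + 1) ≤ C * (y + 1) := Nat.mul_le_mul_right _ hC
      omega
    have h5 : 0 ≤ ((q : ℝ) ^ y) ^ 4 * (q : ℝ) ^ (10 + 2 * y) := by positivity
    nlinarith

end Pool.Agent.OSD
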