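import Pool.Agent.Strip.Minihyper
import Pool.Agent.OSD.Ch2
import Pool.Agent.OSD.Hyp

open Finset Module
open scoped LinearAlgebra.Projectivization

namespace Pool.Agent.OSD

section RNA

variable {F : Type} [Field F] [Fintype F] {V : Type} [AddCommGroup V] [Module F V] [Fintype V]

/-- from the counts of points in dimensions `k` and `k+1` -/
private theorem rna_step {q a b k : ℕ} (hq : 2 ≤ q) (ha : (q - 1) * a + 1 = q ^ k)
    (hb : (q - 1) * b + 1 = q ^ (k + 1)) : b = q * a + 1 := by
  obtain ⟨r, rfl⟩ : ∃ r, q = r + 2 := ⟨q - 2, by omega⟩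
  have h1 : (r + 2 - 1) = r + 1 := by omega
  rw [h1] at ha hb
  have h2 : (r + 1) * b + 1 = (r + 2) * ((r + 1) * a + 1) := by
    rw [hb, ha, pow_succ]; ring
  have h3 : (r + 1) * b = (r + 1) * ((r + 2) * a + 1) := by
    have : (r + 1) * b + 1 = (r + 1) * ((r + 2) * a + 1) + 1 := by rw [h2]; ring
    omega
  exact Nat.eq_of_mul_eq_mul_left (by omega) h3

/-- dimension of the intersection with a hyperplane -/
private theorem rna_inf {n : ℕ} (W H : Submodule F (Fin (n + 1) → F)) (hH : finrank F H = n)
    (hWH : ¬ W ≤ H) : finrank F (W ⊓ H : Submodule F (Fin (n + 1) → F)) + 1 = finrank F W := by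
  have h1 := Submodule.finrank_sup_add_finrank_inf_eq W H
  have h2 : H < W ⊔ H := lt_of_le_of_ne le_sup_right (fun h => hWH (h ▸ le_sup_left))
  have h3 := Submodule.finrank_lt_finrank_of_lt h2
  have h4 : finrank F (W ⊔ H : Submodule F (Fin (n + 1) → F)) ≤ n + 1 := by
    have := Submodule.finrank_le (W ⊔ H)
    simpa using this
  omega

open Classical in
/-- counts for a subspace and a hyperplane not containing it -/
private theorem rna_counts {n : ℕ} [Fintype (ℙ F (Fin (n + 1) → F))]
    (W H : Submodule F (Fin (n + 1) → F)) (hH : finrank F H = n) (hWH : ¬ W ≤ H) :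
    #(univ.filter (fun p : ℙ F (Fin (n + 1) → F) => p.submodule ≤ W)) =
      Fintype.card F * #(univ.filter (fun p : ℙ F (Fin (n + 1) → F) => p.submodule ≤ W ⊓ H)) + 1 ∧
    #(univ : Finset (ℙ F (Fin (n + 1) → F))) =
      Fintype.card F * #(univ.filter (fun p : ℙ F (Fin (n + 1) → F) => p.submodule ≤ H)) + 1 := by
  have hq : 2 ≤ Fintype.card F := Fintype.one_lt_card
  constructor
  · have h1 := Strip.MH.mh_card (F := F) W
    have h2 := Strip.MH.mh_card (F := F) (W ⊓ H)
    rw [← rna_inf W H hH hWH] at h1
    exact rna_step hq h2 h1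
  · have h1 := Strip.MH.mh_card (F := F) (⊤ : Submodule F (Fin (n + 1) → F))
    have h2 := Strip.MH.mh_card (F := F) H
    have h3 : finrank F (⊤ : Submodule F (Fin (n + 1) → F)) = n + 1 := by simp
    rw [h3] at h1
    rw [hH] at h2
    have h4 := rna_step hq h2 h1
    have h5 : univ.filter (fun p : ℙ F (Fin (n + 1) → F) => p.submodule ≤ (⊤ : Submodule F _)) =
      univ := by
      ext p; simp
    rw [h5] at h4
    exact h4

end RNA

open Classical in
/-- RNA: adding points to a subspace (uses CH2, HYP). -/
theorem near_add (F : Type) [Field F] [Fintype F] (n e : ℕ) [Fintype (ℙ F (Fin (n + 1) → F))]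
    (W : Submodule F (Fin (n + 1) → F))
    (he : e ≤ (Fintype.card F - 1) * #(univ.filter
      (fun p : ℙ F (Fin (n + 1) → F) => p.submodule ≤ W)))
    (hall : #(univ.filter (fun p : ℙ F (Fin (n + 1) → F) => p.submodule ≤ W)) + e ≤
      #(univ : Finset (ℙ F (Fin (n + 1) → F)))) :
    ∃ U : Finset (ℙ F (Fin (n + 1) → F)),
      #U = #(univ.filter (fun p : ℙ F (Fin (n + 1) → F) => p.submodule ≤ W)) + e ∧
      ∀ H : Submodule F (Fin (n + 1) → F), finrank F H = n →
        (#U : ℝ) ≤ Fintype.card F * #(U.filter (fun p => p.submodule ≤ H)) + 1 +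
          4 * Fintype.card F * Real.sqrt (e * (Fintype.card F * (n + 1) + 2)) := by
  have hq : 2 ≤ Fintype.card F := Fintype.one_lt_card
  set PW : Finset (ℙ F (Fin (n + 1) → F)) := univ.filter (fun p => p.submodule ≤ W) with hPW
  have hfin : Finite (Submodule F (Fin (n + 1) → F)) :=
    Finite.of_injective (fun H : Submodule F (Fin (n + 1) → F) => (H : Set (Fin (n + 1) → F)))
      SetLike.coe_injective
  have hfin' : Finite {H : Submodule F (Fin (n + 1) → F) // finrank F H = n} :=
    Subtype.finite
  let _ : Fintype {H : Submodule F (Fin (n + 1) → F) // finrank F H = n} := Fintype.ofFinite _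
  have hcard : Fintype.card {H : Submodule F (Fin (n + 1) → F) // finrank F H = n} ≤
      2 ^ (Fintype.card F * (n + 1)) := by
    rw [← Nat.card_eq_fintype_card]
    exact hyp_card F n
  have hX : #(univ \ PW) + #PW = #(univ : Finset (ℙ F (Fin (n + 1) → F))) :=
    Finset.card_sdiff_add_card_eq_card (Finset.subset_univ PW)
  obtain ⟨E, hEX, hEe, hE⟩ := sample_exists (univ \ PW)
    (fun H : {H : Submodule F (Fin (n + 1) → F) // finrank F H = n} =>
      univ.filter (fun p : ℙ F (Fin (n + 1) → F) => p.submodule ≤ H.1)) e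
      (Fintype.card F * (n + 1)) (by omega) hcard
  have hdisj : Disjoint PW E := by
    rw [Finset.disjoint_left]
    intro p hp hpE
    have := hEX hpE
    rw [Finset.mem_sdiff] at this
    exact this.2 hp
  refine ⟨PW ∪ E, ?_, ?_⟩
  · rw [Finset.card_union_of_disjoint hdisj, hEe]
  intro H hH
  have hcU : #(PW ∪ E) = #PW + e := by rw [Finset.card_union_of_disjoint hdisj, hEe]
  have hcF : #((PW ∪ E).filter (fun p => p.submodule ≤ H)) =
      #(PW.filter (fun p => p.submodule ≤ H)) + #(E.filter (fun p => p.submodule ≤ H)) := by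
    rw [Finset.filter_union, Finset.card_union_of_disjoint
      (Finset.disjoint_filter_filter hdisj)]
  have hs0 : 0 ≤ Real.sqrt (e * (Fintype.card F * (n + 1) + 2)) := Real.sqrt_nonneg _
  have hq0 : (0 : ℝ) ≤ Fintype.card F := by positivity
  have hprod : 0 ≤ 4 * (Fintype.card F : ℝ) * Real.sqrt (e * (Fintype.card F * (n + 1) + 2)) := by
    positivity
  by_cases hWH : W ≤ H
  · have h1 : PW.filter (fun p => p.submodule ≤ H) = PW := by
      apply Finset.filter_true_of_mem
      intro p hp
      rw [hPW, Finset.mem_filter] at hp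
      exact hp.2.trans hWH
    have h2 : #(PW ∪ E) ≤ Fintype.card F * #((PW ∪ E).filter (fun p => p.submodule ≤ H)) := by
      rw [hcU, hcF, h1]
      obtain ⟨r, hr⟩ : ∃ r, Fintype.card F = r + 1 := ⟨Fintype.card F - 1, by omega⟩
      rw [hr] at he ⊢
      have h3 : r + 1 - 1 = r := by omega
      rw [h3] at he
      nlinarith [Nat.zero_le ((r + 1) * #(E.filter (fun p => p.submodule ≤ H)))]
    have h3 : ((#(PW ∪ E) : ℕ) : ℝ) ≤
        Fintype.card F * #((PW ∪ E).filter (fun p => p.submodule ≤ H)) := by
      exact_mod_cast h2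
    linarith
  · obtain ⟨hc1, hc2⟩ := rna_counts W H hH hWH
    have h1 : PW.filter (fun p => p.submodule ≤ H) =
        univ.filter (fun p : ℙ F (Fin (n + 1) → F) => p.submodule ≤ W ⊓ H) := by
      rw [hPW, Finset.filter_filter]
      congr 1
      ext p
      rw [le_inf_iff]
    have hEH := hE ⟨H, hH⟩
    have h2 : E ∩ univ.filter (fun p : ℙ F (Fin (n + 1) → F) => p.submodule ≤ H) =
        E.filter (fun p => p.submodule ≤ H) := by
      ext p
      simp
    have h3 : (univ \ PW) ∩ univ.filter (fun p : ℙ F (Fin (n + 1) → F) => p.submodule ≤ H) =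
        univ.filter (fun p : ℙ F (Fin (n + 1) → F) => p.submodule ≤ H) \
          univ.filter (fun p : ℙ F (Fin (n + 1) → F) => p.submodule ≤ W ⊓ H) := by
      ext p
      simp only [hPW, Finset.mem_inter, Finset.mem_sdiff, Finset.mem_filter, Finset.mem_univ,
        true_and, le_inf_iff]
      tauto
    have h4 : #(univ.filter (fun p : ℙ F (Fin (n + 1) → F) => p.submodule ≤ H) \
          univ.filter (fun p : ℙ F (Fin (n + 1) → F) => p.submodule ≤ W ⊓ H)) +
        #(univ.filter (fun p : ℙ F (Fin (n + 1) → F) => p.submodule ≤ W ⊓ H)) =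
        #(univ.filter (fun p : ℙ F (Fin (n + 1) → F) => p.submodule ≤ H)) := by
      apply Finset.card_sdiff_add_card_eq_card
      intro p hp
      rw [Finset.mem_filter] at hp ⊢
      exact ⟨hp.1, hp.2.trans inf_le_right⟩
    simp only [h2, h3] at hEH
    set A := #(univ.filter (fun p : ℙ F (Fin (n + 1) → F) => p.submodule ≤ H) \
          univ.filter (fun p : ℙ F (Fin (n + 1) → F) => p.submodule ≤ W ⊓ H)) with hA
    set B := #(univ.filter (fun p : ℙ F (Fin (n + 1) → F) => p.submodule ≤ W ⊓ H)) with hB
    set C := #(univ.filter (fun p : ℙ F (Fin (n + 1) → F) => p.submodule ≤ H)) with hC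
    have h5 : #(univ \ PW) = Fintype.card F * A := by
      have : #(univ \ PW) + (Fintype.card F * B + 1) = Fintype.card F * (A + B) + 1 := by
        rw [← hc1, hX, hc2, ← h4]
      have h6 : Fintype.card F * (A + B) = Fintype.card F * A + Fintype.card F * B := by ring
      omega
    rw [h5] at hEH
    rw [hcU, hcF, h1, hc1]
    have hqp : (0 : ℝ) < Fintype.card F := by positivity
    have h6 : (e : ℝ) ≤ Fintype.card F * #(E.filter (fun p => p.submodule ≤ H)) +
        4 * Fintype.card F * Real.sqrt (e * (Fintype.card F * (n + 1) + 2)) := by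
      by_cases hA0 : A = 0
      · have he0 : e = 0 := by
          have : #E ≤ #(univ \ PW) := Finset.card_le_card hEX
          rw [hEe, h5, hA0] at this
          simpa using this
        rw [he0]
        push_cast
        have : (0 : ℝ) ≤ Fintype.card F * #(E.filter (fun p => p.submodule ≤ H)) := by positivity
        have h7 : (0 : ℝ) ≤ 4 * Fintype.card F *
          Real.sqrt (0 * (Fintype.card F * (n + 1) + 2)) := by positivity
        linarith
      · have hA1 : (0 : ℝ) < A := by
          exact_mod_cast Nat.pos_of_ne_zero hA0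
        have h7 : (e : ℝ) * (A / ((Fintype.card F * A : ℕ) : ℝ)) = e / Fintype.card F := by
          push_cast
          field_simp
        rw [h7] at hEH
        have h8 := (abs_le.mp hEH).1
        have h9 : (e : ℝ) / Fintype.card F ≤ #(E.filter (fun p => p.submodule ≤ H)) +
            4 * Real.sqrt (e * (Fintype.card F * (n + 1) + 2)) := by
          push_cast at h8
          linarith
        rw [div_le_iff₀ hqp] at h9
        linarith
    push_cast
    linarith

end Pool.Agent.OSD
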