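import Pool.Agent.Strip.MinihyperFinal
import Pool.Agent.OSD.Ch2
import Pool.Agent.OSD.Hyp

open Finset Module
open scoped LinearAlgebra.Projectivization

namespace Pool.Agent.OSD

open Classical in
private theorem rnb_count (F : Type) [Field F] [Fintype F] (n : ℕ)
    [Fintype (ℙ F (Fin (n + 1) → F))] (W H : Submodule F (Fin (n + 1) → F))
    (hH : finrank F H = n) (hWH : ¬ W ≤ H) :
    Fintype.card F * #(univ.filter (fun p : ℙ F (Fin (n + 1) → F) => p.submodule ≤ W ⊓ H)) + 1 =
      #(univ.filter (fun p : ℙ F (Fin (n + 1) → F) => p.submodule ≤ W)) := by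
  have hq : 1 < Fintype.card F := Fintype.one_lt_card
  have h1 := Pool.Agent.Strip.MH.mh_card (F := F) (V := Fin (n + 1) → F) W
  have h2 := Pool.Agent.Strip.MH.mh_card (F := F) (V := Fin (n + 1) → F) (W ⊓ H)
  have hsup : finrank F (W ⊔ H : Submodule F (Fin (n + 1) → F)) = n + 1 := by
    have hlt : H < W ⊔ H := by
      refine lt_of_le_of_ne le_sup_right (fun h => hWH ?_)
      rw [h]
      exact le_sup_left
    have h3 := Submodule.finrank_lt_finrank_of_lt hlt
    have h4 := Submodule.finrank_le (W ⊔ H : Submodule F (Fin (n + 1) → F))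
    have h5 : finrank F (Fin (n + 1) → F) = n + 1 := by simp
    omega
  have hadd := Submodule.finrank_sup_add_finrank_inf_eq W H
  have hu : finrank F W = finrank F (W ⊓ H : Submodule F (Fin (n + 1) → F)) + 1 := by omega
  rw [hu, pow_succ, ← h2] at h1
  obtain ⟨k, hk⟩ : ∃ k, Fintype.card F = k + 2 := ⟨Fintype.card F - 2, by omega⟩
  rw [hk] at h1 ⊢
  have hk1 : k + 2 - 1 = k + 1 := by omega
  rw [hk1] at h1
  have h6 : (k + 1) * ((k + 2) *
      #(univ.filter (fun p : ℙ F (Fin (n + 1) → F) => p.submodule ≤ W ⊓ H)) + 1) =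
      (k + 1) * #(univ.filter (fun p : ℙ F (Fin (n + 1) → F) => p.submodule ≤ W)) := by
    nlinarith [h1]
  exact Nat.eq_of_mul_eq_mul_left (by omega) h6

open Classical in
/-- RNB: removing points from a subspace (uses CH2, HYP). -/
theorem near_sub (F : Type) [Field F] [Fintype F] (n e : ℕ) [Fintype (ℙ F (Fin (n + 1) → F))]
    (W : Submodule F (Fin (n + 1) → F))
    (he : e ≤ #(univ.filter (fun p : ℙ F (Fin (n + 1) → F) => p.submodule ≤ W))) :
    ∃ U : Finset (ℙ F (Fin (n + 1) → F)),
      #U + e = #(univ.filter (fun p : ℙ F (Fin (n + 1) → F) => p.submodule ≤ W)) ∧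
      ∀ H : Submodule F (Fin (n + 1) → F), finrank F H = n →
        (#U : ℝ) ≤ Fintype.card F * #(U.filter (fun p => p.submodule ≤ H)) + 1 +
          4 * Fintype.card F * Real.sqrt (e * (Fintype.card F * (n + 1) + 2)) := by
  have hfinS : Finite (Submodule F (Fin (n + 1) → F)) :=
    Finite.of_injective (fun H => (H : Set (Fin (n + 1) → F))) SetLike.coe_injective
  have : Fintype {H : Submodule F (Fin (n + 1) → F) // finrank F H = n} := Fintype.ofFinite _
  set PW : Finset (ℙ F (Fin (n + 1) → F)) := univ.filter (fun p => p.submodule ≤ W) with hPW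
  have hcard : Fintype.card {H : Submodule F (Fin (n + 1) → F) // finrank F H = n} ≤
      2 ^ (Fintype.card F * (n + 1)) := by
    rw [← Nat.card_eq_fintype_card]
    exact hyp_card F n
  obtain ⟨E, hEX, hEe, hE⟩ := sample_exists PW
    (fun H : {H : Submodule F (Fin (n + 1) → F) // finrank F H = n} =>
      univ.filter (fun p : ℙ F (Fin (n + 1) → F) => p.submodule ≤ H.1)) e
    (Fintype.card F * (n + 1)) he hcard
  have hq1 : (1 : ℝ) ≤ Fintype.card F := by
    exact_mod_cast (Fintype.card_pos : 0 < Fintype.card F)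
  have hs0 : 0 ≤ Real.sqrt (e * (Fintype.card F * (n + 1) + 2)) := Real.sqrt_nonneg _
  refine ⟨PW \ E, ?_, ?_⟩
  · rw [← hEe]
    exact Finset.card_sdiff_add_card_eq_card hEX
  · intro H hH
    have hUE : #(PW \ E) + e = #PW := by
      rw [← hEe]
      exact Finset.card_sdiff_add_card_eq_card hEX
    by_cases hWH : W ≤ H
    · have hall : (PW \ E).filter (fun p => p.submodule ≤ H) = PW \ E := by
        apply Finset.filter_true_of_mem
        intro p hp
        have h1 := (Finset.mem_sdiff.mp hp).1
        rw [hPW, Finset.mem_filter] at h1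
        exact h1.2.trans hWH
      rw [hall]
      have h2 : (0 : ℝ) ≤ (#(PW \ E) : ℝ) := Nat.cast_nonneg _
      have h3 : 0 ≤ 4 * (Fintype.card F : ℝ) *
          Real.sqrt (e * (Fintype.card F * (n + 1) + 2)) := by positivity
      nlinarith
    · have hcnt := rnb_count F n W H hH hWH
      have hE1 := hE ⟨H, hH⟩
      have hcast : ((Fintype.card F * (n + 1) : ℕ) : ℝ) + 2 =
          (Fintype.card F : ℝ) * (n + 1) + 2 := by push_cast; ring
      rw [hcast] at hE1
      have hinter : PW ∩ univ.filter (fun p : ℙ F (Fin (n + 1) → F) => p.submodule ≤ H) =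
          univ.filter (fun p : ℙ F (Fin (n + 1) → F) => p.submodule ≤ W ⊓ H) := by
        ext p
        simp only [hPW, Finset.mem_inter, Finset.mem_filter, Finset.mem_univ, true_and, le_inf_iff]
      have hsplit : #((PW \ E).filter (fun p => p.submodule ≤ H)) +
          #(E ∩ univ.filter (fun p : ℙ F (Fin (n + 1) → F) => p.submodule ≤ H)) =
          #(PW ∩ univ.filter (fun p : ℙ F (Fin (n + 1) → F) => p.submodule ≤ H)) := by
        have hsub : E ∩ univ.filter (fun p : ℙ F (Fin (n + 1) → F) => p.submodule ≤ H) ⊆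
            PW ∩ univ.filter (fun p : ℙ F (Fin (n + 1) → F) => p.submodule ≤ H) :=
          Finset.inter_subset_inter hEX (Finset.Subset.refl _)
        rw [← Finset.card_sdiff_add_card_eq_card hsub]
        congr 2
        ext p
        simp only [Finset.mem_filter, Finset.mem_sdiff, Finset.mem_inter, Finset.mem_univ,
          true_and]
        tauto
      rw [hinter] at hsplit
      simp only at hE1
      rw [hinter] at hE1
      set a := #(univ.filter (fun p : ℙ F (Fin (n + 1) → F) => p.submodule ≤ W ⊓ H)) with ha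
      set b := #(E ∩ univ.filter (fun p : ℙ F (Fin (n + 1) → F) => p.submodule ≤ H)) with hb
      set c := #((PW \ E).filter (fun p => p.submodule ≤ H)) with hc
      set s := Real.sqrt (e * (Fintype.card F * (n + 1) + 2)) with hs
      have hE2 := (abs_le.mp hE1).2
      have h1 : (Fintype.card F : ℝ) * a + 1 = #PW := by exact_mod_cast hcnt
      have h2 : (c : ℝ) + b = a := by exact_mod_cast hsplit
      have h3 : (#(PW \ E) : ℝ) + e = #PW := by exact_mod_cast hUE
      have ha0 : (0 : ℝ) ≤ a := Nat.cast_nonneg _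
      have he0 : (0 : ℝ) ≤ e := Nat.cast_nonneg _
      have hw : (0 : ℝ) < #PW := by
        rw [← h1]
        have : (0 : ℝ) ≤ (Fintype.card F : ℝ) * a := by positivity
        linarith
      have h4 : (Fintype.card F : ℝ) * (e * ((a : ℝ) / #PW)) ≤ e := by
        have h5 : (Fintype.card F : ℝ) * (e * ((a : ℝ) / #PW)) =
            e * (((Fintype.card F : ℝ) * a) / #PW) := by ring
        rw [h5]
        have h6 : ((Fintype.card F : ℝ) * a) / #PW ≤ 1 := by
          rw [div_le_one hw]
          linarith
        calc (e : ℝ) * (((Fintype.card F : ℝ) * a) / #PW) ≤ e * 1 :=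
              mul_le_mul_of_nonneg_left h6 he0
          _ = e := mul_one _
      have h7 : (b : ℝ) ≤ e * ((a : ℝ) / #PW) + 4 * s := by linarith
      have h8 : (Fintype.card F : ℝ) * b ≤ e + 4 * Fintype.card F * s := by
        have := mul_le_mul_of_nonneg_left h7 (by linarith : (0 : ℝ) ≤ Fintype.card F)
        nlinarith
      have h9 : (Fintype.card F : ℝ) * c = (Fintype.card F : ℝ) * a - (Fintype.card F : ℝ) * b := by
        rw [← h2]; ring
      rw [h9]
      linarith

end Pool.Agent.OSD
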