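import Pool.Agent.OSD.Rna
import Pool.Agent.OSD.Rnb
import Pool.Agent.Strip.MinihyperFinal
import Pool.Agent.Strip.Spread

/-!
Row RNF of the board OSD (MP_f2094b_co): point sets of every size near subspaces.
-/

open Finset Module
open scoped LinearAlgebra.Projectivization

namespace Pool.Agent.OSD

/-- arithmetic: if `m` is larger than `q w` then the next power is nearer -/
private theorem rnf_near (q w m v n : ℕ) (hq : 2 ≤ q) (hw : (q - 1) * w + 1 = q ^ v)
    (hm : (q - 1) * m < q ^ (n + 1)) (he : (q - 1) * w < m - w) :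
    q ^ (v + 1) ≤ (q - 1) * m + 1 ∧ v + 1 ≤ n + 1 := by
  obtain ⟨r, rfl⟩ : ∃ r, q = r + 1 := ⟨q - 1, by omega⟩
  rw [Nat.add_sub_cancel] at hw hm he ⊢
  have h1 : (r + 1) * w + 1 ≤ m := by
    have : r * w + w < m := by omega
    nlinarith
  have h2 : (r + 1) ^ (v + 1) ≤ r * m + 1 := by
    rw [pow_succ, ← hw]
    nlinarith [Nat.mul_le_mul_left r h1]
  refine ⟨h2, ?_⟩
  have h3 : (r + 1) ^ (v + 1) ≤ (r + 1) ^ (n + 1) := by omega
  exact (Nat.pow_le_pow_iff_right (by omega)).1 h3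

/-- the comparison of the error terms -/
private theorem rnf_sqrt (q n e : ℕ) (d : ℝ) (hq : 2 ≤ q) (hd : (e : ℝ) ≤ d) :
    4 * (q : ℝ) * Real.sqrt (e * (q * (n + 1) + 2)) ≤
      8 * (q : ℝ) ^ 2 * Real.sqrt ((n + 1) * d) := by
  have hq' : (2 : ℝ) ≤ q := by exact_mod_cast hq
  have hn : (0 : ℝ) ≤ n := Nat.cast_nonneg n
  have he : (0 : ℝ) ≤ e := Nat.cast_nonneg e
  have h1 : (e : ℝ) * (q * (n + 1) + 2) ≤ (2 * q) ^ 2 * ((n + 1) * d) := by
    have h7 : (2 : ℝ) ≤ 4 * (q : ℝ) ^ 2 - q := by nlinarith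
    have h8 : 0 ≤ (n : ℝ) * (4 * (q : ℝ) ^ 2 - q) := mul_nonneg hn (by linarith)
    have h2 : (q : ℝ) * (n + 1) + 2 ≤ (2 * q) ^ 2 * (n + 1) := by nlinarith
    calc (e : ℝ) * (q * (n + 1) + 2) ≤ e * ((2 * q) ^ 2 * (n + 1)) :=
          mul_le_mul_of_nonneg_left h2 he
      _ = ((2 * q) ^ 2 * (n + 1)) * e := by ring
      _ ≤ ((2 * q) ^ 2 * (n + 1)) * d := mul_le_mul_of_nonneg_left hd (by positivity)
      _ = (2 * q) ^ 2 * ((n + 1) * d) := by ring
  have h3 : Real.sqrt (e * (q * (n + 1) + 2)) ≤ 2 * q * Real.sqrt ((n + 1) * d) := by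
    refine (Real.sqrt_le_sqrt h1).trans ?_
    rw [Real.sqrt_mul (by positivity), Real.sqrt_sq (by positivity)]
  calc 4 * (q : ℝ) * Real.sqrt (e * (q * (n + 1) + 2))
      ≤ 4 * q * (2 * q * Real.sqrt ((n + 1) * d)) := mul_le_mul_of_nonneg_left h3 (by positivity)
    _ = 8 * (q : ℝ) ^ 2 * Real.sqrt ((n + 1) * d) := by ring

open Classical in
/-- RNF: sets near subspaces of every size (uses RNA, RNB). -/
theorem pg_upper (F : Type) [Field F] [Fintype F] (n m u : ℕ)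
    [Fintype (ℙ F (Fin (n + 1) → F))]
    (hm : (Fintype.card F - 1) * m < Fintype.card F ^ (n + 1)) (hu : u ≤ n + 1) :
    ∃ U : Finset (ℙ F (Fin (n + 1) → F)), #U = m ∧
      ∀ H : Submodule F (Fin (n + 1) → F), finrank F H = n →
        (m : ℝ) ≤ Fintype.card F * #(U.filter (fun p => p.submodule ≤ H)) + 1 +
          8 * (Fintype.card F : ℝ) ^ 2 *
            Real.sqrt ((n + 1) * |((Fintype.card F : ℝ) - 1) * m + 1 - (Fintype.card F : ℝ) ^ u|) := by
  have hdim : finrank F (Fin (n + 1) → F) = n + 1 := Module.finrank_fin_fun F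
  set q := Fintype.card F with hqdef
  have hq2 : 2 ≤ q := Fintype.one_lt_card
  have hq1 : (1 : ℝ) ≤ (q : ℝ) - 1 := by
    have : (2 : ℝ) ≤ q := by exact_mod_cast hq2
    linarith
  -- the nearest power
  obtain ⟨v, hv, hmin⟩ := Finset.exists_min_image (Finset.range (n + 2))
    (fun v => |((q : ℝ) - 1) * m + 1 - (q : ℝ) ^ v|) ⟨0, Finset.mem_range.2 (by omega)⟩
  rw [Finset.mem_range] at hv
  have hmin' : ∀ x, x ≤ n + 1 → |((q : ℝ) - 1) * m + 1 - (q : ℝ) ^ v| ≤
      |((q : ℝ) - 1) * m + 1 - (q : ℝ) ^ x| := fun x hx =>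
    hmin x (Finset.mem_range.2 (by omega))
  obtain ⟨W, hW⟩ := Pool.Agent.Strip.spread_sub F (V := Fin (n + 1) → F) (d := v)
    (by rw [hdim]; omega)
  have hw := Pool.Agent.Strip.MH.mh_card W
  rw [hW, ← hqdef] at hw
  have htop := Pool.Agent.Strip.MH.mh_card (⊤ : Submodule F (Fin (n + 1) → F))
  rw [finrank_top, hdim, ← hqdef, Finset.filter_true_of_mem (fun p _ => le_top)] at htop
  set w := #(univ.filter (fun p : ℙ F (Fin (n + 1) → F) => p.submodule ≤ W)) with hwdef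
  have hw' : ((q : ℝ) - 1) * w + 1 = (q : ℝ) ^ v := by
    have h : (((q - 1) * w + 1 : ℕ) : ℝ) = ((q ^ v : ℕ) : ℝ) := by rw [hw]
    rw [Nat.cast_add, Nat.cast_mul, Nat.cast_sub (by omega : 1 ≤ q), Nat.cast_pow] at h
    simpa using h
  have hd : |((q : ℝ) - 1) * m + 1 - (q : ℝ) ^ v| = ((q : ℝ) - 1) * |(m : ℝ) - w| := by
    rw [← hw', show ((q : ℝ) - 1) * m + 1 - (((q : ℝ) - 1) * w + 1) =
      ((q : ℝ) - 1) * ((m : ℝ) - w) by ring, abs_mul, abs_of_nonneg (by linarith)]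
  have hdu : |(m : ℝ) - w| ≤ |((q : ℝ) - 1) * m + 1 - (q : ℝ) ^ u| := by
    refine le_trans ?_ (hmin' u hu)
    rw [hd]
    nlinarith [abs_nonneg ((m : ℝ) - w)]
  have hmtop : m ≤ #(univ : Finset (ℙ F (Fin (n + 1) → F))) := by
    have h : (q - 1) * m ≤ (q - 1) * #(univ : Finset (ℙ F (Fin (n + 1) → F))) := by omega
    exact Nat.le_of_mul_le_mul_left h (by omega)
  rcases le_or_gt w m with hwm | hwm
  · -- add points
    have hcast : ((m - w : ℕ) : ℝ) = |(m : ℝ) - w| := by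
      rw [Nat.cast_sub hwm, abs_of_nonneg]
      have : (w : ℝ) ≤ m := by exact_mod_cast hwm
      linarith
    have he : m - w ≤ (q - 1) * w := by
      by_contra hcon
      push Not at hcon
      obtain ⟨h1, h2⟩ := rnf_near q w m v n hq2 hw hm hcon
      have h3 := hmin' (v + 1) h2
      have h1' : (q : ℝ) ^ (v + 1) ≤ ((q : ℝ) - 1) * m + 1 := by
        have h : ((q ^ (v + 1) : ℕ) : ℝ) ≤ (((q - 1) * m + 1 : ℕ) : ℝ) := by exact_mod_cast h1
        rw [Nat.cast_add, Nat.cast_mul, Nat.cast_sub (by omega : 1 ≤ q), Nat.cast_pow] at h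
        simpa using h
      have hqv : (0 : ℝ) < (q : ℝ) ^ v := by positivity
      have h4 : (q : ℝ) ^ v < (q : ℝ) ^ (v + 1) := by
        rw [pow_succ]
        nlinarith
      rw [abs_of_nonneg (by linarith), abs_of_nonneg (by linarith)] at h3
      linarith
    obtain ⟨U, hU, hH⟩ := near_add F n (m - w) W he (by rw [← hwdef]; omega)
    rw [← hwdef] at hU
    have hUm : #U = m := by omega
    refine ⟨U, hUm, fun H hHn => ?_⟩
    have h5 := hH H hHn
    rw [hUm, ← hqdef] at h5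
    have h6 := rnf_sqrt q n (m - w) _ hq2 (hcast.le.trans hdu)
    linarith
  · -- remove points
    have hcast : ((w - m : ℕ) : ℝ) = |(m : ℝ) - w| := by
      rw [Nat.cast_sub hwm.le, abs_of_nonpos]
      · ring
      · have : (m : ℝ) ≤ w := by exact_mod_cast hwm.le
        linarith
    obtain ⟨U, hU, hH⟩ := near_sub F n (w - m) W (by rw [← hwdef]; omega)
    rw [← hwdef] at hU
    have hUm : #U = m := by omega
    refine ⟨U, hUm, fun H hHn => ?_⟩
    have h5 := hH H hHn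
    rw [hUm, ← hqdef] at h5
    have h6 := rnf_sqrt q n (w - m) _ hq2 (hcast.le.trans hdu)
    linarith

end Pool.Agent.OSD
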