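import Pool.Agent.OSD.Ma2
import Pool.Agent.OSD.Lnk

/-!
# Stability with the sharp exponent for point sets
-/

open Finset Module
open scoped LinearAlgebra.Projectivization

namespace Pool.Agent.OSD

open Pool.Agent.GapCodes Pool.Agent.LLog

attribute [local instance] fintypeDual

open Classical in
private theorem st2_card (F : Type) [Field F] [Fintype F] (n : ℕ)
    [Fintype (ℙ F (Fin (n + 1) → F))] (U : Finset (ℙ F (Fin (n + 1) → F))) :
    #U ≤ Fintype.card F ^ (n + 1) := by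
  have h1 : Function.Injective (fun p : ℙ F (Fin (n + 1) → F) => p.rep) := by
    intro p p' h
    have h2 : p.rep = p'.rep := h
    rw [← p.mk_rep, ← p'.mk_rep]
    congr 1
  calc #U ≤ Fintype.card (ℙ F (Fin (n + 1) → F)) := Finset.card_le_univ U
    _ ≤ Fintype.card (Fin (n + 1) → F) := Fintype.card_le_of_injective _ h1
    _ = Fintype.card F ^ (n + 1) := by rw [Fintype.card_fun, Fintype.card_fin]

/-- the exponents -/
private theorem st2_exp {q C n z : ℕ} (hq : 1 ≤ q) (hn : 2 * C * (3 + q) ≤ n)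
    (h : (z + 2) * (2 * C * q) ≤ (3 + q) * (2 * C * q) + q * n) : C * (z + 1 + 1) ≤ n + 1 := by
  have h1 : q * (2 * C * (z + 2)) ≤ q * (2 * C * (3 + q) + n) := by
    calc q * (2 * C * (z + 2)) = (z + 2) * (2 * C * q) := by ring
      _ ≤ (3 + q) * (2 * C * q) + q * n := h
      _ = q * (2 * C * (3 + q) + n) := by ring
  have h2 : 2 * C * (z + 2) ≤ 2 * C * (3 + q) + n := Nat.le_of_mul_le_mul_left h1 hq
  have h3 : 2 * (C * (z + 2)) ≤ 2 * n := by
    calc 2 * (C * (z + 2)) = 2 * C * (z + 2) := by ring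
      _ ≤ 2 * C * (3 + q) + n := h2
      _ ≤ 2 * n := by omega
  have h4 : C * (z + 2) ≤ n := by omega
  exact h4.trans (Nat.le_succ n)

open Classical in
/-- ST2 (uses MA2, LNK) -/
theorem pg_stab2 (F : Type) [Field F] [Fintype F] : ∃ A C : ℕ, 1 ≤ A ∧ 1 ≤ C ∧
    ∀ (n m j : ℕ) [Fintype (ℙ F (Fin (n + 1) → F))] (U : Finset (ℙ F (Fin (n + 1) → F))),
      #U = m → (∀ H : Submodule F (Fin (n + 1) → F), finrank F H = n →
        m ≤ Fintype.card F * #(U.filter (fun p => p.submodule ≤ H)) + j) →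
      ((j + 1) * Fintype.card F ^ n) ^ A ≤ m ^ A * Fintype.card F ^ n →
      ∃ W : Submodule F (Fin (n + 1) → F),
        #((U \ univ.filter (fun p => p.submodule ≤ W)) ∪
            (univ.filter (fun p => p.submodule ≤ W) \ U)) * m ≤
          C * (j + 1) ^ 2 * Fintype.card F ^ n := by
  obtain ⟨C, hC, hmain⟩ := cone_main2 F
  obtain ⟨ψ, hψ⟩ : ∃ ψ : AddChar F ℂ, ψ ≠ 0 := by
    obtain ⟨ψ, hψ1⟩ : ∃ ψ : AddChar F ℂ, ψ 1 ≠ 1 :=
      (AddChar.exists_apply_ne_zero).mpr one_ne_zero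
    refine ⟨ψ, ?_⟩
    rintro rfl
    simp at hψ1
  have hq2 : 2 ≤ Fintype.card F := Fintype.one_lt_card
  have hcardU : ∀ (n : ℕ) [Fintype (ℙ F (Fin (n + 1) → F))]
      (U : Finset (ℙ F (Fin (n + 1) → F))), #U ≤ Fintype.card F ^ (n + 1) :=
    fun n _ U => st2_card F n U
  set q := Fintype.card F with hq
  have hqlt : q ≤ 2 ^ q := Nat.lt_two_pow_self.le
  refine ⟨2 * C * q, 44 * q + q ^ (2 * C * (3 + q) + 1), Nat.mul_pos (by omega) (by omega),
    by omega, ?_⟩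
  intro n m j _ U hU hH hA
  rcases Nat.eq_zero_or_pos m with hm0 | hm
  · subst hm0
    exact ⟨⊥, by rw [mul_zero]; exact Nat.zero_le _⟩
  rcases Nat.lt_or_ge n (2 * C * (3 + q)) with hn | hn
  · -- small dimension
    refine ⟨⊥, ?_⟩
    have h1 := hcardU n ((U \ univ.filter (fun p => p.submodule ≤ ⊥)) ∪
            (univ.filter (fun p => p.submodule ≤ ⊥) \ U))
    have h2 : m ≤ q ^ (n + 1) := hU ▸ hcardU n U
    have hj : 1 ≤ (j + 1) ^ 2 := Nat.one_le_pow _ _ (by omega)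
    calc #((U \ univ.filter (fun p => p.submodule ≤ ⊥)) ∪
            (univ.filter (fun p => p.submodule ≤ ⊥) \ U)) * m
        ≤ q ^ (n + 1) * q ^ (n + 1) := Nat.mul_le_mul h1 h2
      _ = q ^ (n + 2) * 1 * q ^ n := by ring
      _ ≤ (44 * q + q ^ (2 * C * (3 + q) + 1)) * (j + 1) ^ 2 * q ^ n := by
          refine Nat.mul_le_mul_right _ (Nat.mul_le_mul ?_ hj)
          have h3 : q ^ (n + 2) ≤ q ^ (2 * C * (3 + q) + 1) :=
            Nat.pow_le_pow_right (by omega) (by omega)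
          omega
  obtain ⟨P, f, hc, hsum, hlink⟩ := pg_cone (j := j) hψ n U (by
    intro H hHn
    rw [hU]
    exact hH H hHn)
  rw [hU] at hsum
  have hM : Fintype.card (Fin (n + 1) → F) = q ^ (n + 1) := by
    rw [Fintype.card_fun, Fintype.card_fin]
  have hqR : (2 : ℝ) ≤ q := by exact_mod_cast hq2
  have hmR : (1 : ℝ) ≤ m := by exact_mod_cast hm
  have hfm : (m : ℝ) ≤ ∑ x, f x := by
    rw [hsum]
    nlinarith
  have hfM : ∑ x, f x ≤ (q : ℝ) ^ (n + 1) := by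
    have h2 : ∑ x, f x ≤ ∑ _x : Module.Dual F (Fin (n + 1) → F), (1 : ℝ) := by
      refine Finset.sum_le_sum (fun x _ => ?_)
      rcases hc.ind x with h | h <;> rw [h] <;> norm_num
    refine h2.trans (le_of_eq ?_)
    rw [Finset.sum_const, Finset.card_univ, nsmul_eq_mul, mul_one]
    have h3 : Fintype.card (Module.Dual F (Fin (n + 1) → F)) = q ^ (n + 1) := by
      rw [Module.card_eq_pow_finrank (K := F), Subspace.dual_finrank_eq, Module.finrank_fin_fun]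
    rw [h3]
    push_cast
    rfl
  have hMpos : (0 : ℝ) < (q : ℝ) ^ (n + 1) := by positivity
  have hex : ∃ y : ℕ, ((j : ℝ) + 2) * (q : ℝ) ^ (n + 1) ≤ 2 ^ y * ∑ x, f x := by
    obtain ⟨y, hy⟩ := pow_unbounded_of_one_lt (((j : ℝ) + 2) * (q : ℝ) ^ (n + 1)) (one_lt_two)
    refine ⟨y, hy.le.trans ?_⟩
    have h1 : (1 : ℝ) ≤ ∑ x, f x := hmR.trans hfm
    have h2 : (0 : ℝ) < 2 ^ y := by positivity
    nlinarith
  obtain ⟨y, hy, hymin⟩ : ∃ y : ℕ, ((j : ℝ) + 2) * (q : ℝ) ^ (n + 1) ≤ 2 ^ y * ∑ x, f x ∧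
      ∀ z < y, ¬ ((j : ℝ) + 2) * (q : ℝ) ^ (n + 1) ≤ 2 ^ z * ∑ x, f x :=
    ⟨Nat.find hex, Nat.find_spec hex, fun z hz => Nat.find_min hex hz⟩
  have hj0 : (0 : ℝ) ≤ j := Nat.cast_nonneg j
  have hy1 : 1 ≤ y := by
    by_contra hcon
    have h0 : y = 0 := by omega
    rw [h0, pow_zero, one_mul] at hy
    nlinarith
  obtain ⟨z, rfl⟩ : ∃ z, y = z + 1 := ⟨y - 1, by omega⟩
  have hz := not_le.mp (hymin z (by omega))
  -- the size of `z`
  have h1 : (2 : ℝ) ^ (z + 2) * m ≤ (8 * q) * (((j : ℝ) + 1) * (q : ℝ) ^ n) := by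
    have h2 : (2 : ℝ) ^ (z + 2) * m ≤ 4 * (2 ^ z * ∑ x, f x) := by
      have h3 : (2 : ℝ) ^ (z + 2) = 4 * 2 ^ z := by ring
      rw [h3, mul_assoc]
      have h4 : (0 : ℝ) < 2 ^ z := by positivity
      have h5 := mul_le_mul_of_nonneg_left hfm h4.le
      linarith
    have h6 : 4 * (((j : ℝ) + 2) * (q : ℝ) ^ (n + 1)) ≤
        (8 * q) * (((j : ℝ) + 1) * (q : ℝ) ^ n) := by
      have h7 : (8 * (q : ℝ)) * (((j : ℝ) + 1) * (q : ℝ) ^ n) -
          4 * (((j : ℝ) + 2) * (q : ℝ) ^ (n + 1)) = 4 * (q * (q : ℝ) ^ n) * j := by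
        rw [pow_succ]
        ring
      have h8 : 0 ≤ 4 * ((q : ℝ) * (q : ℝ) ^ n) * j := by positivity
      linarith
    linarith
  have h1' : 2 ^ (z + 2) * m ≤ (8 * q) * ((j + 1) * q ^ n) := by exact_mod_cast h1
  have h8q : 8 * q ≤ 2 ^ (3 + q) := by
    rw [pow_add]
    exact Nat.mul_le_mul_left _ hqlt
  have hexp : (z + 2) * (2 * C * q) ≤ (3 + q) * (2 * C * q) + q * n := by
    have h2 : (2 ^ (z + 2) * m) ^ (2 * C * q) ≤
        (2 ^ (3 + q)) ^ (2 * C * q) * (m ^ (2 * C * q) * (2 ^ q) ^ n) := by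
      calc (2 ^ (z + 2) * m) ^ (2 * C * q) ≤ ((8 * q) * ((j + 1) * q ^ n)) ^ (2 * C * q) :=
            Nat.pow_le_pow_left h1' _
        _ = (8 * q) ^ (2 * C * q) * ((j + 1) * q ^ n) ^ (2 * C * q) := mul_pow _ _ _
        _ ≤ (2 ^ (3 + q)) ^ (2 * C * q) * (m ^ (2 * C * q) * q ^ n) :=
            Nat.mul_le_mul (Nat.pow_le_pow_left h8q _) hA
        _ ≤ (2 ^ (3 + q)) ^ (2 * C * q) * (m ^ (2 * C * q) * (2 ^ q) ^ n) :=
            Nat.mul_le_mul_left _ (Nat.mul_le_mul_left _ (Nat.pow_le_pow_left hqlt _))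
    have h3 : 2 ^ ((z + 2) * (2 * C * q)) * m ^ (2 * C * q) ≤
        2 ^ ((3 + q) * (2 * C * q) + q * n) * m ^ (2 * C * q) := by
      calc 2 ^ ((z + 2) * (2 * C * q)) * m ^ (2 * C * q) = (2 ^ (z + 2) * m) ^ (2 * C * q) := by
            rw [mul_pow, ← pow_mul]
        _ ≤ (2 ^ (3 + q)) ^ (2 * C * q) * (m ^ (2 * C * q) * (2 ^ q) ^ n) := h2
        _ = 2 ^ ((3 + q) * (2 * C * q) + q * n) * m ^ (2 * C * q) := by
            rw [← pow_mul, ← pow_mul, pow_add]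
            ring
    have h4 := Nat.le_of_mul_le_mul_right h3 (Nat.pow_pos hm)
    exact (Nat.pow_le_pow_iff_right (by norm_num)).1 h4
  obtain ⟨W, hW⟩ := hmain (Fin (n + 1) → F) ψ hψ j (z + 1) P f hc (by
    rw [hM]
    push_cast
    exact hy) (by
    rw [Module.finrank_fin_fun]
    exact st2_exp (by omega) hn hexp)
  obtain ⟨W', hW'⟩ := hlink W
  refine ⟨W', ?_⟩
  generalize #((U \ univ.filter (fun p => p.submodule ≤ W')) ∪
            (univ.filter (fun p => p.submodule ≤ W') \ U)) = D at hW' ⊢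
  have hD0 : (0 : ℝ) ≤ D := Nat.cast_nonneg D
  have hfin : (D : ℝ) * m ≤ (44 * (q : ℝ) + (q : ℝ) ^ (2 * C * (3 + q) + 1)) *
      ((j : ℝ) + 1) ^ 2 * (q : ℝ) ^ n := by
    have h2 : (D : ℝ) * m ≤ 44 * ((j : ℝ) + 1) ^ 2 * (q : ℝ) ^ (n + 1) := by
      have h3 : (D : ℝ) * m ≤ (∑ x, |f x - (if x ∈ W then 1 else 0)|) * ∑ x, f x :=
        mul_le_mul hW' hfm (by linarith) (hD0.trans hW')
      refine h3.trans (hW.trans (le_of_eq ?_))
      rw [hM]
      push_cast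
      ring
    have h4 : (0 : ℝ) ≤ (q : ℝ) ^ (2 * C * (3 + q) + 1) * ((j : ℝ) + 1) ^ 2 * (q : ℝ) ^ n := by
      positivity
    calc (D : ℝ) * m ≤ 44 * ((j : ℝ) + 1) ^ 2 * (q : ℝ) ^ (n + 1) := h2
      _ = 44 * (q : ℝ) * ((j : ℝ) + 1) ^ 2 * (q : ℝ) ^ n := by ring
      _ ≤ 44 * (q : ℝ) * ((j : ℝ) + 1) ^ 2 * (q : ℝ) ^ n +
          (q : ℝ) ^ (2 * C * (3 + q) + 1) * ((j : ℝ) + 1) ^ 2 * (q : ℝ) ^ n := by linarith
      _ = _ := by ring
  exact_mod_cast hfin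

end Pool.Agent.OSD
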