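import Pool.Agent.OSD.Ma4
import Pool.Agent.OSD.Ln4

/-!
# Refined stability for point sets: moments
-/

open Finset Module
open scoped LinearAlgebra.Projectivization

namespace Pool.Agent.OSD

open Pool.Agent.GapCodes Pool.Agent.LLog

attribute [local instance] fintypeDual

open Classical in
private theorem st4_card (F : Type) [Field F] [Fintype F] (n : ℕ)
    [Fintype (ℙ F (Fin (n + 1) → F))] (U : Finset (ℙ F (Fin (n + 1) → F))) :
    #U ≤ Fintype.card F ^ (n + 1) := by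
  have h1 : Function.Injective (fun p : ℙ F (Fin (n + 1) → F) => p.rep) := by
    intro p p' h
    have h2 : p.rep = p'.rep := h
    rw [← p.mk_rep, ← p'.mk_rep]
    congr 1
  calc #U ≤ Fintype.card (ℙ F (Fin (n + 1) → F)) := Finset.card_le_univ U
    _ ≤ Fintype.card (Fin (n + 1) → F) := Fintype.card_le_of_injective _ h1
    _ = Fintype.card F ^ (n + 1) := by rw [Fintype.card_fun, Fintype.card_fin]

/-- the exponents -/
private theorem st4_exp {q C n z : ℕ} (hq : 1 ≤ q) (hn : 2 * C * (3 + q) ≤ n)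
    (h : (z + 2) * (2 * C * q) ≤ (3 + q) * (2 * C * q) + q * n) : C * (z + 1 + 1) ≤ n + 1 := by
  have h1 : q * (2 * C * (z + 2)) ≤ q * (2 * C * (3 + q) + n) := by
    calc q * (2 * C * (z + 2)) = (z + 2) * (2 * C * q) := by ring
      _ ≤ (3 + q) * (2 * C * q) + q * n := h
      _ = q * (2 * C * (3 + q) + n) := by ring
  have h2 : 2 * C * (z + 2) ≤ 2 * C * (3 + q) + n := Nat.le_of_mul_le_mul_left h1 hq
  have h3 : 2 * (C * (z + 2)) ≤ 2 * n := by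
    calc 2 * (C * (z + 2)) = 2 * C * (z + 2) := by ring
      _ ≤ 2 * C * (3 + q) + n := h2
      _ ≤ 2 * n := by omega
  have h4 : C * (z + 2) ≤ n := by omega
  exact h4.trans (Nat.le_succ n)

/-- `q ^ n ≤ m ^ 2` in the range considered -/
private theorem st4_sq {Q m A : ℕ} (hQ : 1 ≤ Q) (hA : 2 ≤ A) (h : Q ^ A ≤ m ^ A * Q) :
    Q ≤ m ^ 2 := by
  by_contra hcon
  have h0 : m ^ 2 < Q := not_le.mp hcon
  obtain ⟨B, rfl⟩ : ∃ B, A = B + 2 := ⟨A - 2, by omega⟩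
  have h1 : Q ^ (B + 1) ≤ m ^ (B + 2) := by
    have h2 : Q ^ (B + 1) * Q ≤ m ^ (B + 2) * Q := by
      rw [← pow_succ]
      exact h
    exact Nat.le_of_mul_le_mul_right h2 hQ
  have h3 : (Q ^ (B + 1)) ^ 2 ≤ (m ^ (B + 2)) ^ 2 := Nat.pow_le_pow_left h1 2
  have h4 : (m ^ (B + 2)) ^ 2 = (m ^ 2) ^ (B + 2) := by ring
  have h5 : (m ^ 2) ^ (B + 2) < Q ^ (B + 2) := Nat.pow_lt_pow_left h0 (by omega)
  have h6 : Q ^ (B + 2) ≤ (Q ^ (B + 1)) ^ 2 := by
    rw [← pow_mul]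
    exact Nat.pow_le_pow_right hQ (by omega)
  omega

/-- the size condition of the refined bound -/
private theorem st4_big {q D E A r s n m : ℕ} (hD : 9 ≤ D) (hE : E ≤ q * D)
    (hs : 1 ≤ s) (hsr : s ≤ r) (hA : 6 * q + 22 ≤ A) (hr : D ^ (A * r) ≤ q ^ n)
    (hm : q ^ n ≤ m ^ 2) : 4 * (4 * E) ^ (2 * s + 1) ≤ m := by
  have hD1 : 1 ≤ D := by omega
  have h1 : 4 * E ≤ D ^ (q + 2) := by
    have h2 : q ≤ D ^ q := (Nat.lt_pow_self (by omega)).le
    calc 4 * E ≤ D * (D ^ q * D) := Nat.mul_le_mul (by omega) (hE.trans (Nat.mul_le_mul_right _ h2))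
      _ = D ^ (q + 2) := by ring
  have h3 : 4 * (4 * E) ^ (2 * s + 1) ≤ D ^ ((3 * q + 7) * s) := by
    calc 4 * (4 * E) ^ (2 * s + 1) ≤ D * (D ^ (q + 2)) ^ (2 * s + 1) :=
          Nat.mul_le_mul (by omega) (Nat.pow_le_pow_left h1 _)
      _ = D ^ (1 + (q + 2) * (2 * s + 1)) := by rw [← pow_mul, pow_add, pow_one]
      _ ≤ D ^ ((3 * q + 7) * s) := by
          apply Nat.pow_le_pow_right hD1
          have h4 : (q + 2) * (2 * s + 1) ≤ (q + 2) * (3 * s) :=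
            Nat.mul_le_mul_left _ (by omega)
          have h5 : (3 * q + 7) * s = (q + 2) * (3 * s) + s := by ring
          omega
  have h6 : (4 * (4 * E) ^ (2 * s + 1)) ^ 2 ≤ m ^ 2 := by
    calc (4 * (4 * E) ^ (2 * s + 1)) ^ 2 ≤ (D ^ ((3 * q + 7) * s)) ^ 2 := Nat.pow_le_pow_left h3 2
      _ = D ^ ((6 * q + 14) * s) := by rw [← pow_mul]; congr 1; ring
      _ ≤ D ^ (A * r) := Nat.pow_le_pow_right hD1 (Nat.mul_le_mul (by omega) hsr)
      _ ≤ q ^ n := hr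
      _ ≤ m ^ 2 := hm
  exact (Nat.pow_le_pow_iff_left (by norm_num)).1 h6

open Classical in
/-- ST4 (uses MA4, LN4). -/
theorem pg_stab4 (F : Type) [Field F] [Fintype F] : ∃ A C : ℕ, 1 ≤ A ∧ 1 ≤ C ∧
    ∀ (n m j : ℕ) [Fintype (ℙ F (Fin (n + 1) → F))] (U : Finset (ℙ F (Fin (n + 1) → F))),
      #U = m → (∀ H : Submodule F (Fin (n + 1) → F), finrank F H = n →
        m ≤ Fintype.card F * #(U.filter (fun p => p.submodule ≤ H)) + j) →
      ((j + 1) * Fintype.card F ^ n) ^ A ≤ m ^ A * Fintype.card F ^ n →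
      ∃ (W : Submodule F (Fin (n + 1) → F)) (D : ℕ),
        D = #((U \ univ.filter (fun p => p.submodule ≤ W)) ∪
            (univ.filter (fun p => p.submodule ≤ W) \ U)) ∧
        D * m ≤ C * (j + 1) ^ 2 * Fintype.card F ^ n ∧
        ∀ r : ℕ, r ≤ D → D ^ (A * r) ≤ Fintype.card F ^ n →
          r * D * m ^ 2 ≤ C * ((j + 1) * Fintype.card F ^ n) ^ 2 := by
  obtain ⟨C0, hC0, hmain0⟩ := cone_main4 F
  obtain ⟨C, hC, hC14, hmain⟩ : ∃ C : ℕ, 1 ≤ C ∧ 14 ≤ C ∧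
    ∀ (V : Type) [AddCommGroup V] [Module F V] [Fintype V] (ψ : AddChar F ℂ) (_ : ψ ≠ 0)
      (j y : ℕ) (P : V → ℝ) (f : Module.Dual F V → ℝ), Cone ψ j P f →
      ((j : ℝ) + 2) * Fintype.card V ≤ 2 ^ y * ∑ x, f x →
      C * (y + 1) ≤ finrank F V →
      ∃ W : Submodule F (Module.Dual F V), ∃ D : ℕ,
        ∑ x, |f x - (if x ∈ W then 1 else 0)| = D ∧
        (D : ℝ) * ∑ x, f x ≤ 44 * ((j : ℝ) + 1) ^ 2 * Fintype.card V ∧
        ∀ r : ℕ, 1 ≤ r → 4 * r ≤ D → 4 * (4 * (D : ℝ)) ^ (2 * r + 1) ≤ ∑ x, f x →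
          (r : ℝ) * D * (∑ x, f x) ^ 2 ≤
            73728 * ((j : ℝ) + 1) ^ 2 * (Fintype.card V : ℝ) ^ 2 := by
    refine ⟨C0 + 14, by omega, by omega, ?_⟩
    intro V _ _ _ ψ hψ j y P f hc hy hC
    exact hmain0 V ψ hψ j y P f hc hy ((Nat.mul_le_mul_right _ (by omega)).trans hC)
  obtain ⟨ψ, hψ⟩ : ∃ ψ : AddChar F ℂ, ψ ≠ 0 := by
    obtain ⟨ψ, hψ1⟩ : ∃ ψ : AddChar F ℂ, ψ 1 ≠ 1 :=
      (AddChar.exists_apply_ne_zero).mpr one_ne_zero
    refine ⟨ψ, ?_⟩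
    rintro rfl
    simp at hψ1
  have hq2 : 2 ≤ Fintype.card F := Fintype.one_lt_card
  have hcardU : ∀ (n : ℕ) [Fintype (ℙ F (Fin (n + 1) → F))]
      (U : Finset (ℙ F (Fin (n + 1) → F))), #U ≤ Fintype.card F ^ (n + 1) :=
    fun n _ U => st4_card F n U
  set q := Fintype.card F with hq
  have hqlt : q ≤ 2 ^ q := Nat.lt_two_pow_self.le
  have hA22 : 6 * q + 22 ≤ 2 * C * q := by
    have h1 : 28 * q ≤ 2 * C * q := Nat.mul_le_mul_right _ (by omega)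
    omega
  refine ⟨2 * C * q, 1179648 * q ^ 2 + q ^ (2 * (2 * C * (3 + q)) + 2), by omega, by
    have h1 : 0 < q ^ 2 := by positivity
    omega, ?_⟩
  intro n m j _ U hU hH hA
  rcases Nat.eq_zero_or_pos m with hm0 | hm
  · subst hm0
    refine ⟨⊥, _, rfl, by rw [mul_zero]; exact Nat.zero_le _, ?_⟩
    intro r _ _
    rw [zero_pow (by norm_num), mul_zero]
    exact Nat.zero_le _
  rcases Nat.lt_or_ge n (2 * C * (3 + q)) with hn | hn
  · -- small dimension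
    refine ⟨⊥, _, rfl, ?_⟩
    have h1 := hcardU n ((U \ univ.filter (fun p => p.submodule ≤ ⊥)) ∪
            (univ.filter (fun p => p.submodule ≤ ⊥) \ U))
    generalize #((U \ univ.filter (fun p => p.submodule ≤ ⊥)) ∪
            (univ.filter (fun p => p.submodule ≤ ⊥) \ U)) = D at h1 ⊢
    have h2 : m ≤ q ^ (n + 1) := hU ▸ hcardU n U
    have hj : 1 ≤ (j + 1) ^ 2 := Nat.one_le_pow _ _ (by omega)
    have hq0 : 0 < q := by omega
    constructor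
    · calc D * m ≤ q ^ (n + 1) * q ^ (n + 1) := Nat.mul_le_mul h1 h2
        _ = q ^ (n + 2) * 1 * q ^ n := by ring
        _ ≤ (1179648 * q ^ 2 + q ^ (2 * (2 * C * (3 + q)) + 2)) * (j + 1) ^ 2 * q ^ n := by
          refine Nat.mul_le_mul_right _ (Nat.mul_le_mul ?_ hj)
          have h3 : q ^ (n + 2) ≤ q ^ (2 * (2 * C * (3 + q)) + 2) :=
            Nat.pow_le_pow_right hq0 (by omega)
          omega
    · intro r hr _
      calc r * D * m ^ 2 ≤ q ^ (n + 1) * q ^ (n + 1) * (q ^ (n + 1)) ^ 2 :=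
            Nat.mul_le_mul (Nat.mul_le_mul (hr.trans h1) h1) (Nat.pow_le_pow_left h2 2)
        _ = q ^ (2 * n + 4) * (1 * (q ^ n) ^ 2) := by ring
        _ ≤ (1179648 * q ^ 2 + q ^ (2 * (2 * C * (3 + q)) + 2)) *
            ((j + 1) ^ 2 * (q ^ n) ^ 2) := by
          refine Nat.mul_le_mul ?_ (Nat.mul_le_mul_right _ hj)
          have h3 : q ^ (2 * n + 4) ≤ q ^ (2 * (2 * C * (3 + q)) + 2) :=
            Nat.pow_le_pow_right hq0 (by omega)
          omega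
        _ = _ := by ring
  obtain ⟨P, f, hc, hsum, hlink⟩ := pg_cone4 (j := j) hψ n U (by
    intro H hHn
    rw [hU]
    exact hH H hHn)
  rw [hU] at hsum
  have hM : Fintype.card (Fin (n + 1) → F) = q ^ (n + 1) := by
    rw [Fintype.card_fun, Fintype.card_fin]
  have hqR : (2 : ℝ) ≤ q := by exact_mod_cast hq2
  have hmR : (1 : ℝ) ≤ m := by exact_mod_cast hm
  have hfm : (m : ℝ) ≤ ∑ x, f x := by
    rw [hsum]
    nlinarith
  have hfM : ∑ x, f x ≤ (q : ℝ) ^ (n + 1) := by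
    have h2 : ∑ x, f x ≤ ∑ _x : Module.Dual F (Fin (n + 1) → F), (1 : ℝ) := by
      refine Finset.sum_le_sum (fun x _ => ?_)
      rcases hc.ind x with h | h <;> rw [h] <;> norm_num
    refine h2.trans (le_of_eq ?_)
    rw [Finset.sum_const, Finset.card_univ, nsmul_eq_mul, mul_one]
    have h3 : Fintype.card (Module.Dual F (Fin (n + 1) → F)) = q ^ (n + 1) := by
      rw [Module.card_eq_pow_finrank (K := F), Subspace.dual_finrank_eq, Module.finrank_fin_fun]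
    rw [h3]
    push_cast
    rfl
  have hMpos : (0 : ℝ) < (q : ℝ) ^ (n + 1) := by positivity
  have hex : ∃ y : ℕ, ((j : ℝ) + 2) * (q : ℝ) ^ (n + 1) ≤ 2 ^ y * ∑ x, f x := by
    obtain ⟨y, hy⟩ := pow_unbounded_of_one_lt (((j : ℝ) + 2) * (q : ℝ) ^ (n + 1)) (one_lt_two)
    refine ⟨y, hy.le.trans ?_⟩
    have h1 : (1 : ℝ) ≤ ∑ x, f x := hmR.trans hfm
    have h2 : (0 : ℝ) < 2 ^ y := by positivity
    nlinarith
  obtain ⟨y, hy, hymin⟩ : ∃ y : ℕ, ((j : ℝ) + 2) * (q : ℝ) ^ (n + 1) ≤ 2 ^ y * ∑ x, f x ∧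
      ∀ z < y, ¬ ((j : ℝ) + 2) * (q : ℝ) ^ (n + 1) ≤ 2 ^ z * ∑ x, f x :=
    ⟨Nat.find hex, Nat.find_spec hex, fun z hz => Nat.find_min hex hz⟩
  have hj0 : (0 : ℝ) ≤ j := Nat.cast_nonneg j
  have hy1 : 1 ≤ y := by
    by_contra hcon
    have h0 : y = 0 := by omega
    rw [h0, pow_zero, one_mul] at hy
    nlinarith
  obtain ⟨z, rfl⟩ : ∃ z, y = z + 1 := ⟨y - 1, by omega⟩
  have hz := not_le.mp (hymin z (by omega))
  -- the size of `z`
  have h1 : (2 : ℝ) ^ (z + 2) * m ≤ (8 * q) * (((j : ℝ) + 1) * (q : ℝ) ^ n) := by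
    have h2 : (2 : ℝ) ^ (z + 2) * m ≤ 4 * (2 ^ z * ∑ x, f x) := by
      have h3 : (2 : ℝ) ^ (z + 2) = 4 * 2 ^ z := by ring
      rw [h3, mul_assoc]
      have h4 : (0 : ℝ) < 2 ^ z := by positivity
      have h5 := mul_le_mul_of_nonneg_left hfm h4.le
      linarith
    have h6 : 4 * (((j : ℝ) + 2) * (q : ℝ) ^ (n + 1)) ≤
        (8 * q) * (((j : ℝ) + 1) * (q : ℝ) ^ n) := by
      have h7 : (8 * (q : ℝ)) * (((j : ℝ) + 1) * (q : ℝ) ^ n) -
          4 * (((j : ℝ) + 2) * (q : ℝ) ^ (n + 1)) = 4 * (q * (q : ℝ) ^ n) * j := by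
        rw [pow_succ]
        ring
      have h8 : 0 ≤ 4 * ((q : ℝ) * (q : ℝ) ^ n) * j := by positivity
      linarith
    linarith
  have h1' : 2 ^ (z + 2) * m ≤ (8 * q) * ((j + 1) * q ^ n) := by exact_mod_cast h1
  have h8q : 8 * q ≤ 2 ^ (3 + q) := by
    rw [pow_add]
    exact Nat.mul_le_mul_left _ hqlt
  have hexp : (z + 2) * (2 * C * q) ≤ (3 + q) * (2 * C * q) + q * n := by
    have h2 : (2 ^ (z + 2) * m) ^ (2 * C * q) ≤
        (2 ^ (3 + q)) ^ (2 * C * q) * (m ^ (2 * C * q) * (2 ^ q) ^ n) := by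
      calc (2 ^ (z + 2) * m) ^ (2 * C * q) ≤ ((8 * q) * ((j + 1) * q ^ n)) ^ (2 * C * q) :=
            Nat.pow_le_pow_left h1' _
        _ = (8 * q) ^ (2 * C * q) * ((j + 1) * q ^ n) ^ (2 * C * q) := mul_pow _ _ _
        _ ≤ (2 ^ (3 + q)) ^ (2 * C * q) * (m ^ (2 * C * q) * q ^ n) :=
            Nat.mul_le_mul (Nat.pow_le_pow_left h8q _) hA
        _ ≤ (2 ^ (3 + q)) ^ (2 * C * q) * (m ^ (2 * C * q) * (2 ^ q) ^ n) :=
            Nat.mul_le_mul_left _ (Nat.mul_le_mul_left _ (Nat.pow_le_pow_left hqlt _))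
    have h3 : 2 ^ ((z + 2) * (2 * C * q)) * m ^ (2 * C * q) ≤
        2 ^ ((3 + q) * (2 * C * q) + q * n) * m ^ (2 * C * q) := by
      calc 2 ^ ((z + 2) * (2 * C * q)) * m ^ (2 * C * q) = (2 ^ (z + 2) * m) ^ (2 * C * q) := by
            rw [mul_pow, ← pow_mul]
        _ ≤ (2 ^ (3 + q)) ^ (2 * C * q) * (m ^ (2 * C * q) * (2 ^ q) ^ n) := h2
        _ = 2 ^ ((3 + q) * (2 * C * q) + q * n) * m ^ (2 * C * q) := by
            rw [← pow_mul, ← pow_mul, pow_add]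
            ring
    have h4 := Nat.le_of_mul_le_mul_right h3 (Nat.pow_pos hm)
    exact (Nat.pow_le_pow_iff_right (by norm_num)).1 h4
  obtain ⟨W, E, hE, hW, hWr⟩ := hmain (Fin (n + 1) → F) ψ hψ j (z + 1) P f hc (by
    rw [hM]
    push_cast
    exact hy) (by
    rw [Module.finrank_fin_fun]
    exact st4_exp (by omega) hn hexp)
  obtain ⟨W', hW'⟩ := hlink W
  refine ⟨W', _, rfl, ?_⟩
  rw [hE] at hW'
  generalize #((U \ univ.filter (fun p => p.submodule ≤ W')) ∪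
            (univ.filter (fun p => p.submodule ≤ W') \ U)) = D at hW' ⊢
  have hEN : E = (q - 1) * D := by
    have h2 : ((E : ℕ) : ℝ) = (((q - 1) * D : ℕ) : ℝ) := by
      rw [← hW', Nat.cast_mul, Nat.cast_sub (by omega)]
      push_cast
      rfl
    exact_mod_cast h2
  have hDE : D ≤ E := by
    rw [hEN]
    exact Nat.le_mul_of_pos_left _ (by omega)
  have hEq : E ≤ q * D := by
    rw [hEN]
    exact Nat.mul_le_mul_right _ (by omega)
  have hDER : (D : ℝ) ≤ E := by exact_mod_cast hDE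
  have hD0 : (0 : ℝ) ≤ D := Nat.cast_nonneg D
  have hE0 : (0 : ℝ) ≤ E := Nat.cast_nonneg E
  have hm0 : (0 : ℝ) ≤ m := by linarith
  have hfirst : (D : ℝ) * m ≤ 44 * (q : ℝ) * ((j : ℝ) + 1) ^ 2 * (q : ℝ) ^ n := by
    have h3 : (D : ℝ) * m ≤ E * ∑ x, f x := mul_le_mul hDER hfm hm0 hE0
    refine h3.trans (hW.trans (le_of_eq ?_))
    rw [hM]
    push_cast
    ring
  have hfirstN : D * m ≤ 44 * q * (j + 1) ^ 2 * q ^ n := by exact_mod_cast hfirst
  have hmle : m ≤ q ^ (n + 1) := hU ▸ hcardU n U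
  have hq1 : q ≤ q ^ 2 := by
    rw [pow_two]
    exact Nat.le_mul_of_pos_left _ (by omega)
  constructor
  · refine hfirstN.trans (Nat.mul_le_mul_right _ (Nat.mul_le_mul_right _ ?_))
    have h3 : 44 * q ≤ 1179648 * q ^ 2 := Nat.mul_le_mul (by norm_num) hq1
    omega
  intro r hrD hr
  rcases Nat.lt_or_ge 8 r with hr8 | hr8
  · -- large `r`
    have hs1 : 1 ≤ r / 8 := by omega
    have hQ : 1 ≤ q ^ n := Nat.one_le_pow _ _ (by omega)
    have hm2 : q ^ n ≤ m ^ 2 := by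
      refine st4_sq (A := 2 * C * q) hQ (by omega) ?_
      refine (Nat.pow_le_pow_left ?_ _).trans hA
      exact Nat.le_mul_of_pos_left _ (by omega)
    have hbig : 4 * (4 * E) ^ (2 * (r / 8) + 1) ≤ m :=
      st4_big (q := q) (D := D) (A := 2 * C * q) (r := r) (n := n) (by omega) hEq hs1 (by omega)
        hA22 hr hm2
    have hbigR : 4 * (4 * (E : ℝ)) ^ (2 * (r / 8) + 1) ≤ ∑ x, f x := by
      refine le_trans ?_ hfm
      exact_mod_cast hbig
    have h3 := hWr (r / 8) hs1 (by omega) hbigR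
    rw [hM] at h3
    have h4 : (r : ℝ) * D * (m : ℝ) ^ 2 ≤
        16 * ((((r / 8 : ℕ) : ℝ)) * E * (∑ x, f x) ^ 2) := by
      have h5 : (r : ℝ) ≤ 16 * ((r / 8 : ℕ) : ℝ) := by
        have h6 : r ≤ 16 * (r / 8) := by omega
        exact_mod_cast h6
      have h7 : (m : ℝ) ^ 2 ≤ (∑ x, f x) ^ 2 := pow_le_pow_left₀ hm0 hfm 2
      calc (r : ℝ) * D * (m : ℝ) ^ 2 ≤ (16 * ((r / 8 : ℕ) : ℝ)) * E * (∑ x, f x) ^ 2 := by
            gcongr
        _ = _ := by ring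
    have h8 : (r : ℝ) * D * (m : ℝ) ^ 2 ≤
        1179648 * (q : ℝ) ^ 2 * (((j : ℝ) + 1) * (q : ℝ) ^ n) ^ 2 := by
      refine h4.trans ?_
      calc 16 * ((((r / 8 : ℕ) : ℝ)) * E * (∑ x, f x) ^ 2)
          ≤ 16 * (73728 * ((j : ℝ) + 1) ^ 2 * ((q ^ (n + 1) : ℕ) : ℝ) ^ 2) :=
            mul_le_mul_of_nonneg_left h3 (by norm_num)
        _ = _ := by
          push_cast
          ring
    have h9 : r * D * m ^ 2 ≤ 1179648 * q ^ 2 * ((j + 1) * q ^ n) ^ 2 := by exact_mod_cast h8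
    exact h9.trans (Nat.mul_le_mul_right _ (by omega))
  · -- small `r`
    calc r * D * m ^ 2 ≤ 8 * (D * m) * m := by
          have h3 : r * D * m ^ 2 = r * (D * m) * m := by ring
          rw [h3]
          exact Nat.mul_le_mul_right _ (Nat.mul_le_mul_right _ hr8)
      _ ≤ 8 * (44 * q * (j + 1) ^ 2 * q ^ n) * q ^ (n + 1) :=
          Nat.mul_le_mul (Nat.mul_le_mul_left _ hfirstN) hmle
      _ = 352 * q ^ 2 * ((j + 1) * q ^ n) ^ 2 := by ring
      _ ≤ _ := Nat.mul_le_mul_right _ (by omega)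

end Pool.Agent.OSD
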