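import Pool.Agent.OSD.Ma5
import Pool.Agent.OSD.Ln4

/-!
# Refined stability for point sets: moments, explicit range
-/

open Finset Module
open scoped LinearAlgebra.Projectivization

namespace Pool.Agent.OSD

open Pool.Agent.GapCodes Pool.Agent.LLog

attribute [local instance] fintypeDual

open Classical in
private theorem st5_card (F : Type) [Field F] [Fintype F] (n : ℕ)
    [Fintype (ℙ F (Fin (n + 1) → F))] (U : Finset (ℙ F (Fin (n + 1) → F))) :
    #U ≤ Fintype.card F ^ (n + 1) := by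
  have h1 : Function.Injective (fun p : ℙ F (Fin (n + 1) → F) => p.rep) := by
    intro p p' h
    have h2 : p.rep = p'.rep := h
    rw [← p.mk_rep, ← p'.mk_rep]
    congr 1
  calc #U ≤ Fintype.card (ℙ F (Fin (n + 1) → F)) := Finset.card_le_univ U
    _ ≤ Fintype.card (Fin (n + 1) → F) := Fintype.card_le_of_injective _ h1
    _ = Fintype.card F ^ (n + 1) := by rw [Fintype.card_fun, Fintype.card_fin]

/-- polynomial against exponential -/
private theorem st5_poly (c q B : ℕ) (hc : 1 ≤ c) (hq : 1 ≤ q) : ∃ n0 : ℕ, ∀ n : ℕ, n0 ≤ n →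
    (c * (n + 1)) ^ (96 * B) * q ^ (28 * B) ≤ 2 ^ n := by
  have hpos : (0 : ℝ) < (2 * (c : ℝ)) ^ (96 * B) * (q : ℝ) ^ (28 * B) := by
    have h1 : (0 : ℝ) < c := by exact_mod_cast hc
    have h2 : (0 : ℝ) < q := by exact_mod_cast hq
    positivity
  have h1 := (tendsto_pow_const_div_const_pow_of_one_lt (96 * B)
    (by norm_num : (1 : ℝ) < 2)).eventually_lt_const
    (show (0 : ℝ) < 1 / ((2 * (c : ℝ)) ^ (96 * B) * (q : ℝ) ^ (28 * B)) by positivity)
  obtain ⟨n0, hn0⟩ := Filter.eventually_atTop.1 h1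
  refine ⟨n0 + 1, fun n hn => ?_⟩
  have h2 := hn0 n (by omega)
  rw [div_lt_div_iff₀ (by positivity) hpos, one_mul] at h2
  have h3 : ((c * (n + 1) : ℕ) : ℝ) ≤ 2 * c * n := by
    have h4 : c * (n + 1) ≤ 2 * c * n := by nlinarith
    exact_mod_cast h4
  have h5 : (((c * (n + 1)) ^ (96 * B) * q ^ (28 * B) : ℕ) : ℝ) ≤ ((2 ^ n : ℕ) : ℝ) := by
    push_cast at h3 ⊢
    calc ((c : ℝ) * (n + 1)) ^ (96 * B) * (q : ℝ) ^ (28 * B)
        ≤ (2 * c * n) ^ (96 * B) * (q : ℝ) ^ (28 * B) :=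
          mul_le_mul_of_nonneg_right (pow_le_pow_left₀ (by positivity) h3 _) (by positivity)
      _ = (n : ℝ) ^ (96 * B) * ((2 * (c : ℝ)) ^ (96 * B) * (q : ℝ) ^ (28 * B)) := by
          rw [mul_pow]
          ring
      _ ≤ 2 ^ n := h2.le
  exact_mod_cast h5

/-- the numerical conditions in the range considered -/
private theorem st5_num (q l B : ℕ) (hq : 2 ≤ q) (hl : q ≤ 2 ^ l) (hB : B = 10 + 4 * l) :
    ∃ n0 : ℕ, ∀ n y : ℕ, n0 ≤ n → (2 ^ y) ^ B ≤ (8 * q) ^ B * q ^ n →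
      2 ^ (7 * y) * (q * (n + 1) + 1300 * y + 40000) ^ 96 ≤ q ^ (n + 1) ∧
      8192 * q ^ 20 * 2 ^ ((9 + 4 * l) * y) ≤ q ^ (n + 1) := by
  have hl1 : 1 ≤ l := by
    by_contra hcon
    have h0 : l = 0 := by omega
    rw [h0] at hl
    omega
  have hB14 : 14 ≤ B := by omega
  obtain ⟨c, hc⟩ : ∃ c : ℕ, c = q + 1300 * ((3 + l) * B) + 1300 * l + 40000 := ⟨_, rfl⟩
  obtain ⟨n2, hn2⟩ := st5_poly c q B (by omega) (by omega)
  refine ⟨n2 + (33 * B + 4 * B * B), fun n y hn hX => ?_⟩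
  have h8 : 8 ≤ q ^ 3 := by
    calc 8 = 2 ^ 3 := by norm_num
      _ ≤ q ^ 3 := Nat.pow_le_pow_left hq 3
  have h13 : 8192 ≤ q ^ 13 := by
    calc 8192 = 2 ^ 13 := by norm_num
      _ ≤ q ^ 13 := Nat.pow_le_pow_left hq 13
  have h8q : 8 * q ≤ q ^ 4 := by
    calc 8 * q ≤ q ^ 3 * q := Nat.mul_le_mul_right _ h8
      _ = q ^ 4 := by ring
  have hq1 : 1 ≤ q := by omega
  have hX2 : (2 ^ y) ^ B ≤ q ^ (4 * B + n) := by
    calc (2 ^ y) ^ B ≤ (8 * q) ^ B * q ^ n := hX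
      _ ≤ (q ^ 4) ^ B * q ^ n := Nat.mul_le_mul_right _ (Nat.pow_le_pow_left h8q B)
      _ = q ^ (4 * B + n) := by rw [← pow_mul, ← pow_add]
  constructor
  · -- the first condition
    have hyB : y ≤ (3 + l) * B + l * n := by
      have h1 : 2 ^ (y * B) ≤ 2 ^ ((3 + l) * B + l * n) := by
        calc 2 ^ (y * B) = (2 ^ y) ^ B := by rw [pow_mul]
          _ ≤ (8 * q) ^ B * q ^ n := hX
          _ ≤ (2 ^ (3 + l)) ^ B * (2 ^ l) ^ n := by
              refine Nat.mul_le_mul (Nat.pow_le_pow_left ?_ B) (Nat.pow_le_pow_left hl n)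
              rw [pow_add]
              exact Nat.mul_le_mul_left _ hl
          _ = 2 ^ ((3 + l) * B + l * n) := by rw [← pow_mul, ← pow_mul, ← pow_add]
      have h2 := (Nat.pow_le_pow_iff_right (by norm_num : 1 < 2)).1 h1
      exact (Nat.le_mul_of_pos_right y (by omega)).trans h2
    have hK : q * (n + 1) + 1300 * y + 40000 ≤ c * (n + 1) := by
      have h1 : 1300 * y ≤ 1300 * ((3 + l) * B) + 1300 * l * n := by
        calc 1300 * y ≤ 1300 * ((3 + l) * B + l * n) := Nat.mul_le_mul_left _ hyB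
          _ = _ := by ring
      have h2 : c * (n + 1) = q * (n + 1) + 1300 * l * n + 1300 * l +
          (1300 * ((3 + l) * B) + 40000) * (n + 1) := by
        rw [hc]
        ring
      have h3 : 1300 * ((3 + l) * B) + 40000 ≤ (1300 * ((3 + l) * B) + 40000) * (n + 1) :=
        Nat.le_mul_of_pos_right _ (by omega)
      omega
    have h1 : (2 ^ (7 * y) * (q * (n + 1) + 1300 * y + 40000) ^ 96) ^ B ≤ (q ^ (n + 1)) ^ B := by
      calc (2 ^ (7 * y) * (q * (n + 1) + 1300 * y + 40000) ^ 96) ^ B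
          ≤ (2 ^ (7 * y) * (c * (n + 1)) ^ 96) ^ B :=
            Nat.pow_le_pow_left (Nat.mul_le_mul_left _ (Nat.pow_le_pow_left hK 96)) B
        _ = ((2 ^ y) ^ B) ^ 7 * (c * (n + 1)) ^ (96 * B) := by
            rw [mul_pow, ← pow_mul, ← pow_mul, ← pow_mul, ← pow_mul]
            congr 2
            ring
        _ ≤ (q ^ (4 * B + n)) ^ 7 * (c * (n + 1)) ^ (96 * B) :=
            Nat.mul_le_mul_right _ (Nat.pow_le_pow_left hX2 7)
        _ = q ^ (7 * n) * ((c * (n + 1)) ^ (96 * B) * q ^ (28 * B)) := by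
            rw [← pow_mul]
            have h2 : (4 * B + n) * 7 = 28 * B + 7 * n := by ring
            rw [h2, pow_add]
            ring
        _ ≤ q ^ (7 * n) * 2 ^ n := Nat.mul_le_mul_left _ (hn2 n (by omega))
        _ ≤ q ^ (7 * n) * q ^ n := Nat.mul_le_mul_left _ (Nat.pow_le_pow_left hq n)
        _ = q ^ (7 * n + n) := by rw [pow_add]
        _ ≤ (q ^ (n + 1)) ^ B := by
            rw [← pow_mul]
            refine Nat.pow_le_pow_right hq1 ?_
            nlinarith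
    exact (Nat.pow_le_pow_iff_left (by omega)).1 h1
  · have h1 : (8192 * q ^ 20 * 2 ^ ((9 + 4 * l) * y)) ^ B ≤ (q ^ (n + 1)) ^ B := by
      calc (8192 * q ^ 20 * 2 ^ ((9 + 4 * l) * y)) ^ B
          ≤ (q ^ 13 * q ^ 20 * 2 ^ ((9 + 4 * l) * y)) ^ B :=
            Nat.pow_le_pow_left (Nat.mul_le_mul_right _ (Nat.mul_le_mul_right _ h13)) B
        _ = q ^ (33 * B) * ((2 ^ y) ^ B) ^ (9 + 4 * l) := by
            rw [← pow_add, mul_pow, ← pow_mul, ← pow_mul, ← pow_mul, ← pow_mul]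
            congr 2
            ring
        _ ≤ q ^ (33 * B) * (q ^ (4 * B + n)) ^ (9 + 4 * l) :=
            Nat.mul_le_mul_left _ (Nat.pow_le_pow_left hX2 _)
        _ = q ^ (33 * B + (4 * B + n) * (9 + 4 * l)) := by rw [← pow_mul, ← pow_add]
        _ ≤ (q ^ (n + 1)) ^ B := by
            rw [← pow_mul]
            refine Nat.pow_le_pow_right hq1 ?_
            have h3 : B = (9 + 4 * l) + 1 := by omega
            have h4 : (n + 1) * B = n * (9 + 4 * l) + n + B := by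
              rw [h3]
              ring
            have h5 : (4 * B + n) * (9 + 4 * l) = 4 * B * (9 + 4 * l) + n * (9 + 4 * l) := by ring
            have h6 : 4 * B * (9 + 4 * l) ≤ 4 * B * B := Nat.mul_le_mul_left _ (by omega)
            omega
    exact (Nat.pow_le_pow_iff_left (by omega)).1 h1

/-- `q ^ n ≤ m ^ 2` in the range considered -/
private theorem st5_sq {Q m A : ℕ} (hQ : 1 ≤ Q) (hA : 2 ≤ A) (h : Q ^ A ≤ m ^ A * Q) :
    Q ≤ m ^ 2 := by
  by_contra hcon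
  have h0 : m ^ 2 < Q := not_le.mp hcon
  obtain ⟨B, rfl⟩ : ∃ B, A = B + 2 := ⟨A - 2, by omega⟩
  have h1 : Q ^ (B + 1) ≤ m ^ (B + 2) := by
    have h2 : Q ^ (B + 1) * Q ≤ m ^ (B + 2) * Q := by
      rw [← pow_succ]
      exact h
    exact Nat.le_of_mul_le_mul_right h2 hQ
  have h3 : (Q ^ (B + 1)) ^ 2 ≤ (m ^ (B + 2)) ^ 2 := Nat.pow_le_pow_left h1 2
  have h4 : (m ^ (B + 2)) ^ 2 = (m ^ 2) ^ (B + 2) := by ring
  have h5 : (m ^ 2) ^ (B + 2) < Q ^ (B + 2) := Nat.pow_lt_pow_left h0 (by omega)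
  have h6 : Q ^ (B + 2) ≤ (Q ^ (B + 1)) ^ 2 := by
    rw [← pow_mul]
    exact Nat.pow_le_pow_right hQ (by omega)
  omega

/-- the size condition of the refined bound -/
private theorem st5_big {q D E r s n m : ℕ} (hD : 9 ≤ D) (hqD : 4 * q ≤ D) (hE : E ≤ q * D)
    (hs : 1 ≤ s) (hsr : 8 * s ≤ r) (hr : D ^ (2 * r) ≤ q ^ n)
    (hm : q ^ n ≤ m ^ 2) : 4 * (4 * E) ^ (2 * s + 1) ≤ m := by
  have hD1 : 1 ≤ D := by omega
  have h1 : 4 * E ≤ D ^ 2 := by
    calc 4 * E ≤ 4 * (q * D) := Nat.mul_le_mul_left _ hE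
      _ = 4 * q * D := by ring
      _ ≤ D * D := Nat.mul_le_mul_right _ hqD
      _ = D ^ 2 := by ring
  have h3 : 4 * (4 * E) ^ (2 * s + 1) ≤ D ^ (7 * s) := by
    calc 4 * (4 * E) ^ (2 * s + 1) ≤ D * (D ^ 2) ^ (2 * s + 1) :=
          Nat.mul_le_mul (by omega) (Nat.pow_le_pow_left h1 _)
      _ = D ^ (1 + 2 * (2 * s + 1)) := by rw [← pow_mul, pow_add, pow_one]
      _ ≤ D ^ (7 * s) := Nat.pow_le_pow_right hD1 (by omega)
  have h6 : (4 * (4 * E) ^ (2 * s + 1)) ^ 2 ≤ m ^ 2 := by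
    calc (4 * (4 * E) ^ (2 * s + 1)) ^ 2 ≤ (D ^ (7 * s)) ^ 2 := Nat.pow_le_pow_left h3 2
      _ = D ^ (14 * s) := by rw [← pow_mul]; congr 1; ring
      _ ≤ D ^ (2 * r) := Nat.pow_le_pow_right hD1 (by omega)
      _ ≤ q ^ n := hr
      _ ≤ m ^ 2 := hm
  exact (Nat.pow_le_pow_iff_left (by norm_num)).1 h6

open Classical in
/-- Stability for point sets in an explicit range. -/
theorem pg_stab5 (F : Type) [Field F] [Fintype F] : ∃ C : ℕ, 1 ≤ C ∧
    ∀ (n m j : ℕ) [Fintype (ℙ F (Fin (n + 1) → F))] (U : Finset (ℙ F (Fin (n + 1) → F))),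
      #U = m → (∀ H : Submodule F (Fin (n + 1) → F), finrank F H = n →
        m ≤ Fintype.card F * #(U.filter (fun p => p.submodule ≤ H)) + j) →
      ((j + 1) * Fintype.card F ^ n) ^ (10 + 4 * Nat.clog 2 (Fintype.card F)) ≤
        m ^ (10 + 4 * Nat.clog 2 (Fintype.card F)) * Fintype.card F ^ n →
      ∃ (W : Submodule F (Fin (n + 1) → F)) (D : ℕ),
        D = #((U \ univ.filter (fun p => p.submodule ≤ W)) ∪
            (univ.filter (fun p => p.submodule ≤ W) \ U)) ∧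
        D * m ≤ C * (j + 1) ^ 2 * Fintype.card F ^ n ∧
        ∀ r : ℕ, r ≤ D → D ^ (2 * r) ≤ Fintype.card F ^ n →
          r * D * m ^ 2 ≤ C * ((j + 1) * Fintype.card F ^ n) ^ 2 := by
  obtain ⟨ψ, hψ⟩ : ∃ ψ : AddChar F ℂ, ψ ≠ 0 := by
    obtain ⟨ψ, hψ1⟩ : ∃ ψ : AddChar F ℂ, ψ 1 ≠ 1 :=
      (AddChar.exists_apply_ne_zero).mpr one_ne_zero
    refine ⟨ψ, ?_⟩
    rintro rfl
    simp at hψ1
  have hq2 : 2 ≤ Fintype.card F := Fintype.one_lt_card
  have hcardU : ∀ (n : ℕ) [Fintype (ℙ F (Fin (n + 1) → F))]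
      (U : Finset (ℙ F (Fin (n + 1) → F))), #U ≤ Fintype.card F ^ (n + 1) :=
    fun n _ U => st5_card F n U
  set q := Fintype.card F with hq
  obtain ⟨l, hl⟩ : ∃ l : ℕ, l = Nat.clog 2 q := ⟨_, rfl⟩
  have hql : q ≤ 2 ^ l := by
    rw [hl]
    exact Nat.le_pow_clog (by norm_num) _
  obtain ⟨B, hB⟩ : ∃ B : ℕ, B = 10 + 4 * l := ⟨_, rfl⟩
  rw [← hl, ← hB]
  obtain ⟨n0, hn0⟩ := st5_num q l B hq2 hql hB
  refine ⟨1179648 * q ^ 3 + q ^ (2 * n0 + 2), by
    have h1 : 0 < q ^ 3 := by positivity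
    omega, ?_⟩
  intro n m j _ U hU hH hA
  rcases Nat.eq_zero_or_pos m with hm0 | hm
  · subst hm0
    refine ⟨⊥, _, rfl, by rw [mul_zero]; exact Nat.zero_le _, ?_⟩
    intro r _ _
    rw [zero_pow (by norm_num), mul_zero]
    exact Nat.zero_le _
  rcases Nat.lt_or_ge n n0 with hn | hn
  · -- small dimension
    refine ⟨⊥, _, rfl, ?_⟩
    have h1 := hcardU n ((U \ univ.filter (fun p => p.submodule ≤ ⊥)) ∪
            (univ.filter (fun p => p.submodule ≤ ⊥) \ U))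
    generalize #((U \ univ.filter (fun p => p.submodule ≤ ⊥)) ∪
            (univ.filter (fun p => p.submodule ≤ ⊥) \ U)) = D at h1 ⊢
    have h2 : m ≤ q ^ (n + 1) := hU ▸ hcardU n U
    have hj : 1 ≤ (j + 1) ^ 2 := Nat.one_le_pow _ _ (by omega)
    have hq0 : 0 < q := by omega
    constructor
    · calc D * m ≤ q ^ (n + 1) * q ^ (n + 1) := Nat.mul_le_mul h1 h2
        _ = q ^ (n + 2) * 1 * q ^ n := by ring
        _ ≤ (1179648 * q ^ 3 + q ^ (2 * n0 + 2)) * (j + 1) ^ 2 * q ^ n := by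
          refine Nat.mul_le_mul_right _ (Nat.mul_le_mul ?_ hj)
          have h3 : q ^ (n + 2) ≤ q ^ (2 * n0 + 2) :=
            Nat.pow_le_pow_right hq0 (by omega)
          omega
    · intro r hr _
      calc r * D * m ^ 2 ≤ q ^ (n + 1) * q ^ (n + 1) * (q ^ (n + 1)) ^ 2 :=
            Nat.mul_le_mul (Nat.mul_le_mul (hr.trans h1) h1) (Nat.pow_le_pow_left h2 2)
        _ = q ^ (2 * n + 4) * (1 * (q ^ n) ^ 2) := by ring
        _ ≤ (1179648 * q ^ 3 + q ^ (2 * n0 + 2)) *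
            ((j + 1) ^ 2 * (q ^ n) ^ 2) := by
          refine Nat.mul_le_mul ?_ (Nat.mul_le_mul_right _ hj)
          have h3 : q ^ (2 * n + 4) ≤ q ^ (2 * n0 + 2) :=
            Nat.pow_le_pow_right hq0 (by omega)
          omega
        _ = _ := by ring
  obtain ⟨P, f, hc, hsum, hlink⟩ := pg_cone4 (j := j) hψ n U (by
    intro H hHn
    rw [hU]
    exact hH H hHn)
  rw [hU] at hsum
  have hM : Fintype.card (Fin (n + 1) → F) = q ^ (n + 1) := by
    rw [Fintype.card_fun, Fintype.card_fin]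
  have hqR : (2 : ℝ) ≤ q := by exact_mod_cast hq2
  have hmR : (1 : ℝ) ≤ m := by exact_mod_cast hm
  have hfm : (m : ℝ) ≤ ∑ x, f x := by
    rw [hsum]
    nlinarith
  have hfM : ∑ x, f x ≤ (q : ℝ) ^ (n + 1) := by
    have h2 : ∑ x, f x ≤ ∑ _x : Module.Dual F (Fin (n + 1) → F), (1 : ℝ) := by
      refine Finset.sum_le_sum (fun x _ => ?_)
      rcases hc.ind x with h | h <;> rw [h] <;> norm_num
    refine h2.trans (le_of_eq ?_)
    rw [Finset.sum_const, Finset.card_univ, nsmul_eq_mul, mul_one]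
    have h3 : Fintype.card (Module.Dual F (Fin (n + 1) → F)) = q ^ (n + 1) := by
      rw [Module.card_eq_pow_finrank (K := F), Subspace.dual_finrank_eq, Module.finrank_fin_fun]
    rw [h3]
    push_cast
    rfl
  have hMpos : (0 : ℝ) < (q : ℝ) ^ (n + 1) := by positivity
  have hex : ∃ y : ℕ, ((j : ℝ) + 2) * (q : ℝ) ^ (n + 1) ≤ 2 ^ y * ∑ x, f x := by
    obtain ⟨y, hy⟩ := pow_unbounded_of_one_lt (((j : ℝ) + 2) * (q : ℝ) ^ (n + 1)) (one_lt_two)
    refine ⟨y, hy.le.trans ?_⟩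
    have h1 : (1 : ℝ) ≤ ∑ x, f x := hmR.trans hfm
    have h2 : (0 : ℝ) < 2 ^ y := by positivity
    nlinarith
  obtain ⟨y, hy, hymin⟩ : ∃ y : ℕ, ((j : ℝ) + 2) * (q : ℝ) ^ (n + 1) ≤ 2 ^ y * ∑ x, f x ∧
      ∀ z < y, ¬ ((j : ℝ) + 2) * (q : ℝ) ^ (n + 1) ≤ 2 ^ z * ∑ x, f x :=
    ⟨Nat.find hex, Nat.find_spec hex, fun z hz => Nat.find_min hex hz⟩
  have hj0 : (0 : ℝ) ≤ j := Nat.cast_nonneg j
  have hy1 : 1 ≤ y := by
    by_contra hcon
    have h0 : y = 0 := by omega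
    rw [h0, pow_zero, one_mul] at hy
    nlinarith
  obtain ⟨z, rfl⟩ : ∃ z, y = z + 1 := ⟨y - 1, by omega⟩
  have hz := not_le.mp (hymin z (by omega))
  -- the size of `z`
  have h1 : (2 : ℝ) ^ (z + 2) * m ≤ (8 * q) * (((j : ℝ) + 1) * (q : ℝ) ^ n) := by
    have h2 : (2 : ℝ) ^ (z + 2) * m ≤ 4 * (2 ^ z * ∑ x, f x) := by
      have h3 : (2 : ℝ) ^ (z + 2) = 4 * 2 ^ z := by ring
      rw [h3, mul_assoc]
      have h4 : (0 : ℝ) < 2 ^ z := by positivity
      have h5 := mul_le_mul_of_nonneg_left hfm h4.le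
      linarith
    have h6 : 4 * (((j : ℝ) + 2) * (q : ℝ) ^ (n + 1)) ≤
        (8 * q) * (((j : ℝ) + 1) * (q : ℝ) ^ n) := by
      have h7 : (8 * (q : ℝ)) * (((j : ℝ) + 1) * (q : ℝ) ^ n) -
          4 * (((j : ℝ) + 2) * (q : ℝ) ^ (n + 1)) = 4 * (q * (q : ℝ) ^ n) * j := by
        rw [pow_succ]
        ring
      have h8 : 0 ≤ 4 * ((q : ℝ) * (q : ℝ) ^ n) * j := by positivity
      linarith
    linarith
  have h1' : 2 ^ (z + 2) * m ≤ (8 * q) * ((j + 1) * q ^ n) := by exact_mod_cast h1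
  have hX : (2 ^ (z + 1)) ^ B ≤ (8 * q) ^ B * q ^ n := by
    have h2 : (2 ^ (z + 2) * m) ^ B ≤ (8 * q) ^ B * q ^ n * m ^ B := by
      calc (2 ^ (z + 2) * m) ^ B ≤ ((8 * q) * ((j + 1) * q ^ n)) ^ B :=
            Nat.pow_le_pow_left h1' _
        _ = (8 * q) ^ B * ((j + 1) * q ^ n) ^ B := mul_pow _ _ _
        _ ≤ (8 * q) ^ B * (m ^ B * q ^ n) := Nat.mul_le_mul_left _ hA
        _ = (8 * q) ^ B * q ^ n * m ^ B := by ring
    rw [mul_pow] at h2
    have h3 := Nat.le_of_mul_le_mul_right h2 (Nat.pow_pos hm)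
    exact (Nat.pow_le_pow_left (Nat.pow_le_pow_right (by norm_num) (by omega)) B).trans h3
  obtain ⟨hcK, hcC⟩ := hn0 n (z + 1) hn hX
  obtain ⟨W, E, hE, hW, hWr⟩ := cone_main5 F l (by rw [← hq]; exact hql) (Fin (n + 1) → F) ψ hψ j
    (z + 1) P f hc (by
      rw [hM]
      push_cast
      exact hy) (by
      rw [Module.finrank_fin_fun, ← hq]
      exact_mod_cast hcK) (by
      rw [Module.finrank_fin_fun, ← hq]
      exact_mod_cast hcC)
  obtain ⟨W', hW'⟩ := hlink W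
  refine ⟨W', _, rfl, ?_⟩
  rw [hE] at hW'
  generalize #((U \ univ.filter (fun p => p.submodule ≤ W')) ∪
            (univ.filter (fun p => p.submodule ≤ W') \ U)) = D at hW' ⊢
  have hEN : E = (q - 1) * D := by
    have h2 : ((E : ℕ) : ℝ) = (((q - 1) * D : ℕ) : ℝ) := by
      rw [← hW', Nat.cast_mul, Nat.cast_sub (by omega)]
      push_cast
      rfl
    exact_mod_cast h2
  have hDE : D ≤ E := by
    rw [hEN]
    exact Nat.le_mul_of_pos_left _ (by omega)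
  have hEq : E ≤ q * D := by
    rw [hEN]
    exact Nat.mul_le_mul_right _ (by omega)
  have hDER : (D : ℝ) ≤ E := by exact_mod_cast hDE
  have hD0 : (0 : ℝ) ≤ D := Nat.cast_nonneg D
  have hE0 : (0 : ℝ) ≤ E := Nat.cast_nonneg E
  have hm0 : (0 : ℝ) ≤ m := by linarith
  have hfirst : (D : ℝ) * m ≤ 44 * (q : ℝ) * ((j : ℝ) + 1) ^ 2 * (q : ℝ) ^ n := by
    have h3 : (D : ℝ) * m ≤ E * ∑ x, f x := mul_le_mul hDER hfm hm0 hE0
    refine h3.trans (hW.trans (le_of_eq ?_))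
    rw [hM]
    push_cast
    ring
  have hfirstN : D * m ≤ 44 * q * (j + 1) ^ 2 * q ^ n := by exact_mod_cast hfirst
  have hmle : m ≤ q ^ (n + 1) := hU ▸ hcardU n U
  have hq1 : q ≤ q ^ 3 := Nat.le_self_pow (by norm_num) q
  have hq23 : q ^ 2 ≤ q ^ 3 := Nat.pow_le_pow_right (by omega) (by norm_num)
  constructor
  · refine hfirstN.trans (Nat.mul_le_mul_right _ (Nat.mul_le_mul_right _ ?_))
    have h3 : 44 * q ≤ 1179648 * q ^ 3 := Nat.mul_le_mul (by norm_num) hq1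
    omega
  intro r hrD hr
  by_cases hcase : 8 < r ∧ 4 * q ≤ D
  · -- large `r`
    obtain ⟨hr8, hqD⟩ := hcase
    have hs1 : 1 ≤ r / 8 := by omega
    have hQ : 1 ≤ q ^ n := Nat.one_le_pow _ _ (by omega)
    have hm2 : q ^ n ≤ m ^ 2 := by
      refine st5_sq (A := B) hQ (by omega) ?_
      refine (Nat.pow_le_pow_left ?_ _).trans hA
      exact Nat.le_mul_of_pos_left _ (by omega)
    have hbig : 4 * (4 * E) ^ (2 * (r / 8) + 1) ≤ m :=
      st5_big (q := q) (D := D) (r := r) (n := n) (by omega) hqD hEq hs1 (by omega) hr hm2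
    have hbigR : 4 * (4 * (E : ℝ)) ^ (2 * (r / 8) + 1) ≤ ∑ x, f x := by
      refine le_trans ?_ hfm
      exact_mod_cast hbig
    have h3 := hWr (r / 8) hs1 (by omega) hbigR
    rw [hM] at h3
    have h4 : (r : ℝ) * D * (m : ℝ) ^ 2 ≤
        16 * ((((r / 8 : ℕ) : ℝ)) * E * (∑ x, f x) ^ 2) := by
      have h5 : (r : ℝ) ≤ 16 * ((r / 8 : ℕ) : ℝ) := by
        have h6 : r ≤ 16 * (r / 8) := by omega
        exact_mod_cast h6
      have h7 : (m : ℝ) ^ 2 ≤ (∑ x, f x) ^ 2 := pow_le_pow_left₀ hm0 hfm 2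
      calc (r : ℝ) * D * (m : ℝ) ^ 2 ≤ (16 * ((r / 8 : ℕ) : ℝ)) * E * (∑ x, f x) ^ 2 := by
            gcongr
        _ = _ := by ring
    have h8 : (r : ℝ) * D * (m : ℝ) ^ 2 ≤
        1179648 * (q : ℝ) ^ 2 * (((j : ℝ) + 1) * (q : ℝ) ^ n) ^ 2 := by
      refine h4.trans ?_
      calc 16 * ((((r / 8 : ℕ) : ℝ)) * E * (∑ x, f x) ^ 2)
          ≤ 16 * (73728 * ((j : ℝ) + 1) ^ 2 * ((q ^ (n + 1) : ℕ) : ℝ) ^ 2) :=
            mul_le_mul_of_nonneg_left h3 (by norm_num)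
        _ = _ := by
          push_cast
          ring
    have h9 : r * D * m ^ 2 ≤ 1179648 * q ^ 2 * ((j + 1) * q ^ n) ^ 2 := by exact_mod_cast h8
    exact h9.trans (Nat.mul_le_mul_right _ (by omega))
  · -- small `r`
    have hr8 : r ≤ 8 * q := by
      by_contra hcon
      apply hcase
      constructor
      · omega
      · omega
    calc r * D * m ^ 2 ≤ (8 * q) * (D * m) * m := by
          have h3 : r * D * m ^ 2 = r * (D * m) * m := by ring
          rw [h3]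
          exact Nat.mul_le_mul_right _ (Nat.mul_le_mul_right _ hr8)
      _ ≤ (8 * q) * (44 * q * (j + 1) ^ 2 * q ^ n) * q ^ (n + 1) :=
          Nat.mul_le_mul (Nat.mul_le_mul_left _ hfirstN) hmle
      _ = 352 * q ^ 3 * ((j + 1) * q ^ n) ^ 2 := by ring
      _ ≤ _ := Nat.mul_le_mul_right _ (by omega)

end Pool.Agent.OSD
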