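import Pool.Agent.OSD.Mai
import Pool.Agent.OSD.Lnk

open Finset Module
open scoped LinearAlgebra.Projectivization

namespace Pool.Agent.OSD

open Pool.Agent.GapCodes Pool.Agent.LLog

attribute [local instance] fintypeDual

variable {F : Type} [Field F] [Fintype F] {V : Type} [AddCommGroup V] [Module F V] [Fintype V]
variable {ψ : AddChar F ℂ} {j : ℕ} {P : V → ℝ} {f : Module.Dual F V → ℝ}

open Classical in
/-- STB: the stability theorem for point sets (uses MAI, LNK) -/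
theorem pg_stab (F : Type) [Field F] [Fintype F] : ∃ A C : ℕ, 1 ≤ A ∧ 1 ≤ C ∧
    ∀ (n m j : ℕ) [Fintype (ℙ F (Fin (n + 1) → F))] (U : Finset (ℙ F (Fin (n + 1) → F))),
      #U = m → (∀ H : Submodule F (Fin (n + 1) → F), finrank F H = n →
        m ≤ Fintype.card F * #(U.filter (fun p => p.submodule ≤ H)) + j) →
      ∃ W : Submodule F (Fin (n + 1) → F),
        #((U \ univ.filter (fun p => p.submodule ≤ W)) ∪
            (univ.filter (fun p => p.submodule ≤ W) \ U)) * m ^ A ≤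
          C * ((j + 1) * Fintype.card F ^ n) ^ A := by
  obtain ⟨C, hC, hmain⟩ := cone_main F
  obtain ⟨q, hq⟩ : ∃ q, q = Fintype.card F := ⟨_, rfl⟩
  have hq2 : 2 ≤ q := by
    rw [hq]
    exact Fintype.one_lt_card
  obtain ⟨ψ, hψ⟩ : ∃ ψ : AddChar F ℂ, ψ ≠ 0 := by
    obtain ⟨ψ, hψ⟩ := AddChar.exists_apply_ne_zero.mpr (one_ne_zero : (1:F) ≠ 0)
    refine ⟨ψ, ?_⟩
    rintro rfl
    exact hψ rfl
  have hA1 : 1 ≤ q * C := Nat.mul_pos (by omega) hC
  refine ⟨q * C, (8 * q) ^ (q * C), hA1, Nat.one_le_pow _ _ (by omega), ?_⟩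
  intro n m j _ U hUm hU
  rw [← hq]
  rcases Nat.eq_zero_or_pos m with hm | hm
  · refine ⟨⊥, ?_⟩
    rw [hm, zero_pow (by omega), mul_zero]
    exact Nat.zero_le _
  obtain ⟨P, f, hcone, hsum, hW⟩ := pg_cone (j := j) hψ n U (fun H hH => by
    rw [hUm]
    exact hU H hH)
  rw [hUm, ← hq] at hsum
  have hcardV : Fintype.card (Fin (n + 1) → F) = q ^ (n + 1) := by
    rw [Fintype.card_fun, Fintype.card_fin, hq]
  have hM0 : (0 : ℝ) < Fintype.card (Fin (n + 1) → F) := card_pos' _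
  have hqR : (2 : ℝ) ≤ q := by exact_mod_cast hq2
  have hmR : (1 : ℝ) ≤ m := by exact_mod_cast hm
  have hsm : (m : ℝ) ≤ ∑ x, f x := by
    rw [hsum]
    nlinarith
  have hs1 : (1 : ℝ) ≤ ∑ x, f x := hmR.trans hsm
  have hsM : ∑ x, f x ≤ Fintype.card (Fin (n + 1) → F) := by
    have h1 : ∑ x, f x ≤ ∑ x : Module.Dual F (Fin (n + 1) → F), (1 : ℝ) := by
      refine Finset.sum_le_sum fun x _ => ?_
      rcases hcone.ind x with h | h
      · rw [h]
        norm_num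
      · rw [h]
    rw [Finset.sum_const, nsmul_eq_mul, mul_one] at h1
    refine h1.trans (le_of_eq ?_)
    congr 1
    rw [Finset.card_univ]
    exact Fintype.card_congr (dotProductEquiv F (Fin (n + 1))).symm.toEquiv
  have hex : ∃ y : ℕ, ((j : ℝ) + 2) * Fintype.card (Fin (n + 1) → F) ≤ 2 ^ y * ∑ x, f x := by
    obtain ⟨y, hy⟩ := pow_unbounded_of_one_lt
      (((j : ℝ) + 2) * Fintype.card (Fin (n + 1) → F)) (one_lt_two)
    refine ⟨y, hy.le.trans ?_⟩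
    have : (0 : ℝ) < 2 ^ y := by positivity
    nlinarith
  obtain ⟨y, hy1, hy2⟩ : ∃ y : ℕ, ((j : ℝ) + 2) * Fintype.card (Fin (n + 1) → F)
      ≤ 2 ^ y * ∑ x, f x ∧ ∀ z < y, ¬ (((j : ℝ) + 2) * Fintype.card (Fin (n + 1) → F)
      ≤ 2 ^ z * ∑ x, f x) := ⟨Nat.find hex, Nat.find_spec hex, fun z hz => Nat.find_min hex hz⟩
  rcases y with _ | y
  · exfalso
    rw [pow_zero, one_mul] at hy1
    have hj : (0 : ℝ) ≤ j := Nat.cast_nonneg j
    nlinarith
  have hy3 := hy2 y (Nat.lt_succ_self y)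
  push Not at hy3
  obtain ⟨W, hW1⟩ := hmain (Fin (n + 1) → F) ψ hψ j (y + 1) P f hcone hy1
  obtain ⟨W', hW2⟩ := hW W
  refine ⟨W', ?_⟩
  have h1 := hW2.trans hW1
  rw [← hq] at h1
  obtain ⟨d, hd⟩ : ∃ d, d = #((U \ univ.filter (fun p => p.submodule ≤ W')) ∪
            (univ.filter (fun p => p.submodule ≤ W') \ U)) := ⟨_, rfl⟩
  rw [← hd] at h1 ⊢
  have h2 : d ≤ q ^ (C * (y + 1 + 1)) := by exact_mod_cast h1
  have h3 : q ^ (C * (y + 1 + 1)) ≤ (2 ^ (y + 2)) ^ (q * C) := by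
    calc q ^ (C * (y + 1 + 1)) ≤ (2 ^ q) ^ (C * (y + 1 + 1)) :=
          Nat.pow_le_pow_left (Nat.lt_two_pow_self).le _
      _ = (2 ^ (y + 2)) ^ (q * C) := by
          rw [← pow_mul, ← pow_mul]
          congr 1
          ring
  have h4 : 2 ^ (y + 2) * m ≤ 8 * q * ((j + 1) * q ^ n) := by
    have h5 : (2 : ℝ) ^ y * m < ((j : ℝ) + 2) * (q : ℝ) ^ (n + 1) := by
      have h6 : (Fintype.card (Fin (n + 1) → F) : ℝ) = (q : ℝ) ^ (n + 1) := by
        rw [hcardV]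
        push_cast
        rfl
      rw [h6] at hy3
      refine lt_of_le_of_lt ?_ hy3
      exact mul_le_mul_of_nonneg_left hsm (by positivity)
    have h7 : (2 : ℝ) ^ (y + 2) * m ≤ 8 * q * (((j : ℝ) + 1) * (q : ℝ) ^ n) := by
      have h8 : (2 : ℝ) ^ (y + 2) * m = 4 * (2 ^ y * m) := by ring
      have h9 : ((j : ℝ) + 2) * (q : ℝ) ^ (n + 1) ≤ 2 * (((j : ℝ) + 1) * (q : ℝ) ^ n) * q := by
        have hqn : (0 : ℝ) ≤ (q : ℝ) ^ n * q := by positivity
        have hj : (0 : ℝ) ≤ j := Nat.cast_nonneg j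
        rw [pow_succ]
        nlinarith
      rw [h8]
      nlinarith
    exact_mod_cast h7
  calc d * m ^ (q * C) ≤ (2 ^ (y + 2)) ^ (q * C) * m ^ (q * C) :=
        Nat.mul_le_mul_right _ (h2.trans h3)
    _ = (2 ^ (y + 2) * m) ^ (q * C) := by rw [mul_pow]
    _ ≤ (8 * q * ((j + 1) * q ^ n)) ^ (q * C) := Nat.pow_le_pow_left h4 _
    _ = (8 * q) ^ (q * C) * ((j + 1) * q ^ n) ^ (q * C) := by rw [mul_pow]

end Pool.Agent.OSD
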