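import Pool.Agent.OSD.Defs

open Finset Module

namespace Pool.Agent.OSD

open Pool.Agent.GapCodes Pool.Agent.LLog

attribute [local instance] fintypeDual

variable {F : Type} [Field F] [Fintype F] {V : Type} [AddCommGroup V] [Module F V] [Fintype V]
variable {ψ : AddChar F ℂ} {j : ℕ} {P : V → ℝ} {f : Module.Dual F V → ℝ}

/-- UPP -/
theorem cone_upper (hψ : ψ ≠ 0) (h : Cone ψ j P f) (hP : 3 / 4 ≤ P 0) (c : V) (hc : c ≠ 0) :
    (Fintype.card V : ℝ) * P c ≤ 2 * (j : ℝ) ^ 2 + j := by
  classical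
  have hM := card_pos' V
  have hj : (0 : ℝ) ≤ j := Nat.cast_nonneg j
  -- the function `g`
  have h1 := (h.rep.sub (Rep.const (V := V) ψ (P 0))).add ((Rep.delta (V := V) hψ).smul (j : ℝ))
  have h2 := h1.mul hψ h1
  have h3 := (((h.rep.smul (1 - 2 * P 0)).add (Rep.const (V := V) ψ (P 0 ^ 2))).add
    ((Rep.delta (V := V) hψ).smul (2 * j * (1 - P 0) + (j : ℝ) ^ 2)))
  have hfun : (fun x : Module.Dual F V => (f x - P 0 + (j : ℝ) * (if x = 0 then 1 else 0)) *
      (f x - P 0 + (j : ℝ) * (if x = 0 then 1 else 0))) =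
      (fun x => (1 - 2 * P 0) * f x + P 0 ^ 2 +
        (2 * j * (1 - P 0) + (j : ℝ) ^ 2) * (if x = 0 then 1 else 0)) := by
    funext x
    by_cases hx : x = 0
    · subst hx
      rw [h.one]
      simp only [if_true]
      ring
    · simp only [if_neg hx, mul_zero, add_zero]
      rcases h.ind x with h0 | h0 <;> rw [h0] <;> ring
  rw [hfun] at h2
  have h4 := rep_uniq hψ h2 h3 c
  have h5 : 0 ≤ cv (fun c => P c - (if c = 0 then P 0 else 0) + (j : ℝ) * (1 / Fintype.card V))
      (fun c => P c - (if c = 0 then P 0 else 0) + (j : ℝ) * (1 / Fintype.card V)) c := by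
    have h6 : ∀ c : V, 0 ≤ P c - (if c = 0 then P 0 else 0) + (j : ℝ) * (1 / Fintype.card V) := by
      intro c
      by_cases hc : c = 0
      · subst hc
        rw [if_pos rfl, sub_self, zero_add]
        positivity
      · rw [if_neg hc, sub_zero]
        have h7 := h.low c
        have h8 : P c + (j : ℝ) * (1 / Fintype.card V) =
            ((Fintype.card V : ℝ) * P c + j) / Fintype.card V := by
          field_simp
        rw [h8]
        exact div_nonneg h7 hM.le
    exact Finset.sum_nonneg fun z _ => mul_nonneg (h6 _) (h6 _)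
  have h6 : cv (fun c => P c - (if c = 0 then P 0 else 0) + (j : ℝ) * (1 / Fintype.card V))
      (fun c => P c - (if c = 0 then P 0 else 0) + (j : ℝ) * (1 / Fintype.card V)) c =
      (1 - 2 * P 0) * P c + (if c = 0 then P 0 ^ 2 else 0) +
        (2 * j * (1 - P 0) + (j : ℝ) ^ 2) * (1 / Fintype.card V) := h4
  rw [h6, if_neg hc, add_zero] at h5
  have h7 : 0 ≤ (1 - 2 * P 0) * ((Fintype.card V : ℝ) * P c) + (2 * j * (1 - P 0) + (j : ℝ) ^ 2) := by
    have h8 := mul_nonneg hM.le h5
    have h9 : (Fintype.card V : ℝ) * ((1 - 2 * P 0) * P c +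
        (2 * j * (1 - P 0) + (j : ℝ) ^ 2) * (1 / Fintype.card V)) =
        (1 - 2 * P 0) * ((Fintype.card V : ℝ) * P c) + (2 * j * (1 - P 0) + (j : ℝ) ^ 2) := by
      field_simp
    rw [h9] at h8
    exact h8
  rcases le_total ((Fintype.card V : ℝ) * P c) 0 with h8 | h8
  · exact h8.trans (by positivity)
  · have h9 : (1 / 2 : ℝ) * ((Fintype.card V : ℝ) * P c) ≤
        (2 * P 0 - 1) * ((Fintype.card V : ℝ) * P c) :=
      mul_le_mul_of_nonneg_right (by linarith) h8
    have h10 : (j : ℝ) * (1 - P 0) ≤ j * (1 / 4) := mul_le_mul_of_nonneg_left (by linarith) hj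
    nlinarith

end Pool.Agent.OSD
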