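import Pool.Agent.OSD.Defs
import Pool.Agent.OSD.Quo
import Pool.Agent.OSD.Upp

open Finset Module

namespace Pool.Agent.OSD

open Pool.Agent.GapCodes Pool.Agent.LLog

attribute [local instance] fintypeDual

variable {F : Type} [Field F] [Fintype F] {V : Type} [AddCommGroup V] [Module F V] [Fintype V]
variable {ψ : AddChar F ℂ} {j : ℕ} {P : V → ℝ} {f : Module.Dual F V → ℝ}

open Classical in
omit [Fintype F] in
private theorem tai_fibre (H : Submodule F V) [Fintype H] (cb : V ⧸ H) :
    (∑ c : V, if H.mkQ c = cb then (1 : ℝ) else 0) = Fintype.card H := by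
  obtain ⟨c0, hc0⟩ := Submodule.mkQ_surjective H cb
  rw [Finset.sum_boole]
  congr 1
  symm
  rw [← Finset.card_univ]
  apply Finset.card_bij (fun (x : H) _ => c0 + (x : V))
  · intro x _
    rw [Finset.mem_filter]
    refine ⟨Finset.mem_univ _, ?_⟩
    rw [map_add, hc0]
    have h1 : H.mkQ (x : V) = 0 := by
      rw [Submodule.mkQ_apply, Submodule.Quotient.mk_eq_zero]
      exact x.2
    rw [h1, add_zero]
  · intro x _ y _ hxy
    exact Subtype.ext (add_left_cancel hxy)
  · intro c hc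
    rw [Finset.mem_filter] at hc
    have h2 : H.mkQ (c - c0) = 0 := by rw [map_sub, hc.2, hc0, sub_self]
    rw [Submodule.mkQ_apply, Submodule.Quotient.mk_eq_zero] at h2
    refine ⟨⟨c - c0, h2⟩, Finset.mem_univ _, ?_⟩
    simp

private theorem tai_sq {ι : Type} (s : Finset ι) (a : ι → ℝ) (ha : ∀ i ∈ s, 0 ≤ a i) :
    ∑ i ∈ s, a i ^ 2 ≤ (∑ i ∈ s, a i) ^ 2 := by
  have h1 : ∀ i ∈ s, a i ^ 2 ≤ a i * ∑ k ∈ s, a k := by
    intro i hi
    have h2 : a i ≤ ∑ k ∈ s, a k := Finset.single_le_sum ha hi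
    nlinarith [ha i hi]
  calc ∑ i ∈ s, a i ^ 2 ≤ ∑ i ∈ s, a i * ∑ k ∈ s, a k := Finset.sum_le_sum h1
    _ = (∑ i ∈ s, a i) ^ 2 := by rw [← Finset.sum_mul]; ring

open Classical in
/-- TAI (uses QUO and UPP) -/
theorem cone_tail (hψ : ψ ≠ 0) (h : Cone ψ j P f) (H : Submodule F V) [Fintype H]
    (hH : 3 / 4 ≤ sg P H) :
    (Fintype.card V : ℝ) * ∑ c, (if c ∈ H then 0 else P c ^ 2) ≤
      9 * ((j : ℝ) + 1) ^ 4 * Fintype.card H := by
  letI : Fintype (V ⧸ H) := Fintype.ofFinite _
  have hq := cone_quot h H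
  have h0 : 3 / 4 ≤ aq P H 0 := by rw [aq_zero]; exact hH
  have hM : (0 : ℝ) < Fintype.card V := card_pos' V
  have hM' : (0 : ℝ) < Fintype.card (V ⧸ H) := card_pos' (V ⧸ H)
  have hMM := card_quot H
  have hj : (0 : ℝ) ≤ j := Nat.cast_nonneg j
  have hH0 : (0 : ℝ) ≤ Fintype.card H := Nat.cast_nonneg _
  -- each fibre
  have hfib : ∀ cb : V ⧸ H, cb ≠ 0 → (∑ c : V, if H.mkQ c = cb then P c ^ 2 else 0) ≤
      ((2 * (j : ℝ) ^ 2 + 3 * j) / Fintype.card (V ⧸ H)) ^ 2 := by
    intro cb hcb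
    have h1 := cone_upper hψ hq h0 cb hcb
    have h2 : (∑ c : V, if H.mkQ c = cb then P c ^ 2 else 0) =
        ∑ c : V, (if H.mkQ c = cb then |P c| else 0) ^ 2 := by
      apply Finset.sum_congr rfl
      intro c _
      split_ifs
      · rw [sq_abs]
      · simp
    have h3 : (∑ c : V, (if H.mkQ c = cb then |P c| else 0) ^ 2) ≤
        (∑ c : V, (if H.mkQ c = cb then |P c| else 0)) ^ 2 := by
      apply tai_sq
      intro c _
      split_ifs
      · exact abs_nonneg _
      · exact le_refl _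
    have h4 : (∑ c : V, (if H.mkQ c = cb then |P c| else 0)) ≤
        ∑ c : V, ((if H.mkQ c = cb then P c else 0) +
          2 * (j : ℝ) / Fintype.card V * (if H.mkQ c = cb then (1 : ℝ) else 0)) := by
      apply Finset.sum_le_sum
      intro c _
      by_cases hc : H.mkQ c = cb
      · rw [if_pos hc, if_pos hc, if_pos hc, mul_one]
        have h5 := h.low c
        have h6 : -(j : ℝ) / Fintype.card V ≤ P c := by
          rw [div_le_iff₀ hM]
          linarith
        have h7 : 2 * (j : ℝ) / Fintype.card V = -2 * (-(j : ℝ) / Fintype.card V) := by ring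
        have h8 : -(j : ℝ) / Fintype.card V ≤ 0 :=
          div_nonpos_of_nonpos_of_nonneg (by linarith) hM.le
        rw [abs_le]
        constructor
        · rw [h7]; linarith
        · rw [h7]; linarith
      · rw [if_neg hc, if_neg hc, if_neg hc]
        simp
    have h5 : (∑ c : V, ((if H.mkQ c = cb then P c else 0) +
          2 * (j : ℝ) / Fintype.card V * (if H.mkQ c = cb then (1 : ℝ) else 0))) =
        aq P H cb + 2 * (j : ℝ) / Fintype.card (V ⧸ H) := by
      rw [Finset.sum_add_distrib, ← Finset.mul_sum, tai_fibre H cb]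
      have h9 : 2 * (j : ℝ) / Fintype.card V * Fintype.card H =
          2 * (j : ℝ) / Fintype.card (V ⧸ H) := by
        have hHp : (Fintype.card H : ℝ) ≠ 0 := by
          intro hz
          rw [hz, zero_mul] at hMM
          exact hM.ne' hMM
        rw [hMM]
        field_simp
      rw [h9]
      rfl
    have h6 : aq P H cb + 2 * (j : ℝ) / Fintype.card (V ⧸ H) ≤
        (2 * (j : ℝ) ^ 2 + 3 * j) / Fintype.card (V ⧸ H) := by
      rw [← sub_nonneg]
      have h7 : (2 * (j : ℝ) ^ 2 + 3 * j) / Fintype.card (V ⧸ H) -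
          (aq P H cb + 2 * (j : ℝ) / Fintype.card (V ⧸ H)) =
          ((2 * (j : ℝ) ^ 2 + j) - Fintype.card (V ⧸ H) * aq P H cb) /
            Fintype.card (V ⧸ H) := by
        field_simp
        ring
      rw [h7]
      exact div_nonneg (by linarith) hM'.le
    have h10 : 0 ≤ ∑ c : V, (if H.mkQ c = cb then |P c| else 0) := by
      apply Finset.sum_nonneg
      intro c _
      split_ifs
      · exact abs_nonneg _
      · exact le_refl _
    rw [h2]
    refine h3.trans ?_
    apply pow_le_pow_left₀ h10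
    exact (h4.trans (le_of_eq h5)).trans h6
  -- sum over the fibres
  have hsum : (∑ c : V, (if c ∈ H then 0 else P c ^ 2)) =
      ∑ cb : V ⧸ H, if cb = 0 then 0 else ∑ c : V, if H.mkQ c = cb then P c ^ 2 else 0 := by
    have h1 : ∀ cb : V ⧸ H, (if cb = 0 then 0 else ∑ c : V, if H.mkQ c = cb then P c ^ 2 else 0) =
        ∑ c : V, if H.mkQ c = cb then (if H.mkQ c = 0 then 0 else P c ^ 2) else 0 := by
      intro cb
      by_cases hcb : cb = 0
      · rw [if_pos hcb]
        symm
        apply Finset.sum_eq_zero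
        intro c _
        by_cases hc : H.mkQ c = cb
        · rw [if_pos hc, if_pos (hc.trans hcb)]
        · rw [if_neg hc]
      · rw [if_neg hcb]
        apply Finset.sum_congr rfl
        intro c _
        by_cases hc : H.mkQ c = cb
        · rw [if_pos hc, if_pos hc, if_neg (fun hz => hcb (hc.symm.trans hz))]
        · rw [if_neg hc, if_neg hc]
    rw [Finset.sum_congr rfl (fun cb _ => h1 cb), Finset.sum_comm]
    apply Finset.sum_congr rfl
    intro c _
    rw [Finset.sum_ite_eq, if_pos (Finset.mem_univ _)]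
    by_cases hc : c ∈ H
    · rw [if_pos hc, if_pos]
      rw [Submodule.mkQ_apply, Submodule.Quotient.mk_eq_zero]
      exact hc
    · rw [if_neg hc, if_neg]
      rw [Submodule.mkQ_apply, Submodule.Quotient.mk_eq_zero]
      exact hc
  have htot : (∑ cb : V ⧸ H, if cb = 0 then 0 else
      ∑ c : V, if H.mkQ c = cb then P c ^ 2 else 0) ≤
      Fintype.card (V ⧸ H) * ((2 * (j : ℝ) ^ 2 + 3 * j) / Fintype.card (V ⧸ H)) ^ 2 := by
    have h1 : ∀ cb ∈ (Finset.univ : Finset (V ⧸ H)), (if cb = 0 then 0 else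
        ∑ c : V, if H.mkQ c = cb then P c ^ 2 else 0) ≤
        ((2 * (j : ℝ) ^ 2 + 3 * j) / Fintype.card (V ⧸ H)) ^ 2 := by
      intro cb _
      by_cases hcb : cb = 0
      · rw [if_pos hcb]
        positivity
      · rw [if_neg hcb]
        exact hfib cb hcb
    have h2 := Finset.sum_le_card_nsmul _ _ _ h1
    rw [Finset.card_univ, nsmul_eq_mul] at h2
    exact h2
  rw [hsum]
  calc (Fintype.card V : ℝ) * (∑ cb : V ⧸ H, if cb = 0 then 0 else
      ∑ c : V, if H.mkQ c = cb then P c ^ 2 else 0)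
      ≤ Fintype.card V * (Fintype.card (V ⧸ H) *
        ((2 * (j : ℝ) ^ 2 + 3 * j) / Fintype.card (V ⧸ H)) ^ 2) :=
        mul_le_mul_of_nonneg_left htot hM.le
    _ = (2 * (j : ℝ) ^ 2 + 3 * j) ^ 2 * Fintype.card H := by
        rw [hMM]
        field_simp
    _ ≤ 9 * ((j : ℝ) + 1) ^ 4 * Fintype.card H := by
        apply mul_le_mul_of_nonneg_right _ hH0
        have h1 : 2 * (j : ℝ) ^ 2 + 3 * j ≤ 3 * (j + 1) ^ 2 := by nlinarith
        have h2 : 0 ≤ 2 * (j : ℝ) ^ 2 + 3 * j := by positivity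
        have h3 := pow_le_pow_left₀ h2 h1 2
        calc (2 * (j : ℝ) ^ 2 + 3 * j) ^ 2 ≤ (3 * ((j : ℝ) + 1) ^ 2) ^ 2 := h3
          _ = 9 * ((j : ℝ) + 1) ^ 4 := by ring

end Pool.Agent.OSD
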