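import Pool.Agent.Strip.MinihyperFinal

open Finset Module
open scoped LinearAlgebra.Projectivization

namespace Pool.Agent.OSD

open Classical in
private theorem trv_count (F : Type) [Field F] [Fintype F] (n : ℕ)
    [Fintype (ℙ F (Fin (n + 1) → F))] (W H : Submodule F (Fin (n + 1) → F))
    (hH : finrank F H = n) (hWH : ¬ W ≤ H) :
    Fintype.card F * #(univ.filter (fun p : ℙ F (Fin (n + 1) → F) => p.submodule ≤ W ⊓ H)) + 1 =
      #(univ.filter (fun p : ℙ F (Fin (n + 1) → F) => p.submodule ≤ W)) := by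
  have hq : 1 < Fintype.card F := Fintype.one_lt_card
  have h1 := Pool.Agent.Strip.MH.mh_card (F := F) (V := Fin (n + 1) → F) W
  have h2 := Pool.Agent.Strip.MH.mh_card (F := F) (V := Fin (n + 1) → F) (W ⊓ H)
  have hsup : finrank F (W ⊔ H : Submodule F (Fin (n + 1) → F)) = n + 1 := by
    have hlt : H < W ⊔ H := by
      refine lt_of_le_of_ne le_sup_right (fun h => hWH ?_)
      rw [h]
      exact le_sup_left
    have h3 := Submodule.finrank_lt_finrank_of_lt hlt
    have h4 := Submodule.finrank_le (W ⊔ H : Submodule F (Fin (n + 1) → F))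
    have h5 : finrank F (Fin (n + 1) → F) = n + 1 := by simp
    omega
  have hadd := Submodule.finrank_sup_add_finrank_inf_eq W H
  have hu : finrank F W = finrank F (W ⊓ H : Submodule F (Fin (n + 1) → F)) + 1 := by omega
  rw [hu, pow_succ, ← h2] at h1
  obtain ⟨k, hk⟩ : ∃ k, Fintype.card F = k + 2 := ⟨Fintype.card F - 2, by omega⟩
  rw [hk] at h1 ⊢
  have hk1 : k + 2 - 1 = k + 1 := by omega
  rw [hk1] at h1
  have h6 : (k + 1) * ((k + 2) *
      #(univ.filter (fun p : ℙ F (Fin (n + 1) → F) => p.submodule ≤ W ⊓ H)) + 1) =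
      (k + 1) * #(univ.filter (fun p : ℙ F (Fin (n + 1) → F) => p.submodule ≤ W)) := by
    nlinarith [h1]
  exact Nat.eq_of_mul_eq_mul_left (by omega) h6

open Classical in
/-- Adding points to a subspace or removing points from it, trivial bound. -/
theorem pg_upper0 (F : Type) [Field F] [Fintype F] (n m u : ℕ)
    [Fintype (ℙ F (Fin (n + 1) → F))]
    (hm : (Fintype.card F - 1) * m < Fintype.card F ^ (n + 1)) (hu : u ≤ n + 1) :
    ∃ U : Finset (ℙ F (Fin (n + 1) → F)), #U = m ∧
      ∀ H : Submodule F (Fin (n + 1) → F), finrank F H = n →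
        (m : ℝ) ≤ Fintype.card F * #(U.filter (fun p => p.submodule ≤ H)) + 1 +
          |((Fintype.card F : ℝ) - 1) * m + 1 - (Fintype.card F : ℝ) ^ u| := by
  have hq2 : 2 ≤ Fintype.card F := Fintype.one_lt_card
  obtain ⟨W, hW⟩ := Pool.Agent.Strip.spread_sub F (V := Fin (n + 1) → F) (d := u)
    (by rw [Module.finrank_fin_fun]; exact hu)
  have hP := Pool.Agent.Strip.MH.mh_card (F := F) W
  have hall := Pool.Agent.Strip.MH.mh_card (F := F) (V := Fin (n + 1) → F) ⊤
  rw [finrank_top, Module.finrank_fin_fun,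
    Finset.filter_true_of_mem (fun p _ => le_top)] at hall
  have hmall : m ≤ #(univ : Finset (ℙ F (Fin (n + 1) → F))) := by
    have h2 : (Fintype.card F - 1) * m ≤
        (Fintype.card F - 1) * #(univ : Finset (ℙ F (Fin (n + 1) → F))) := by omega
    exact Nat.le_of_mul_le_mul_left h2 (by omega)
  rw [hW] at hP
  set PW : Finset (ℙ F (Fin (n + 1) → F)) := univ.filter (fun p => p.submodule ≤ W) with hPW
  have hq1 : (2 : ℝ) ≤ Fintype.card F := by exact_mod_cast hq2
  have hPR : (Fintype.card F : ℝ) ^ u = ((Fintype.card F : ℝ) - 1) * #PW + 1 := by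
    obtain ⟨Q, hQ⟩ : ∃ Q, Fintype.card F = Q + 1 := ⟨Fintype.card F - 1, by omega⟩
    rw [hQ] at hP ⊢
    simp only [Nat.add_sub_cancel] at hP
    have h1 : (((Q + 1) ^ u : ℕ) : ℝ) = ((Q * #PW + 1 : ℕ) : ℝ) := by rw [hP]
    push_cast at h1 ⊢
    linarith
  have hdel : |((Fintype.card F : ℝ) - 1) * m + 1 - (Fintype.card F : ℝ) ^ u| =
      ((Fintype.card F : ℝ) - 1) * |(m : ℝ) - #PW| := by
    rw [hPR]
    have h1 : ((Fintype.card F : ℝ) - 1) * m + 1 - (((Fintype.card F : ℝ) - 1) * #PW + 1) =
        ((Fintype.card F : ℝ) - 1) * ((m : ℝ) - #PW) := by ring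
    rw [h1, abs_mul, abs_of_nonneg (by linarith : (0 : ℝ) ≤ (Fintype.card F : ℝ) - 1)]
  rw [hdel]
  have hcnt : ∀ H : Submodule F (Fin (n + 1) → F), finrank F H = n → ¬ W ≤ H →
      (Fintype.card F : ℝ) * #(PW.filter (fun p => p.submodule ≤ H)) + 1 = #PW := by
    intro H hH hWH
    have h1 := trv_count F n W H hH hWH
    have h2 : PW.filter (fun p => p.submodule ≤ H) =
        univ.filter (fun p : ℙ F (Fin (n + 1) → F) => p.submodule ≤ W ⊓ H) := by
      ext p
      simp only [hPW, Finset.mem_filter, Finset.mem_univ, true_and, le_inf_iff]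
    rw [h2]
    exact_mod_cast h1
  have hin : ∀ H : Submodule F (Fin (n + 1) → F), W ≤ H →
      PW.filter (fun p => p.submodule ≤ H) = PW := by
    intro H hWH
    apply Finset.filter_true_of_mem
    intro p hp
    rw [hPW, Finset.mem_filter] at hp
    exact hp.2.trans hWH
  rcases le_total #PW m with hle | hle
  · obtain ⟨U, hWU, -, hU⟩ := Finset.exists_subsuperset_card_eq (Finset.subset_univ PW) hle
      (by simpa using hmall)
    refine ⟨U, hU, fun H hH => ?_⟩
    have hle' : (#PW : ℝ) ≤ m := by exact_mod_cast hle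
    rw [abs_of_nonneg (by linarith : (0 : ℝ) ≤ (m : ℝ) - #PW)]
    have h1 : #(PW.filter (fun p => p.submodule ≤ H)) ≤ #(U.filter (fun p => p.submodule ≤ H)) :=
      Finset.card_le_card (Finset.filter_subset_filter _ hWU)
    have h1' : (#(PW.filter (fun p => p.submodule ≤ H)) : ℝ) ≤
        #(U.filter (fun p => p.submodule ≤ H)) := by exact_mod_cast h1
    have h3 : (#PW : ℝ) ≤ Fintype.card F * #(PW.filter (fun p => p.submodule ≤ H)) + 1 := by
      by_cases hWH : W ≤ H
      · rw [hin H hWH]
        have : (0 : ℝ) ≤ #PW := Nat.cast_nonneg _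
        nlinarith
      · exact (hcnt H hH hWH).ge
    have h4 := mul_le_mul_of_nonneg_left h1' (by linarith : (0 : ℝ) ≤ Fintype.card F)
    nlinarith
  · obtain ⟨U, hUW, hU⟩ := Finset.exists_subset_card_eq hle
    refine ⟨U, hU, fun H hH => ?_⟩
    have hle' : (m : ℝ) ≤ #PW := by exact_mod_cast hle
    rw [abs_of_nonpos (by linarith : (m : ℝ) - #PW ≤ 0)]
    by_cases hWH : W ≤ H
    · have h1 : U.filter (fun p => p.submodule ≤ H) = U := by
        apply Finset.filter_true_of_mem
        intro p hp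
        have h2 := hUW hp
        rw [hPW, Finset.mem_filter] at h2
        exact h2.2.trans hWH
      rw [h1, hU]
      have hm0 : (0 : ℝ) ≤ m := Nat.cast_nonneg _
      nlinarith
    · have h1 : #(PW.filter (fun p => p.submodule ≤ H)) ≤
          #(U.filter (fun p => p.submodule ≤ H)) + #(PW \ U) := by
        have h21 : PW.filter (fun p => p.submodule ≤ H) ⊆
            U.filter (fun p => p.submodule ≤ H) ∪ (PW \ U) := by
          intro p hp
          rw [Finset.mem_filter] at hp
          rw [Finset.mem_union, Finset.mem_filter, Finset.mem_sdiff]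
          by_cases h : p ∈ U
          · exact Or.inl ⟨h, hp.2⟩
          · exact Or.inr ⟨hp.1, h⟩
        exact (Finset.card_le_card h21).trans (Finset.card_union_le _ _)
      have h2 : #(PW \ U) + m = #PW := by
        rw [← hU]
        exact Finset.card_sdiff_add_card_eq_card hUW
      have h1' : (#(PW.filter (fun p => p.submodule ≤ H)) : ℝ) ≤
          #(U.filter (fun p => p.submodule ≤ H)) + #(PW \ U) := by exact_mod_cast h1
      have h2' : (#(PW \ U) : ℝ) + m = #PW := by exact_mod_cast h2
      have h3 := hcnt H hH hWH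
      have h4 := mul_le_mul_of_nonneg_left h1' (by linarith : (0 : ℝ) ≤ Fintype.card F)
      nlinarith

end Pool.Agent.OSD
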